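import Mathlib

/-!
Separably rationally connected Fano hypersurfaces over prime fields: definitions and
general lemmas.
-/

open MvPolynomial

set_option linter.unusedSectionVars false

namespace Pool.Agent.H29.Fano

/-- The hypersurface `F = 0` in projective `n`-space over the field `K` (to be used with `K`
algebraically closed) is smooth: no non-zero vector is a common zero of `F` and of all its
partial derivatives (Jacobian criterion). -/
def IsSmooth {R : Type*} (K : Type*) [CommRing R] [Field K] [Algebra R K] {n : ℕ}
    (F : MvPolynomial (Fin (n + 1)) R) : Prop :=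
  ∀ x : Fin (n + 1) → K, x ≠ 0 → aeval x F = 0 → ∃ i, aeval x (pderiv i F) ≠ 0

/-- `f` is a morphism of degree `e + 1 ≥ 1` from the projective line over `K` to the
hypersurface `X = {F = 0}`: forms `f 0, ..., f n` of degree `e + 1` in two variables, without
common zero on the projective line, such that `F(f 0, ..., f n) = 0`. -/
def IsRationalCurve {R K : Type*} [CommRing R] [Field K] [Algebra R K] {n : ℕ}
    (F : MvPolynomial (Fin (n + 1)) R) (e : ℕ) (f : Fin (n + 1) → MvPolynomial (Fin 2) K) :
    Prop :=
  (∀ i, (f i).IsHomogeneous (e + 1)) ∧ (∀ a : Fin 2 → K, a ≠ 0 → ∃ i, eval a (f i) ≠ 0) ∧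
    aeval f F = 0

/-- `f` is very free on `X = {F = 0}`: the vector bundle `f^* T_X` on the projective line is
ample, that is, `f^* T_X (-1)` is globally generated.

Write `F_i` for the partial derivatives of `F`. By the Euler sequence, `f^* T_X (-1)` is the
quotient of `E = ker ((F_i(f))_i : O(e)^{n+1} → O(de + d - 1))` by the image of `O(-1)` under
multiplication by `f`. Its fibre at a point `a` is `{w : ∑ F_i(f(a)) w_i = 0} / K f(a)`, and,
as `H^0` and `H^1` of `O(-1)` vanish, its global sections are the vectors `v` of forms of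
degree `e` with `∑ F_i(f) v_i = 0`. Global generation says that every element of every fibre is
the value of a global section. -/
def IsVeryFree {R K : Type*} [CommRing R] [Field K] [Algebra R K] {n : ℕ}
    (F : MvPolynomial (Fin (n + 1)) R) (e : ℕ) (f : Fin (n + 1) → MvPolynomial (Fin 2) K) :
    Prop :=
  ∀ a : Fin 2 → K, a ≠ 0 → ∀ w : Fin (n + 1) → K,
    ∑ i, aeval (fun j => eval a (f j)) (pderiv i F) * w i = 0 →
    ∃ v : Fin (n + 1) → MvPolynomial (Fin 2) K, (∀ i, (v i).IsHomogeneous e) ∧
      ∑ i, aeval f (pderiv i F) * v i = 0 ∧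
      ∃ c : K, ∀ i, w i = eval a (v i) + c * eval a (f i)

/-- The hypersurface `F = 0` over `K` (smooth, `K` algebraically closed) is separably
rationally connected: it carries a very free rational curve. -/
def IsSRC {R : Type*} (K : Type*) [CommRing R] [Field K] [Algebra R K] {n : ℕ}
    (F : MvPolynomial (Fin (n + 1)) R) : Prop :=
  ∃ (e : ℕ) (f : Fin (n + 1) → MvPolynomial (Fin 2) K), IsRationalCurve F e f ∧ IsVeryFree F e f

section dir

variable {ι R A : Type*} [Fintype ι] [DecidableEq ι] [CommRing R] [CommRing A] [Algebra R A]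

/-- The derivative of `F` at `x` in the direction `w`. -/
noncomputable def dir (x w : ι → A) (F : MvPolynomial ι R) : A :=
  ∑ i, aeval x (pderiv i F) * w i

theorem dir_add (x w : ι → A) (F G : MvPolynomial ι R) :
    dir x w (F + G) = dir x w F + dir x w G := by
  simp [dir, add_mul, Finset.sum_add_distrib]

theorem dir_sub (x w : ι → A) (F G : MvPolynomial ι R) :
    dir x w (F - G) = dir x w F - dir x w G := by
  simp [dir, sub_mul, Finset.sum_sub_distrib]

theorem dir_zero (x w : ι → A) : dir x w (0 : MvPolynomial ι R) = 0 := by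
  simp [dir]

theorem dir_C (x w : ι → A) (r : R) : dir x w (C r : MvPolynomial ι R) = 0 := by
  simp [dir]

theorem dir_sum {κ : Type*} (s : Finset κ) (x w : ι → A) (F : κ → MvPolynomial ι R) :
    dir x w (∑ k ∈ s, F k) = ∑ k ∈ s, dir x w (F k) := by
  classical
  induction s using Finset.induction_on with
  | empty => simp [dir_zero]
  | insert a s ha ih => rw [Finset.sum_insert ha, Finset.sum_insert ha, dir_add, ih]

theorem dir_mul (x w : ι → A) (F G : MvPolynomial ι R) :
    dir x w (F * G) = dir x w F * aeval x G + aeval x F * dir x w G := by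
  simp only [dir, pderiv_mul, map_add, map_mul, Finset.sum_mul, Finset.mul_sum]
  rw [← Finset.sum_add_distrib]
  refine Finset.sum_congr rfl fun i _ => ?_
  ring

theorem dir_pow (x w : ι → A) (F : MvPolynomial ι R) (k : ℕ) :
    dir x w (F ^ k) = k * aeval x F ^ (k - 1) * dir x w F := by
  simp only [dir, Derivation.leibniz_pow, Finset.mul_sum]
  refine Finset.sum_congr rfl fun i _ => ?_
  simp [mul_assoc]

theorem dir_X (x w : ι → A) (i : ι) : dir x w (X i : MvPolynomial ι R) = w i := by
  rw [dir, Finset.sum_eq_single i]
  · simp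
  · intro b _ hb
    rw [pderiv_X_of_ne (Ne.symm hb)]; simp
  · simp

theorem dir_single (x : ι → A) (F : MvPolynomial ι R) (i : ι) :
    dir x (Pi.single i 1) F = aeval x (pderiv i F) := by
  rw [dir, Finset.sum_eq_single i]
  · simp
  · intro b _ hb
    simp [hb]
  · simp

theorem dir_add_right (x w w' : ι → A) (F : MvPolynomial ι R) :
    dir x (w + w') F = dir x w F + dir x w' F := by
  simp [dir, mul_add, Finset.sum_add_distrib]

theorem dir_sub_right (x w w' : ι → A) (F : MvPolynomial ι R) :
    dir x (w - w') F = dir x w F - dir x w' F := by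
  simp [dir, mul_sub, Finset.sum_sub_distrib]

theorem dir_zero_right (x : ι → A) (F : MvPolynomial ι R) :
    dir x 0 F = 0 := by
  simp [dir]

theorem dir_smul_right (x w : ι → A) (c : A) (F : MvPolynomial ι R) :
    dir x (fun i => c * w i) F = c * dir x w F := by
  simp only [dir, Finset.mul_sum]
  refine Finset.sum_congr rfl fun i _ => ?_
  ring

end dir

/-- Euler's identity. -/
theorem dir_self {ι R A : Type*} [Fintype ι] [DecidableEq ι] [CommRing R] [CommRing A]
    [Algebra R A] (x : ι → A) {F : MvPolynomial ι R} {d : ℕ} (hF : F.IsHomogeneous d) :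
    dir x x F = d * aeval x F := by
  have h := hF.sum_X_mul_pderiv
  have h2 := congrArg (aeval x) h
  simp only [map_sum, map_mul, aeval_X] at h2
  rw [dir]
  rw [show (∑ i, aeval x (pderiv i F) * x i) = ∑ i, x i * aeval x (pderiv i F) from
    Finset.sum_congr rfl fun i _ => mul_comm _ _, h2]
  simp

theorem eval_aeval {σ R K : Type*} [CommRing R] [Field K] [Algebra R K]
    (f : σ → MvPolynomial (Fin 2) K) (a : Fin 2 → K) (G : MvPolynomial σ R) :
    eval a (aeval f G) = aeval (fun j => eval a (f j)) G := by
  have : ((eval a : MvPolynomial (Fin 2) K →+* K).comp (aeval f : MvPolynomial σ R →ₐ[R] _).toRingHom)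
      = ((aeval (fun j => eval a (f j)) : MvPolynomial σ R →ₐ[R] K)).toRingHom := by
    apply MvPolynomial.ringHom_ext
    · intro r
      simp
    · intro i
      simp
  exact congrFun (congrArg DFunLike.coe this) G

end Pool.Agent.H29.Fano
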