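import Pool.Agent.H29.Fano.Curve

/-!
Degree prime to the characteristic, odd characteristic.
-/

open MvPolynomial

set_option linter.unusedSectionVars false

namespace Pool.Agent.H29.Fano

theorem mem_of_sum_mem {K E ι : Type*} [Field K] [AddCommGroup E] [Module K E]
    {V : Submodule K E} {s : Finset ι} {g : ι → E} {j : ι} (hj : j ∈ s)
    (h : ∑ i ∈ s, g i ∈ V) (h' : ∀ i ∈ s, i ≠ j → g i ∈ V) : g j ∈ V := by
  classical
  rw [← Finset.add_sum_erase _ _ hj] at h
  have h2 : ∑ i ∈ s.erase j, g i ∈ V := Submodule.sum_mem _ fun i hi =>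
    h' i (Finset.mem_of_mem_erase hi) (Finset.ne_of_mem_erase hi)
  have := V.sub_mem h h2
  rwa [add_sub_cancel_right] at this

theorem mem_of_smul_mem {K E : Type*} [Field K] [AddCommGroup E] [Module K E]
    {V : Submodule K E} {c : K} (hc : c ≠ 0) {g : E} (h : c • g ∈ V) : g ∈ V :=
  (V.smul_mem_iff hc).mp h

theorem chainA {K E : Type*} [Field K] [AddCommGroup E] [Module K E] {N : ℕ} (hN : 2 ≤ N)
    (V : Submodule K E) (M : ℕ → E) (α β : ℕ → K) (hα : α (N - 1) ≠ 0) (hβ : β 1 ≠ 0)
    (h1 : ∀ i b, 1 ≤ i → i ≤ N - 1 → b ≤ N - 2 → M ((N - 1) * i + b) ∈ V)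
    (h2 : ∀ b, b ≤ N - 2 → ∑ i ∈ Finset.Ico 1 N, α i • M (N * i + b) ∈ V)
    (h3 : ∀ b, b ≤ N - 2 → ∑ i ∈ Finset.Ico 1 N, β i • M (N * (i - 1) + b) ∈ V) :
    ∀ r, r ≤ N * N - 2 → M r ∈ V := by
  obtain ⟨k, rfl⟩ : ∃ k, N = k + 2 := ⟨N - 2, by omega⟩
  simp only [show k + 2 - 1 = k + 1 by omega, show k + 2 - 2 = k by omega] at *
  have mid : ∀ r, k + 1 ≤ r → r < (k + 1) * (k + 2) → M r ∈ V := by
    intro r hr1 hr2
    have e := Nat.div_add_mod r (k + 1)
    rw [← e]
    refine h1 _ _ ?_ ?_ ?_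
    · exact (Nat.one_le_div_iff (by omega)).mpr hr1
    · have : r / (k + 1) < k + 2 := (Nat.div_lt_iff_lt_mul (by omega)).mpr (by linarith)
      omega
    · have := Nat.mod_lt r (show 0 < k + 1 by omega)
      omega
  intro r hr
  have e0 : (k + 2) * (k + 2) - 2 = (k + 1) * (k + 2) + k := by
    have : (k + 2) * (k + 2) = (k + 1) * (k + 2) + k + 2 := by ring
    omega
  rw [e0] at hr
  rcases Nat.lt_or_ge r (k + 1) with h | h
  · have := mem_of_sum_mem (j := 1) (Finset.mem_Ico.mpr ⟨le_rfl, by omega⟩) (h3 r (by omega))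
      (fun i hi hi1 => by
        rw [Finset.mem_Ico] at hi
        refine V.smul_mem _ (mid _ ?_ ?_)
        · have : (k + 2) * 1 ≤ (k + 2) * (i - 1) := Nat.mul_le_mul_left _ (by omega)
          omega
        · have : (k + 2) * (i - 1) ≤ (k + 2) * k := Nat.mul_le_mul_left _ (by omega)
          have e1 : (k + 1) * (k + 2) = (k + 2) * k + k + 2 := by ring
          omega)
    have := mem_of_smul_mem hβ this
    simpa using this
  · rcases Nat.lt_or_ge r ((k + 1) * (k + 2)) with h' | h'
    · exact mid r h h'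
    · have := mem_of_sum_mem (j := k + 1) (Finset.mem_Ico.mpr ⟨by omega, by omega⟩)
        (h2 (r - (k + 1) * (k + 2)) (by omega))
        (fun i hi hi1 => by
          rw [Finset.mem_Ico] at hi
          refine V.smul_mem _ (mid _ ?_ ?_)
          · have : (k + 2) * 1 ≤ (k + 2) * i := Nat.mul_le_mul_left _ (by omega)
            omega
          · have : (k + 2) * i ≤ (k + 2) * k := Nat.mul_le_mul_left _ (by omega)
            have e1 : (k + 1) * (k + 2) = (k + 2) * k + k + 2 := by ring
            omega)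
      have := mem_of_smul_mem hα this
      rwa [show (k + 2) * (k + 1) + (r - (k + 1) * (k + 2)) = r by
        rw [mul_comm (k + 2) (k + 1)]; omega] at this

section FA

variable {R : Type*} [CommRing R]

/-- The Fermat-like form of case A. -/
noncomputable def FA (N : ℕ) (c : ℕ → R) : MvPolynomial (Fin (N + 1)) R :=
  ∑ i ∈ Finset.Ico 1 N,
    C (c i) * (X (vv N i) ^ N - X (vv N 0) ^ (N - i) * X (vv N N) ^ i)

theorem FA_hom (N : ℕ) (c : ℕ → R) : (FA N c).IsHomogeneous N := by
  refine IsHomogeneous.sum _ _ _ fun i hi => ?_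
  rw [Finset.mem_Ico] at hi
  refine IsHomogeneous.C_mul (IsHomogeneous.sub (isHomogeneous_X_pow _ _) ?_) _
  have := (isHomogeneous_X_pow (R := R) (vv N 0) (N - i)).mul
    (isHomogeneous_X_pow (R := R) (vv N N) i)
  rwa [Nat.sub_add_cancel (by omega)] at this

theorem aeval_FA {A : Type*} [CommRing A] [Algebra R A] (N : ℕ) (c : ℕ → R)
    (x : Fin (N + 1) → A) : aeval x (FA N c) = ∑ i ∈ Finset.Ico 1 N, algebraMap R A (c i) *
      (x (vv N i) ^ N - x (vv N 0) ^ (N - i) * x (vv N N) ^ i) := by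
  simp [FA]

theorem dir_FA {A : Type*} [CommRing A] [Algebra R A] (N : ℕ) (c : ℕ → R)
    (x w : Fin (N + 1) → A) : dir x w (FA N c) = ∑ i ∈ Finset.Ico 1 N, algebraMap R A (c i) *
      (N * x (vv N i) ^ (N - 1) * w (vv N i) -
        (((N - i : ℕ) : A) * x (vv N 0) ^ (N - i - 1) * w (vv N 0) * x (vv N N) ^ i +
          x (vv N 0) ^ (N - i) * (i * x (vv N N) ^ (i - 1) * w (vv N N)))) := by
  rw [FA, dir_sum]
  refine Finset.sum_congr rfl fun i _ => ?_
  simp only [dir_mul, dir_C, dir_sub, dir_pow, dir_X, aeval_X, map_sub, map_mul, map_pow,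
    aeval_C]
  ring

/-- Partial derivatives of `FA` in the middle. -/
theorem dir_FA_mid {A : Type*} [CommRing A] [Algebra R A] {N : ℕ} (c : ℕ → R)
    (x : Fin (N + 1) → A) {j : ℕ} (h1 : 1 ≤ j) (h2 : j < N) :
    dir x (Pi.single (vv N j) 1) (FA N c) =
      algebraMap R A (c j) * (N * x (vv N j) ^ (N - 1)) := by
  rw [dir_FA, Finset.sum_eq_single j]
  · rw [single_vv (by omega) (by omega), single_vv (by omega) (by omega),
      single_vv (by omega) (by omega), if_pos rfl, if_neg (by omega), if_neg (by omega)]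
    ring
  · intro i hi hij
    rw [Finset.mem_Ico] at hi
    rw [single_vv (by omega) (by omega), single_vv (by omega) (by omega),
      single_vv (by omega) (by omega), if_neg hij, if_neg (by omega), if_neg (by omega)]
    ring
  · intro h
    exact absurd (Finset.mem_Ico.mpr ⟨h1, h2⟩) h

theorem dir_FA_zero {A : Type*} [CommRing A] [Algebra R A] {N : ℕ} (hN : 1 ≤ N) (c : ℕ → R)
    (x : Fin (N + 1) → A) :
    dir x (Pi.single (vv N 0) 1) (FA N c) = ∑ i ∈ Finset.Ico 1 N, - (algebraMap R A (c i) *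
      ((N - i : ℕ) : A) * (x (vv N 0) ^ (N - i - 1) * x (vv N N) ^ i)) := by
  rw [dir_FA]
  refine Finset.sum_congr rfl fun i hi => ?_
  rw [Finset.mem_Ico] at hi
  rw [single_vv (by omega) (by omega), single_vv (by omega) (by omega),
      single_vv (by omega) (by omega), if_neg (by omega), if_pos rfl, if_neg (by omega)]
  ring

theorem dir_FA_last {A : Type*} [CommRing A] [Algebra R A] {N : ℕ} (hN : 1 ≤ N) (c : ℕ → R)
    (x : Fin (N + 1) → A) :
    dir x (Pi.single (vv N N) 1) (FA N c) = ∑ i ∈ Finset.Ico 1 N, - (algebraMap R A (c i) *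
      (i : A) * (x (vv N 0) ^ (N - i) * x (vv N N) ^ (i - 1))) := by
  rw [dir_FA]
  refine Finset.sum_congr rfl fun i hi => ?_
  rw [Finset.mem_Ico] at hi
  rw [single_vv (by omega) (by omega), single_vv (by omega) (by omega),
      single_vv (by omega) (by omega), if_neg (by omega), if_neg (by omega), if_pos rfl]
  ring

variable {K : Type*} [Field K] [Algebra R K]

theorem FA_rnc (N : ℕ) (c : ℕ → R) : aeval (rnc K N) (FA N c) = 0 := by
  rw [aeval_FA]
  refine Finset.sum_eq_zero fun i hi => ?_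
  rw [Finset.mem_Ico] at hi
  rw [rnc_vv (by omega), rnc_vv (by omega), rnc_vv le_rfl, Mon_pow (by omega),
    Mon_pow (by omega), Mon_pow le_rfl, Mon_mul (by omega) le_rfl]
  have e1 : (N - i) * N + i * N = N * N := by rw [← Nat.add_mul, Nat.sub_add_cancel (by omega)]
  rw [e1, Nat.mul_zero, Nat.zero_add, Nat.mul_comm i N, sub_self, mul_zero]

theorem Mon_row {N a b : ℕ} (hN : 2 ≤ N) (ha : a ≤ (N - 1) * N) (hb : b ≤ N - 2) :
    Mon K ((N - 1) * N) a * Mon K (N - 2) b = Mon K (N * N - 2) (a + b) := by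
  rw [Mon_mul ha hb]
  congr 1
  obtain ⟨k, rfl⟩ : ∃ k, N = k + 2 := ⟨N - 2, by omega⟩
  simp only [show k + 2 - 1 = k + 1 by omega, show k + 2 - 2 = k by omega]
  have : (k + 2) * (k + 2) = (k + 1) * (k + 2) + k + 2 := by ring
  omega

theorem FA_veryFree {N : ℕ} (hN : 2 ≤ N) (hN0 : (N : K) ≠ 0) (c : ℕ → R)
    (hc : ∀ i, 1 ≤ i → i < N → algebraMap R K (c i) ≠ 0) :
    IsVeryFree (FA N c) (N - 1) (rnc K N) := by
  refine rnc_isVeryFree hN (FA_hom N c) (FA_rnc N c) fun V hV _ => ?_
  refine chainA hN V (Mon K (N * N - 2)) (fun i => -(algebraMap R K (c i) * ((N - i : ℕ) : K)))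
    (fun i => -(algebraMap R K (c i) * (i : K))) ?_ ?_ ?_ ?_ ?_
  · rw [show N - (N - 1) = 1 by omega]
    simp only [Nat.cast_one, mul_one]
    exact neg_ne_zero.mpr (hc _ (by omega) (by omega))
  · simp only [Nat.cast_one, mul_one]
    exact neg_ne_zero.mpr (hc _ (by omega) (by omega))
  · intro i b hi1 hi2 hb
    have h := hV i (by omega) b hb
    rw [dir_FA_mid c _ hi1 (by omega), rnc_vv (by omega), Mon_pow (by omega)] at h
    have e : algebraMap R (MvPolynomial (Fin 2) K) (c i) * (N * Mon K ((N - 1) * N) ((N - 1) * i))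
        * Mon K (N - 2) b = (algebraMap R K (c i) * N) • Mon K (N * N - 2) ((N - 1) * i + b) := by
      rw [← Mon_row hN (Nat.mul_le_mul_left _ (by omega)) hb, smul_eq_C_mul,
        MvPolynomial.algebraMap_apply, C_mul, map_natCast]
      ring
    rw [e] at h
    exact mem_of_smul_mem (mul_ne_zero (hc i hi1 (by omega)) hN0) h
  · intro b hb
    have h := hV 0 (by omega) b hb
    rw [dir_FA_zero (by omega), Finset.sum_mul] at h
    convert h using 1
    refine Finset.sum_congr rfl fun i hi => ?_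
    rw [Finset.mem_Ico] at hi
    rw [rnc_vv (by omega), rnc_vv le_rfl, Mon_pow (by omega), Mon_pow le_rfl,
      Mon_mul (by omega) le_rfl]
    have e1 : (N - i - 1) * N + i * N = (N - 1) * N := by
      rw [← Nat.add_mul]; congr 1; omega
    rw [e1, Nat.mul_zero, Nat.zero_add, Nat.mul_comm N i,
      ← Mon_row hN (Nat.mul_le_mul_right _ (by omega)) hb, smul_eq_C_mul,
      MvPolynomial.algebraMap_apply, C_neg, C_mul, map_natCast]
    ring
  · intro b hb
    have h := hV N le_rfl b hb
    rw [dir_FA_last (by omega), Finset.sum_mul] at h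
    convert h using 1
    refine Finset.sum_congr rfl fun i hi => ?_
    rw [Finset.mem_Ico] at hi
    rw [rnc_vv (by omega), rnc_vv le_rfl, Mon_pow (by omega), Mon_pow le_rfl,
      Mon_mul (by omega) le_rfl]
    have e1 : (N - i) * N + (i - 1) * N = (N - 1) * N := by
      rw [← Nat.add_mul]; congr 1; omega
    rw [e1, Nat.mul_zero, Nat.zero_add, Nat.mul_comm N (i - 1),
      ← Mon_row hN (Nat.mul_le_mul_right _ (by omega)) hb, smul_eq_C_mul,
      MvPolynomial.algebraMap_apply, C_neg, C_mul, map_natCast]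
    ring

theorem FA_smooth {N : ℕ} (hN : 2 ≤ N) (hN0 : (N : K) ≠ 0) (c : ℕ → R)
    (hc : ∀ i, 1 ≤ i → i < N → algebraMap R K (c i) ≠ 0)
    (hB : ∀ z : K, z ≠ 0 → ∑ i ∈ Finset.Ico 1 N, algebraMap R K (c i) * z ^ i = 0 →
      ∑ i ∈ Finset.Ico 1 N, algebraMap R K (c i) * (i : K) * z ^ i = 0 → False) :
    IsSmooth K (FA N c) := by
  intro x hx h0
  by_contra hcon
  push Not at hcon
  have hp : ∀ j, dir x (Pi.single (vv N j) 1) (FA N c) = 0 := fun j => by
    rw [dir_single]; exact hcon _
  have hmid : ∀ j, 1 ≤ j → j < N → x (vv N j) = 0 := by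
    intro j h1 h2
    have h := hp j
    rw [dir_FA_mid c x h1 h2] at h
    have := (mul_eq_zero.mp ((mul_eq_zero.mp h).resolve_left (hc j h1 h2))).resolve_left hN0
    exact pow_eq_zero_iff (by omega) |>.mp this
  have hz := hp 0
  have hl := hp N
  rw [dir_FA_zero (by omega)] at hz
  rw [dir_FA_last (by omega)] at hl
  rw [aeval_FA] at h0
  have h0' : ∑ i ∈ Finset.Ico 1 N, algebraMap R K (c i) *
      (x (vv N 0) ^ (N - i) * x (vv N N) ^ i) = 0 := by
    have : ∑ i ∈ Finset.Ico 1 N, algebraMap R K (c i) *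
      (x (vv N 0) ^ (N - i) * x (vv N N) ^ i) = - ∑ i ∈ Finset.Ico 1 N, algebraMap R K (c i) *
      (x (vv N i) ^ N - x (vv N 0) ^ (N - i) * x (vv N N) ^ i) := by
      rw [← Finset.sum_neg_distrib]
      refine Finset.sum_congr rfl fun i hi => ?_
      rw [Finset.mem_Ico] at hi
      rw [hmid i hi.1 hi.2, zero_pow (by omega)]
      ring
    rw [this, h0, neg_zero]
  -- it suffices that both end coordinates vanish
  have hend : x (vv N 0) = 0 → x (vv N N) = 0 → False := by
    intro h1 h2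
    apply hx
    funext i
    rw [← vv_surj i]
    rcases Nat.eq_zero_or_pos (i : ℕ) with h | h
    · rw [h, h1]; rfl
    · rcases Nat.lt_or_ge (i : ℕ) N with h' | h'
      · rw [hmid _ h h']; rfl
      · rw [show (i : ℕ) = N by omega, h2]; rfl
  by_cases hx0 : x (vv N 0) = 0
  · refine hend hx0 ?_
    rw [Finset.sum_eq_single (N - 1)] at hz
    · rw [show N - (N - 1) - 1 = 0 by omega, show N - (N - 1) = 1 by omega, pow_zero,
        Nat.cast_one, mul_one, one_mul, neg_eq_zero] at hz
      have := (mul_eq_zero.mp hz).resolve_left (hc _ (by omega) (by omega))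
      exact pow_eq_zero_iff (by omega) |>.mp this
    · intro i hi hi1
      rw [Finset.mem_Ico] at hi
      rw [hx0, zero_pow (by omega)]
      ring
    · intro h
      exact absurd (Finset.mem_Ico.mpr ⟨by omega, by omega⟩) h
  by_cases hxN : x (vv N N) = 0
  · refine hend ?_ hxN
    rw [Finset.sum_eq_single 1] at hl
    · rw [show 1 - 1 = 0 by omega, pow_zero,
        Nat.cast_one, mul_one, mul_one, neg_eq_zero] at hl
      have := (mul_eq_zero.mp hl).resolve_left (hc _ (by omega) (by omega))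
      exact pow_eq_zero_iff (by omega) |>.mp this
    · intro i hi hi1
      rw [Finset.mem_Ico] at hi
      rw [hxN, zero_pow (by omega)]
      ring
    · intro h
      exact absurd (Finset.mem_Ico.mpr ⟨by omega, by omega⟩) h
  -- both non-zero
  set z := x (vv N N) / x (vv N 0) with hzdef
  have hz0 : z ≠ 0 := div_ne_zero hxN hx0
  have hy : x (vv N N) = z * x (vv N 0) := by rw [hzdef]; field_simp
  have key : ∀ i ∈ Finset.Ico 1 N, x (vv N 0) ^ (N - i) * x (vv N N) ^ i =
      x (vv N 0) ^ N * z ^ i := by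
    intro i hi
    rw [Finset.mem_Ico] at hi
    rw [hy, mul_pow]
    have : x (vv N 0) ^ N = x (vv N 0) ^ (N - i) * x (vv N 0) ^ i := by
      rw [← pow_add, Nat.sub_add_cancel (by omega)]
    rw [this]; ring
  refine hB z hz0 ?_ ?_
  · have : x (vv N 0) ^ N * ∑ i ∈ Finset.Ico 1 N, algebraMap R K (c i) * z ^ i = 0 := by
      rw [← h0', Finset.mul_sum]
      refine Finset.sum_congr rfl fun i hi => ?_
      rw [key i hi]; ring
    exact (mul_eq_zero.mp this).resolve_left (pow_ne_zero _ hx0)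
  · have : x (vv N 0) ^ N * ∑ i ∈ Finset.Ico 1 N, algebraMap R K (c i) * (i : K) * z ^ i = 0 := by
      have e : x (vv N N) * (- ∑ i ∈ Finset.Ico 1 N, - (algebraMap R K (c i) *
      (i : K) * (x (vv N 0) ^ (N - i) * x (vv N N) ^ (i - 1)))) = 0 := by
        rw [hl]; ring
      rw [← e, ← Finset.sum_neg_distrib, Finset.mul_sum, Finset.mul_sum]
      refine Finset.sum_congr rfl fun i hi => ?_
      have hk := key i hi
      rw [Finset.mem_Ico] at hi
      obtain ⟨m, rfl⟩ : ∃ m, i = m + 1 := ⟨i - 1, by omega⟩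
      rw [Nat.add_sub_cancel]
      rw [pow_succ (x (vv N N)) m] at hk
      linear_combination (- (algebraMap R K (c (m + 1)) * ((m + 1 : ℕ) : K))) * hk
    exact (mul_eq_zero.mp this).resolve_left (pow_ne_zero _ hx0)

/-- The summation identity behind the smoothness of `FA`. -/
theorem sum_ident (z : K) (m : ℕ) :
    (z - 1) * ∑ i ∈ Finset.Ico 1 (m + 1), (i : K) * z ^ i =
      m * z ^ (m + 1) - ∑ i ∈ Finset.Ico 1 (m + 1), z ^ i := by
  induction m with
  | zero => simp
  | succ m ih =>
    rw [Finset.sum_Ico_succ_top (show 1 ≤ m + 1 by omega) (fun i => (i : K) * z ^ i),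
      Finset.sum_Ico_succ_top (show 1 ≤ m + 1 by omega) (fun i => z ^ i), mul_add, ih]
    push_cast
    ring

end FA

/-- Case A: smooth and very free, degree `N` prime to `p`, `p` odd. -/
theorem caseA {p : ℕ} [Fact p.Prime] {K : Type*} [Field K] [Algebra (ZMod p) K] {N : ℕ}
    (hN : 2 ≤ N) (hp : p ≠ 2) (hpN : ¬ p ∣ N) :
    ∃ F : MvPolynomial (Fin (N + 1)) (ZMod p), F.IsHomogeneous N ∧ IsSmooth K F ∧
      IsRationalCurve F (N - 1) (rnc K N) ∧ IsVeryFree F (N - 1) (rnc K N) := by
  have : CharP K p := charP_of_injective_algebraMap (algebraMap (ZMod p) K).injective p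
  have hpr : p.Prime := Fact.out
  have hN0 : (N : K) ≠ 0 := fun h => hpN ((CharP.cast_eq_zero_iff K p N).mp h)
  have h2 : (2 : K) ≠ 0 := by
    intro h
    have : ((2 : ℕ) : K) = 0 := by exact_mod_cast h
    have := (CharP.cast_eq_zero_iff K p 2).mp this
    exact hp ((Nat.prime_dvd_prime_iff_eq hpr Nat.prime_two).mp this)
  by_cases hN1 : p ∣ N - 1
  · have hN1' : (N : K) = 1 := by
      have : ((N - 1 : ℕ) : K) = 0 := (CharP.cast_eq_zero_iff K p _).mpr hN1
      rw [Nat.cast_sub (by omega)] at this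
      rw [sub_eq_zero] at this
      simpa using this
    set c : ℕ → ZMod p := fun i => if i = N - 1 then 2 else 1 with hc
    have hcK : ∀ i, algebraMap (ZMod p) K (c i) = if i = N - 1 then 2 else 1 := by
      intro i
      show algebraMap (ZMod p) K (if i = N - 1 then 2 else 1) = _
      split_ifs
      · exact map_ofNat _ 2
      · exact map_one _
    have hc0 : ∀ i, 1 ≤ i → i < N → algebraMap (ZMod p) K (c i) ≠ 0 := by
      intro i _ _
      rw [hcK]; split_ifs
      · exact h2
      · exact one_ne_zero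
    refine ⟨FA N c, FA_hom N c, FA_smooth hN hN0 c hc0 ?_,
      rnc_isRationalCurve (by omega) (FA_rnc N c), FA_veryFree hN hN0 c hc0⟩
    intro z hz hs1 hs2
    obtain ⟨m, rfl⟩ : ∃ m, N = m + 1 := ⟨N - 1, by omega⟩
    have hm : (m : K) = 0 := by
      push_cast at hN1'
      linear_combination hN1'
    have id := sum_ident z m
    have e1 : ∑ i ∈ Finset.Ico 1 (m + 1), algebraMap (ZMod p) K (c i) * z ^ i =
        (∑ i ∈ Finset.Ico 1 (m + 1), z ^ i) + z ^ m := by
      have : ∀ i ∈ Finset.Ico 1 (m + 1), algebraMap (ZMod p) K (c i) * z ^ i =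
          z ^ i + if i = m then z ^ m else 0 := by
        intro i _
        rw [hcK, Nat.add_sub_cancel]
        split_ifs with h
        · rw [h]; ring
        · ring
      rw [Finset.sum_congr rfl this, Finset.sum_add_distrib, Finset.sum_ite_eq',
        if_pos (Finset.mem_Ico.mpr ⟨by omega, by omega⟩)]
    have e2 : ∑ i ∈ Finset.Ico 1 (m + 1), algebraMap (ZMod p) K (c i) * (i : K) * z ^ i =
        ∑ i ∈ Finset.Ico 1 (m + 1), (i : K) * z ^ i := by
      refine Finset.sum_congr rfl fun i _ => ?_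
      rw [hcK, Nat.add_sub_cancel]
      split_ifs with h
      · rw [h, hm]; ring
      · ring
    rw [e1] at hs1
    rw [e2] at hs2
    rw [hs2, hm] at id
    have : z ^ m = 0 := by linear_combination hs1 - id
    exact pow_ne_zero _ hz this
  · have hN1' : (N : K) - 1 ≠ 0 := by
      intro h
      apply hN1
      apply (CharP.cast_eq_zero_iff K p _).mp
      rw [Nat.cast_sub (by omega)]
      simpa using h
    refine ⟨FA N (fun _ => 1), FA_hom N _, FA_smooth hN hN0 _ (by simp) ?_,
      rnc_isRationalCurve (by omega) (FA_rnc N _), FA_veryFree hN hN0 _ (by simp)⟩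
    intro z hz hs1 hs2
    simp only [map_one, one_mul] at hs1 hs2
    obtain ⟨m, rfl⟩ : ∃ m, N = m + 1 := ⟨N - 1, by omega⟩
    have id := sum_ident z m
    rw [hs1, hs2] at id
    have hm : (m : K) ≠ 0 := by
      intro h; apply hN1'; push_cast; rw [h]; ring
    have : (m : K) * z ^ (m + 1) = 0 := by linear_combination -id
    exact (mul_ne_zero hm (pow_ne_zero _ hz)) this

end Pool.Agent.H29.Fano
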