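import Pool.Agent.H29.Fano.CaseA

/-!
Characteristic two, odd degree `N = 2 * m + 3`.
-/

open MvPolynomial

set_option linter.unusedSectionVars false

namespace Pool.Agent.H29.Fano

section FB

variable (R : Type*) [CommRing R]

/-- The form of case B, of degree `2 * m + 3`. -/
noncomputable def FB (m : ℕ) : MvPolynomial (Fin (2 * m + 3 + 1)) R :=
  X (vv (2 * m + 3) 1) ^ (2 * m + 3) + X (vv (2 * m + 3) (2 * m + 2)) ^ (2 * m + 3)
  + X (vv (2 * m + 3) 0) ^ (2 * m + 2) * X (vv (2 * m + 3) (2 * m + 3))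
  + X (vv (2 * m + 3) 0) * X (vv (2 * m + 3) (2 * m + 3)) ^ (2 * m + 2)
  + ∑ k ∈ Finset.range m,
    (X (vv (2 * m + 3) (2 * k + 2)) ^ (2 * m + 2) * X (vv (2 * m + 3) (2 * k + 3))
    + X (vv (2 * m + 3) (2 * k + 3)) ^ (2 * m + 2) * X (vv (2 * m + 3) (2 * k + 2))
    + (X (vv (2 * m + 3) 1) + X (vv (2 * m + 3) (2 * m + 2)))
      * (X (vv (2 * m + 3) 0) ^ (2 * (m - k)) * X (vv (2 * m + 3) (2 * m + 3)) ^ (2 * k + 2)))

variable {R}

theorem FB_hom (m : ℕ) : (FB R m).IsHomogeneous (2 * m + 3) := by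
  have hX : ∀ (i j : ℕ), (X (vv (2 * m + 3) i) ^ j : MvPolynomial (Fin (2 * m + 3 + 1)) R).IsHomogeneous j :=
    fun i j => isHomogeneous_X_pow _ _
  have hX1 : ∀ (i : ℕ), (X (vv (2 * m + 3) i) : MvPolynomial (Fin (2 * m + 3 + 1)) R).IsHomogeneous 1 :=
    fun i => isHomogeneous_X _ _
  refine ((((hX _ _).add (hX _ _)).add ((hX _ _).mul (hX1 _))).add ?_).add
    (IsHomogeneous.sum _ _ _ fun k hk => ?_)
  · have := (hX1 0).mul (hX (2 * m + 3) (2 * m + 2))
    rwa [show 1 + (2 * m + 2) = 2 * m + 3 by omega] at this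
  · rw [Finset.mem_range] at hk
    refine (((hX _ _).mul (hX1 _)).add ((hX _ _).mul (hX1 _))).add ?_
    have := ((hX1 1).add (hX1 (2 * m + 2))).mul ((hX 0 (2 * (m - k))).mul (hX (2 * m + 3) (2 * k + 2)))
    rwa [show 1 + (2 * (m - k) + (2 * k + 2)) = 2 * m + 3 by omega] at this

theorem aeval_FB {A : Type*} [CommRing A] [Algebra R A] (m : ℕ)
    (x : Fin (2 * m + 3 + 1) → A) : aeval x (FB R m) =
  x (vv (2 * m + 3) 1) ^ (2 * m + 3) + x (vv (2 * m + 3) (2 * m + 2)) ^ (2 * m + 3)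
  + x (vv (2 * m + 3) 0) ^ (2 * m + 2) * x (vv (2 * m + 3) (2 * m + 3))
  + x (vv (2 * m + 3) 0) * x (vv (2 * m + 3) (2 * m + 3)) ^ (2 * m + 2)
  + ∑ k ∈ Finset.range m,
    (x (vv (2 * m + 3) (2 * k + 2)) ^ (2 * m + 2) * x (vv (2 * m + 3) (2 * k + 3))
    + x (vv (2 * m + 3) (2 * k + 3)) ^ (2 * m + 2) * x (vv (2 * m + 3) (2 * k + 2))
    + (x (vv (2 * m + 3) 1) + x (vv (2 * m + 3) (2 * m + 2)))
      * (x (vv (2 * m + 3) 0) ^ (2 * (m - k)) * x (vv (2 * m + 3) (2 * m + 3)) ^ (2 * k + 2))) := by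
  simp [FB]

theorem dir_FB {A : Type*} [CommRing A] [Algebra R A] (h2 : (2 : A) = 0) (m : ℕ)
    (x w : Fin (2 * m + 3 + 1) → A) : dir x w (FB R m) =
  x (vv (2 * m + 3) 1) ^ (2 * m + 2) * w (vv (2 * m + 3) 1)
  + x (vv (2 * m + 3) (2 * m + 2)) ^ (2 * m + 2) * w (vv (2 * m + 3) (2 * m + 2))
  + x (vv (2 * m + 3) 0) ^ (2 * m + 2) * w (vv (2 * m + 3) (2 * m + 3))
  + w (vv (2 * m + 3) 0) * x (vv (2 * m + 3) (2 * m + 3)) ^ (2 * m + 2)
  + ∑ k ∈ Finset.range m,
    (x (vv (2 * m + 3) (2 * k + 2)) ^ (2 * m + 2) * w (vv (2 * m + 3) (2 * k + 3))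
    + x (vv (2 * m + 3) (2 * k + 3)) ^ (2 * m + 2) * w (vv (2 * m + 3) (2 * k + 2))
    + (w (vv (2 * m + 3) 1) + w (vv (2 * m + 3) (2 * m + 2)))
      * (x (vv (2 * m + 3) 0) ^ (2 * (m - k)) * x (vv (2 * m + 3) (2 * m + 3)) ^ (2 * k + 2))) := by
  simp only [FB, dir_sum, dir_mul, dir_add, dir_pow, dir_X, aeval_X, map_add, map_mul, map_pow]
  have e1 : ((2 * m + 3 : ℕ) : A) = 1 := by push_cast; linear_combination (m + 1) * h2
  have e2 : ((2 * m + 2 : ℕ) : A) = 0 := by push_cast; linear_combination (m + 1) * h2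
  have e3 : ∀ k : ℕ, ((2 * k + 2 : ℕ) : A) = 0 := by
    intro k; push_cast; linear_combination (k + 1) * h2
  have e4 : ∀ k : ℕ, ((2 * (m - k) : ℕ) : A) = 0 := by
    intro k; rw [Nat.cast_mul, Nat.cast_ofNat, h2, zero_mul]
  rw [e1, e2]
  rw [show 2 * m + 3 - 1 = 2 * m + 2 by omega]
  simp only [e3, e4, zero_mul, mul_zero, zero_add, add_zero, one_mul]

section partials

variable {A : Type*} [CommRing A] [Algebra R A] (h2 : (2 : A) = 0) (m : ℕ)
    (x : Fin (2 * m + 3 + 1) → A)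

include h2

theorem dFB_zero : dir x (Pi.single (vv (2 * m + 3) 0) 1) (FB R m) =
    x (vv (2 * m + 3) (2 * m + 3)) ^ (2 * m + 2) := by
  rw [dir_FB h2, single_vv (by omega) (by omega), single_vv (by omega) (by omega),
    single_vv (by omega) (by omega), single_vv (by omega) (by omega), if_neg (by omega),
    if_neg (by omega), if_neg (by omega), if_pos rfl, Finset.sum_eq_zero]
  · ring
  · intro k hk
    rw [Finset.mem_range] at hk
    rw [single_vv (by omega) (by omega), single_vv (by omega) (by omega), if_neg (by omega),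
      if_neg (by omega)]
    ring

theorem dFB_last : dir x (Pi.single (vv (2 * m + 3) (2 * m + 3)) 1) (FB R m) =
    x (vv (2 * m + 3) 0) ^ (2 * m + 2) := by
  rw [dir_FB h2, single_vv (by omega) (by omega), single_vv (by omega) (by omega),
    single_vv (by omega) (by omega), single_vv (by omega) (by omega), if_neg (by omega),
    if_neg (by omega), if_pos rfl, if_neg (by omega), Finset.sum_eq_zero]
  · ring
  · intro k hk
    rw [Finset.mem_range] at hk
    rw [single_vv (by omega) (by omega), single_vv (by omega) (by omega), if_neg (by omega),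
      if_neg (by omega)]
    ring

theorem dFB_one : dir x (Pi.single (vv (2 * m + 3) 1) 1) (FB R m) =
    x (vv (2 * m + 3) 1) ^ (2 * m + 2) + ∑ k ∈ Finset.range m,
      x (vv (2 * m + 3) 0) ^ (2 * (m - k)) * x (vv (2 * m + 3) (2 * m + 3)) ^ (2 * k + 2) := by
  rw [dir_FB h2, single_vv (by omega) (by omega), single_vv (by omega) (by omega),
    single_vv (by omega) (by omega), single_vv (by omega) (by omega), if_pos rfl,
    if_neg (by omega), if_neg (by omega), if_neg (by omega)]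
  have : ∀ k ∈ Finset.range m, (x (vv (2 * m + 3) (2 * k + 2)) ^ (2 * m + 2) *
      (Pi.single (vv (2 * m + 3) 1) (1 : A) : Fin (2 * m + 3 + 1) → A) (vv (2 * m + 3) (2 * k + 3))
    + x (vv (2 * m + 3) (2 * k + 3)) ^ (2 * m + 2) *
      (Pi.single (vv (2 * m + 3) 1) (1 : A) : Fin (2 * m + 3 + 1) → A) (vv (2 * m + 3) (2 * k + 2))
    + ((1 : A) + 0)
      * (x (vv (2 * m + 3) 0) ^ (2 * (m - k)) * x (vv (2 * m + 3) (2 * m + 3)) ^ (2 * k + 2)))
      = x (vv (2 * m + 3) 0) ^ (2 * (m - k)) * x (vv (2 * m + 3) (2 * m + 3)) ^ (2 * k + 2) := by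
    intro k hk
    rw [Finset.mem_range] at hk
    rw [single_vv (by omega) (by omega), single_vv (by omega) (by omega), if_neg (by omega),
      if_neg (by omega)]
    ring
  rw [Finset.sum_congr rfl this]
  ring

theorem dFB_one' : dir x (Pi.single (vv (2 * m + 3) (2 * m + 2)) 1) (FB R m) =
    x (vv (2 * m + 3) (2 * m + 2)) ^ (2 * m + 2) + ∑ k ∈ Finset.range m,
      x (vv (2 * m + 3) 0) ^ (2 * (m - k)) * x (vv (2 * m + 3) (2 * m + 3)) ^ (2 * k + 2) := by
  rw [dir_FB h2, single_vv (by omega) (by omega), single_vv (by omega) (by omega),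
    single_vv (by omega) (by omega), single_vv (by omega) (by omega), if_neg (by omega),
    if_pos rfl, if_neg (by omega), if_neg (by omega)]
  have : ∀ k ∈ Finset.range m, (x (vv (2 * m + 3) (2 * k + 2)) ^ (2 * m + 2) *
      (Pi.single (vv (2 * m + 3) (2 * m + 2)) (1 : A) : Fin (2 * m + 3 + 1) → A) (vv (2 * m + 3) (2 * k + 3))
    + x (vv (2 * m + 3) (2 * k + 3)) ^ (2 * m + 2) *
      (Pi.single (vv (2 * m + 3) (2 * m + 2)) (1 : A) : Fin (2 * m + 3 + 1) → A) (vv (2 * m + 3) (2 * k + 2))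
    + ((0 : A) + 1)
      * (x (vv (2 * m + 3) 0) ^ (2 * (m - k)) * x (vv (2 * m + 3) (2 * m + 3)) ^ (2 * k + 2)))
      = x (vv (2 * m + 3) 0) ^ (2 * (m - k)) * x (vv (2 * m + 3) (2 * m + 3)) ^ (2 * k + 2) := by
    intro k hk
    rw [Finset.mem_range] at hk
    rw [single_vv (by omega) (by omega), single_vv (by omega) (by omega), if_neg (by omega),
      if_neg (by omega)]
    ring
  rw [Finset.sum_congr rfl this]
  ring

theorem dFB_even {l : ℕ} (hl : l < m) :
    dir x (Pi.single (vv (2 * m + 3) (2 * l + 2)) 1) (FB R m) =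
    x (vv (2 * m + 3) (2 * l + 3)) ^ (2 * m + 2) := by
  rw [dir_FB h2, single_vv (by omega) (by omega), single_vv (by omega) (by omega),
    single_vv (by omega) (by omega), single_vv (by omega) (by omega), if_neg (by omega),
    if_neg (by omega), if_neg (by omega), if_neg (by omega), Finset.sum_eq_single l]
  · rw [single_vv (by omega) (by omega), single_vv (by omega) (by omega), if_neg (by omega),
      if_pos rfl]
    ring
  · intro k hk hkl
    rw [Finset.mem_range] at hk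
    rw [single_vv (by omega) (by omega), single_vv (by omega) (by omega), if_neg (by omega),
      if_neg (by omega)]
    ring
  · intro h
    exact absurd (Finset.mem_range.mpr hl) h

theorem dFB_odd {l : ℕ} (hl : l < m) :
    dir x (Pi.single (vv (2 * m + 3) (2 * l + 3)) 1) (FB R m) =
    x (vv (2 * m + 3) (2 * l + 2)) ^ (2 * m + 2) := by
  rw [dir_FB h2, single_vv (by omega) (by omega), single_vv (by omega) (by omega),
    single_vv (by omega) (by omega), single_vv (by omega) (by omega), if_neg (by omega),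
    if_neg (by omega), if_neg (by omega), if_neg (by omega), Finset.sum_eq_single l]
  · rw [single_vv (by omega) (by omega), single_vv (by omega) (by omega), if_pos rfl,
      if_neg (by omega)]
    ring
  · intro k hk hkl
    rw [Finset.mem_range] at hk
    rw [single_vv (by omega) (by omega), single_vv (by omega) (by omega), if_neg (by omega),
      if_neg (by omega)]
    ring
  · intro h
    exact absurd (Finset.mem_range.mpr hl) h

end partials

variable {K : Type*} [Field K] [Algebra R K]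

theorem FB_smooth (h2 : (2 : K) = 0) (m : ℕ) : IsSmooth K (FB R m) := by
  intro x hx h0
  by_contra hcon
  push Not at hcon
  have hp : ∀ j, dir x (Pi.single (vv (2 * m + 3) j) 1) (FB R m) = 0 := fun j => by
    rw [dir_single]; exact hcon _
  have hN : x (vv (2 * m + 3) (2 * m + 3)) = 0 := by
    have := hp 0
    rw [dFB_zero h2] at this
    exact pow_eq_zero_iff (by omega) |>.mp this
  have h00 : x (vv (2 * m + 3) 0) = 0 := by
    have := hp (2 * m + 3)
    rw [dFB_last h2] at this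
    exact pow_eq_zero_iff (by omega) |>.mp this
  have hβ : ∑ k ∈ Finset.range m, x (vv (2 * m + 3) 0) ^ (2 * (m - k)) *
      x (vv (2 * m + 3) (2 * m + 3)) ^ (2 * k + 2) = 0 := by
    refine Finset.sum_eq_zero fun k _ => ?_
    rw [hN, zero_pow (by omega), mul_zero]
  have h1 : x (vv (2 * m + 3) 1) = 0 := by
    have := hp 1
    rw [dFB_one h2, hβ, add_zero] at this
    exact pow_eq_zero_iff (by omega) |>.mp this
  have h1' : x (vv (2 * m + 3) (2 * m + 2)) = 0 := by
    have := hp (2 * m + 2)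
    rw [dFB_one' h2, hβ, add_zero] at this
    exact pow_eq_zero_iff (by omega) |>.mp this
  have he : ∀ l, l < m → x (vv (2 * m + 3) (2 * l + 2)) = 0 := by
    intro l hl
    have := hp (2 * l + 3)
    rw [dFB_odd h2 _ _ hl] at this
    exact pow_eq_zero_iff (by omega) |>.mp this
  have ho : ∀ l, l < m → x (vv (2 * m + 3) (2 * l + 3)) = 0 := by
    intro l hl
    have := hp (2 * l + 2)
    rw [dFB_even h2 _ _ hl] at this
    exact pow_eq_zero_iff (by omega) |>.mp this
  apply hx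
  funext i
  rw [← vv_surj i]
  have hi := i.isLt
  rcases Nat.lt_or_ge (i : ℕ) 2 with h | h
  · rcases Nat.eq_zero_or_pos (i : ℕ) with h' | h'
    · rw [h', h00]; rfl
    · rw [show (i : ℕ) = 1 by omega, h1]; rfl
  · rcases Nat.lt_or_ge (i : ℕ) (2 * m + 2) with h' | h'
    · rcases Nat.even_or_odd' (i : ℕ) with ⟨l, hl | hl⟩
      · have := he (l - 1) (by omega)
        rw [show 2 * (l - 1) + 2 = (i : ℕ) by omega] at this
        rw [this]; rfl
      · have := ho (l - 1) (by omega)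
        rw [show 2 * (l - 1) + 3 = (i : ℕ) by omega] at this
        rw [this]; rfl
    · rcases Nat.lt_or_ge (i : ℕ) (2 * m + 3) with h'' | h''
      · rw [show (i : ℕ) = 2 * m + 2 by omega, h1']; rfl
      · rw [show (i : ℕ) = 2 * m + 3 by omega, hN]; rfl

theorem FB_rnc (h2 : (2 : K) = 0) (m : ℕ) : aeval (rnc K (2 * m + 3)) (FB R m) = 0 := by
  have h2' : (2 : MvPolynomial (Fin 2) K) = 0 := by
    have : (C (2 : K) : MvPolynomial (Fin 2) K) = 2 := map_ofNat _ 2
    rw [← this, h2, C_0]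
  rw [aeval_FB]
  have e : ∀ k ∈ Finset.range m,
    (rnc K (2 * m + 3) (vv (2 * m + 3) (2 * k + 2)) ^ (2 * m + 2) *
      rnc K (2 * m + 3) (vv (2 * m + 3) (2 * k + 3))
    + rnc K (2 * m + 3) (vv (2 * m + 3) (2 * k + 3)) ^ (2 * m + 2) *
      rnc K (2 * m + 3) (vv (2 * m + 3) (2 * k + 2))
    + (rnc K (2 * m + 3) (vv (2 * m + 3) 1) + rnc K (2 * m + 3) (vv (2 * m + 3) (2 * m + 2)))
      * (rnc K (2 * m + 3) (vv (2 * m + 3) 0) ^ (2 * (m - k)) *
        rnc K (2 * m + 3) (vv (2 * m + 3) (2 * m + 3)) ^ (2 * k + 2))) = 0 := by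
    intro k hk
    rw [Finset.mem_range] at hk
    rw [rnc_vv (by omega), rnc_vv (by omega), rnc_vv (by omega), rnc_vv (by omega),
      rnc_vv (by omega), rnc_vv (by omega), Mon_pow (by omega), Mon_pow (by omega),
      Mon_pow (by omega), Mon_pow (by omega)]
    rw [Mon_mul (Nat.mul_le_mul_left _ (by omega)) (by omega),
      Mon_mul (Nat.mul_le_mul_left _ (by omega)) (by omega),
      Mon_mul (Nat.mul_le_mul_left _ (by omega)) (by omega),
      add_mul (Mon K (2 * m + 3) 1) (Mon K (2 * m + 3) (2 * m + 2))]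
    have hd : 2 * (m - k) * (2 * m + 3) + (2 * k + 2) * (2 * m + 3) =
        (2 * m + 2) * (2 * m + 3) := by
      rw [← Nat.add_mul]; congr 1; omega
    rw [hd, Nat.mul_zero, Nat.zero_add]
    have hle : (2 * k + 2) * (2 * m + 3) ≤ (2 * m + 2) * (2 * m + 3) :=
      Nat.mul_le_mul_right _ (by omega)
    rw [Mon_mul (by omega) hle, Mon_mul (by omega) hle]
    rw [show (2 * m + 3) + (2 * m + 2) * (2 * m + 3) = (2 * m + 2) * (2 * m + 3) + (2 * m + 3)
      by ring]
    rw [show 1 + (2 * k + 2) * (2 * m + 3) = (2 * m + 2) * (2 * k + 2) + (2 * k + 3) by ring,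
      show 2 * m + 2 + (2 * k + 2) * (2 * m + 3) = (2 * m + 2) * (2 * k + 3) + (2 * k + 2)
        by ring]
    linear_combination (Mon K ((2 * m + 2) * (2 * m + 3) + (2 * m + 3))
      ((2 * m + 2) * (2 * k + 2) + (2 * k + 3)) + Mon K ((2 * m + 2) * (2 * m + 3) + (2 * m + 3))
      ((2 * m + 2) * (2 * k + 3) + (2 * k + 2))) * h2'
  rw [Finset.sum_eq_zero e, add_zero, rnc_vv (by omega), rnc_vv (by omega), rnc_vv (by omega),
    rnc_vv (by omega), Mon_pow (by omega), Mon_pow (by omega), Mon_pow (by omega),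
    Mon_pow (by omega), Mon_mul (Nat.mul_le_mul_left _ (by omega)) (by omega),
    Mon_mul (by omega) (Nat.mul_le_mul_left _ (by omega))]
  rw [show (2 * m + 3) * (2 * m + 3) = (2 * m + 2) * (2 * m + 3) + (2 * m + 3) by ring,
    show (2 * m + 3) * 1 = (2 * m + 2) * 0 + (2 * m + 3) by ring,
    show (2 * m + 3) + (2 * m + 2) * (2 * m + 3) = (2 * m + 2) * (2 * m + 3) + (2 * m + 3)
      by ring,
    show (2 * m + 3) * (2 * m + 2) = 0 + (2 * m + 2) * (2 * m + 3) by ring]
  linear_combination (Mon K ((2 * m + 2) * (2 * m + 3) + (2 * m + 3))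
    ((2 * m + 2) * 0 + (2 * m + 3)) + Mon K ((2 * m + 2) * (2 * m + 3) + (2 * m + 3))
      (0 + (2 * m + 2) * (2 * m + 3))) * h2'

theorem chainB {E : Type*} [AddCommGroup E] [Module K E] (m : ℕ)
    (V : Submodule K E) (M : ℕ → E)
    (h0 : ∀ b, b ≤ 2 * m + 1 → M b ∈ V)
    (hN : ∀ b, b ≤ 2 * m + 1 → M ((2 * m + 2) * (2 * m + 3) + b) ∈ V)
    (hmid : ∀ i b, 2 ≤ i → i ≤ 2 * m + 1 → b ≤ 2 * m + 1 → M ((2 * m + 2) * i + b) ∈ V)
    (h1 : ∀ b, b ≤ 2 * m + 1 → M ((2 * m + 2) + b) + ∑ k ∈ Finset.range m,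
      M ((2 * k + 2) * (2 * m + 3) + b) ∈ V)
    (h1' : ∀ b, b ≤ 2 * m + 1 → M ((2 * m + 2) * (2 * m + 2) + b) + ∑ k ∈ Finset.range m,
      M ((2 * k + 2) * (2 * m + 3) + b) ∈ V) :
    ∀ r, r ≤ (2 * m + 3) * (2 * m + 3) - 2 → M r ∈ V := by
  have mid : ∀ r, 2 * (2 * m + 2) ≤ r → r < (2 * m + 2) * (2 * m + 2) → M r ∈ V := by
    intro r hr1 hr2
    have e := Nat.div_add_mod r (2 * m + 2)
    rw [← e]
    refine hmid _ _ ?_ ?_ ?_
    · exact (Nat.le_div_iff_mul_le (by omega)).mpr hr1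
    · have : r / (2 * m + 2) < 2 * m + 2 := (Nat.div_lt_iff_lt_mul (by omega)).mpr hr2
      omega
    · have := Nat.mod_lt r (show 0 < 2 * m + 2 by omega)
      omega
  have hβ : ∀ b, b ≤ 2 * m + 1 → ∑ k ∈ Finset.range m, M ((2 * k + 2) * (2 * m + 3) + b) ∈ V := by
    intro b hb
    refine Submodule.sum_mem _ fun k hk => mid _ ?_ ?_
    · have : 2 * (2 * m + 3) ≤ (2 * k + 2) * (2 * m + 3) := Nat.mul_le_mul_right _ (by omega)
      omega
    · rw [Finset.mem_range] at hk
      have : (2 * k + 2) * (2 * m + 3) ≤ (2 * m) * (2 * m + 3) := Nat.mul_le_mul_right _ (by omega)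
      have e : (2 * m + 2) * (2 * m + 2) = (2 * m) * (2 * m + 3) + 2 * m + 4 := by ring
      omega
  have k1 : ∀ b, b ≤ 2 * m + 1 → M ((2 * m + 2) + b) ∈ V := fun b hb => by
    have := V.sub_mem (h1 b hb) (hβ b hb)
    rwa [add_sub_cancel_right] at this
  have k1' : ∀ b, b ≤ 2 * m + 1 → M ((2 * m + 2) * (2 * m + 2) + b) ∈ V := fun b hb => by
    have := V.sub_mem (h1' b hb) (hβ b hb)
    rwa [add_sub_cancel_right] at this
  intro r hr
  have e0 : (2 * m + 3) * (2 * m + 3) - 2 = (2 * m + 2) * (2 * m + 3) + (2 * m + 1) := by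
    have : (2 * m + 3) * (2 * m + 3) = (2 * m + 2) * (2 * m + 3) + (2 * m + 3) := by ring
    omega
  rw [e0] at hr
  rcases Nat.lt_or_ge r (2 * m + 2) with h | h
  · exact h0 r (by omega)
  rcases Nat.lt_or_ge r (2 * (2 * m + 2)) with h' | h'
  · have := k1 (r - (2 * m + 2)) (by omega)
    rwa [show 2 * m + 2 + (r - (2 * m + 2)) = r by omega] at this
  rcases Nat.lt_or_ge r ((2 * m + 2) * (2 * m + 2)) with h'' | h''
  · exact mid r h' h''
  have e1 : (2 * m + 2) * (2 * m + 3) = (2 * m + 2) * (2 * m + 2) + (2 * m + 2) := by ring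
  rcases Nat.lt_or_ge r ((2 * m + 2) * (2 * m + 3)) with h3 | h3
  · have := k1' (r - (2 * m + 2) * (2 * m + 2)) (by omega)
    rwa [show (2 * m + 2) * (2 * m + 2) + (r - (2 * m + 2) * (2 * m + 2)) = r by omega] at this
  · have := hN (r - (2 * m + 2) * (2 * m + 3)) (by omega)
    rwa [show (2 * m + 2) * (2 * m + 3) + (r - (2 * m + 2) * (2 * m + 3)) = r by omega] at this

theorem FB_veryFree (h2 : (2 : K) = 0) (m : ℕ) :
    IsVeryFree (FB R m) (2 * m + 3 - 1) (rnc K (2 * m + 3)) := by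
  have h2' : (2 : MvPolynomial (Fin 2) K) = 0 := by
    have : (C (2 : K) : MvPolynomial (Fin 2) K) = 2 := map_ofNat _ 2
    rw [← this, h2, C_0]
  refine rnc_isVeryFree (by omega) (FB_hom m) (FB_rnc h2 m) fun V hV _ => ?_
  have row : ∀ {a b : ℕ}, a ≤ (2 * m + 2) * (2 * m + 3) → b ≤ 2 * m + 1 →
      Mon K ((2 * m + 2) * (2 * m + 3)) a * Mon K (2 * m + 3 - 2) b =
        Mon K ((2 * m + 3) * (2 * m + 3) - 2) (a + b) := by
    intro a b ha hb
    exact Mon_row (N := 2 * m + 3) (by omega) ha hb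
  have hsum : ∀ b, b ≤ 2 * m + 1 → (∑ k ∈ Finset.range m,
      rnc K (2 * m + 3) (vv (2 * m + 3) 0) ^ (2 * (m - k)) *
      rnc K (2 * m + 3) (vv (2 * m + 3) (2 * m + 3)) ^ (2 * k + 2)) * Mon K (2 * m + 3 - 2) b =
      ∑ k ∈ Finset.range m, Mon K ((2 * m + 3) * (2 * m + 3) - 2)
        ((2 * k + 2) * (2 * m + 3) + b) := by
    intro b hb
    rw [Finset.sum_mul]
    refine Finset.sum_congr rfl fun k hk => ?_
    rw [Finset.mem_range] at hk
    have hd : 2 * (m - k) * (2 * m + 3) + (2 * k + 2) * (2 * m + 3) =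
        (2 * m + 2) * (2 * m + 3) := by
      rw [← Nat.add_mul]; congr 1; omega
    rw [rnc_vv (by omega), rnc_vv (by omega), Mon_pow (by omega), Mon_pow (by omega),
      Mon_mul (Nat.mul_le_mul_left _ (by omega)) (by omega), hd, Nat.mul_zero, Nat.zero_add,
      row (Nat.mul_le_mul_right _ (by omega)) hb]
  refine chainB (K := K) m V (Mon K ((2 * m + 3) * (2 * m + 3) - 2)) ?_ ?_ ?_ ?_ ?_
  · intro b hb
    have h := hV (2 * m + 3) le_rfl b hb
    rw [dFB_last h2', rnc_vv (by omega), Mon_pow (by omega), row (by omega) hb] at h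
    simpa using h
  · intro b hb
    have h := hV 0 (by omega) b hb
    rw [dFB_zero h2', rnc_vv (by omega), Mon_pow (by omega), row (by omega) hb] at h
    exact h
  · intro i b hi1 hi2 hb
    rcases Nat.even_or_odd' i with ⟨l, hl | hl⟩
    · have h := hV (2 * (l - 1) + 3) (by omega) b hb
      rw [dFB_odd h2' _ _ (by omega), rnc_vv (by omega), Mon_pow (by omega),
        row (Nat.mul_le_mul_left _ (by omega)) hb, show 2 * (l - 1) + 2 = i by omega] at h
      exact h
    · have h := hV (2 * (l - 1) + 2) (by omega) b hb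
      rw [dFB_even h2' _ _ (by omega), rnc_vv (by omega), Mon_pow (by omega),
        row (Nat.mul_le_mul_left _ (by omega)) hb, show 2 * (l - 1) + 3 = i by omega] at h
      exact h
  · intro b hb
    have h := hV 1 (by omega) b hb
    rw [dFB_one h2', add_mul, hsum b hb, rnc_vv (by omega), Mon_pow (by omega),
      row (Nat.mul_le_mul_left _ (by omega)) hb, mul_one] at h
    exact h
  · intro b hb
    have h := hV (2 * m + 2) (by omega) b hb
    rw [dFB_one' h2', add_mul, hsum b hb, rnc_vv (by omega), Mon_pow (by omega),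
      row (Nat.mul_le_mul_left _ (by omega)) hb] at h
    exact h

end FB

/-- Case B: characteristic two, odd degree. -/
theorem caseB {K : Type*} [Field K] [Algebra (ZMod 2) K] {N : ℕ}
    (hN : 3 ≤ N) (hN2 : ¬ 2 ∣ N) :
    ∃ F : MvPolynomial (Fin (N + 1)) (ZMod 2), F.IsHomogeneous N ∧ IsSmooth K F ∧
      IsRationalCurve F (N - 1) (rnc K N) ∧ IsVeryFree F (N - 1) (rnc K N) := by
  have h2 : (2 : K) = 0 := by
    have : algebraMap (ZMod 2) K 2 = 2 := map_ofNat _ 2
    rw [← this, show (2 : ZMod 2) = 0 from rfl, map_zero]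
  obtain ⟨m, rfl⟩ : ∃ m, N = 2 * m + 3 := ⟨(N - 3) / 2, by omega⟩
  exact ⟨FB (ZMod 2) m, FB_hom m, FB_smooth h2 m, rnc_isRationalCurve (by omega) (FB_rnc h2 m),
    FB_veryFree h2 m⟩

end Pool.Agent.H29.Fano
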