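import Pool.Agent.H29.Fano.ChainC

/-!
Degree divisible by the characteristic.
-/

open MvPolynomial

set_option linter.unusedSectionVars false

namespace Pool.Agent.H29.Fano

/-- The section of `F = 0` by the hyperplane `x_j = 0` is smooth. -/
def SmoothSection {R : Type*} (K : Type*) [CommRing R] [Field K] [Algebra R K] {n : ℕ}
    (F : MvPolynomial (Fin (n + 1)) R) (j : Fin (n + 1)) : Prop :=
  ∀ x : Fin (n + 1) → K, x ≠ 0 → x j = 0 → aeval x F = 0 →
    ∃ i, i ≠ j ∧ aeval x (pderiv i F) ≠ 0

section FC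

variable {R : Type*} [CommRing R]

variable (R) in
/-- The chain form of case C. -/
noncomputable def GC (N : ℕ) : MvPolynomial (Fin (N + 1)) R :=
  ∑ i ∈ Finset.Ico 1 (N - 1), (X (vv N i) ^ (N - 1) * X (vv N (i + 1)) -
    X (vv N 1) * (X (vv N 0) ^ (N - 1 - i) * X (vv N N) ^ i))

/-- The form of case C. -/
noncomputable def FC (N : ℕ) (d : ℕ → R) : MvPolynomial (Fin (N + 1)) R := GC R N + FA N d

theorem FC_hom {N : ℕ} (hN : 1 ≤ N) (d : ℕ → R) : (FC N d).IsHomogeneous N := by
  refine IsHomogeneous.add (IsHomogeneous.sum _ _ _ fun i hi => ?_) (FA_hom N d)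
  rw [Finset.mem_Ico] at hi
  refine IsHomogeneous.sub ?_ ?_
  · have := (isHomogeneous_X_pow (R := R) (vv N i) (N - 1)).mul (isHomogeneous_X R (vv N (i + 1)))
    rwa [Nat.sub_add_cancel hN] at this
  · have := (isHomogeneous_X R (vv N 1)).mul ((isHomogeneous_X_pow (R := R) (vv N 0) (N - 1 - i)).mul
      (isHomogeneous_X_pow (R := R) (vv N N) i))
    rwa [show 1 + (N - 1 - i + i) = N by omega] at this

theorem aeval_GC {A : Type*} [CommRing A] [Algebra R A] (N : ℕ)
    (x : Fin (N + 1) → A) : aeval x (GC R N) = ∑ i ∈ Finset.Ico 1 (N - 1),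
      (x (vv N i) ^ (N - 1) * x (vv N (i + 1)) -
        x (vv N 1) * (x (vv N 0) ^ (N - 1 - i) * x (vv N N) ^ i)) := by
  simp [GC]

theorem dir_GC {A : Type*} [CommRing A] [Algebra R A] (N : ℕ) 
    (x w : Fin (N + 1) → A) : dir x w (GC R N) =
      ∑ i ∈ Finset.Ico 1 (N - 1),
        ((N - 1 : ℕ) : A) * x (vv N i) ^ (N - 1 - 1) * x (vv N (i + 1)) * w (vv N i)
      + ∑ i ∈ Finset.Ico 1 (N - 1), x (vv N i) ^ (N - 1) * w (vv N (i + 1))
      - w (vv N 1) * ∑ i ∈ Finset.Ico 1 (N - 1), x (vv N 0) ^ (N - 1 - i) * x (vv N N) ^ i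
      - w (vv N 0) * ∑ i ∈ Finset.Ico 1 (N - 1), ((N - 1 - i : ℕ) : A) *
          (x (vv N 1) * (x (vv N 0) ^ (N - 1 - i - 1) * x (vv N N) ^ i))
      - w (vv N N) * ∑ i ∈ Finset.Ico 1 (N - 1), (i : A) *
          (x (vv N 1) * (x (vv N 0) ^ (N - 1 - i) * x (vv N N) ^ (i - 1))) := by
  rw [GC, dir_sum, Finset.mul_sum, Finset.mul_sum, Finset.mul_sum, ← Finset.sum_add_distrib,
    ← Finset.sum_sub_distrib, ← Finset.sum_sub_distrib, ← Finset.sum_sub_distrib]
  refine Finset.sum_congr rfl fun i _ => ?_
  simp only [dir_mul, dir_sub, dir_pow, dir_X, aeval_X, map_mul, map_pow]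
  ring

theorem sum_single_a {A : Type*} [CommRing A] {N j : ℕ} (hj : j ≤ N) (g : ℕ → A) :
    ∑ i ∈ Finset.Ico 1 (N - 1), g i * (Pi.single (vv N j) (1 : A) : Fin (N + 1) → A) (vv N i) =
      if 1 ≤ j ∧ j < N - 1 then g j else 0 := by
  have : ∀ i ∈ Finset.Ico 1 (N - 1),
      g i * (Pi.single (vv N j) (1 : A) : Fin (N + 1) → A) (vv N i) = if i = j then g j else 0 := by
    intro i hi
    rw [Finset.mem_Ico] at hi
    rw [single_vv (by omega) hj]
    split_ifs with h
    · rw [h, mul_one]
    · rw [mul_zero]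
  rw [Finset.sum_congr rfl this, Finset.sum_ite_eq']
  simp only [Finset.mem_Ico]

theorem sum_single_b {A : Type*} [CommRing A] {N j : ℕ} (hj : j ≤ N) (g : ℕ → A) :
    ∑ i ∈ Finset.Ico 1 (N - 1), g i * (Pi.single (vv N j) (1 : A) : Fin (N + 1) → A) (vv N (i + 1)) =
      if 2 ≤ j ∧ j < N then g (j - 1) else 0 := by
  have : ∀ i ∈ Finset.Ico 1 (N - 1),
      g i * (Pi.single (vv N j) (1 : A) : Fin (N + 1) → A) (vv N (i + 1)) =
        if i = j - 1 then (if 1 ≤ j then g (j - 1) else 0) else 0 := by
    intro i hi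
    rw [Finset.mem_Ico] at hi
    rw [single_vv (by omega) hj]
    by_cases h : i + 1 = j
    · rw [if_pos h, if_pos (by omega), if_pos (by omega), mul_one, ← h, Nat.add_sub_cancel]
    · rw [if_neg h, mul_zero]
      by_cases h' : i = j - 1
      · rw [if_pos h', if_neg (by omega)]
      · rw [if_neg h']
  rw [Finset.sum_congr rfl this, Finset.sum_ite_eq']
  simp only [Finset.mem_Ico]
  by_cases h : 2 ≤ j ∧ j < N
  · rw [if_pos h, if_pos (by omega), if_pos (by omega)]
  · rw [if_neg h]
    by_cases h1 : 1 ≤ j - 1 ∧ j - 1 < N - 1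
    · omega
    · rw [if_neg h1]

section partials

variable {A : Type*} [CommRing A] [Algebra R A] {N : ℕ} (hN : 3 ≤ N) (hN0 : (N : A) = 0)
    (d : ℕ → R) (x : Fin (N + 1) → A)

include hN hN0

theorem N_sub_one : ((N - 1 : ℕ) : A) = -1 := by
  rw [Nat.cast_sub (by omega), hN0]; simp

theorem dFC_one : dir x (Pi.single (vv N 1) 1) (FC N d) =
    - (x (vv N 1) ^ (N - 2) * x (vv N 2)) -
      ∑ i ∈ Finset.Ico 1 (N - 1), x (vv N 0) ^ (N - 1 - i) * x (vv N N) ^ i := by
  rw [FC, dir_add, dir_FA_mid d x le_rfl (by omega), dir_GC, sum_single_a (by omega),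
    sum_single_b (by omega), if_pos (by omega), if_neg (by omega), single_vv (by omega) (by omega),
    single_vv (by omega) (by omega), single_vv (by omega) (by omega), if_pos rfl,
    if_neg (by omega), if_neg (by omega), hN0, N_sub_one hN hN0, show N - 1 - 1 = N - 2 by omega]
  ring

theorem dFC_mid {j : ℕ} (h1 : 2 ≤ j) (h2 : j < N - 1) :
    dir x (Pi.single (vv N j) 1) (FC N d) =
      x (vv N (j - 1)) ^ (N - 1) - x (vv N j) ^ (N - 2) * x (vv N (j + 1)) := by
  rw [FC, dir_add, dir_FA_mid d x (by omega) (by omega), dir_GC, sum_single_a (by omega),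
    sum_single_b (by omega), if_pos (by omega), if_pos (by omega), single_vv (by omega) (by omega),
    single_vv (by omega) (by omega), single_vv (by omega) (by omega), if_neg (by omega),
    if_neg (by omega), if_neg (by omega), hN0, N_sub_one hN hN0, show N - 1 - 1 = N - 2 by omega]
  ring

theorem dFC_top : dir x (Pi.single (vv N (N - 1)) 1) (FC N d) =
      x (vv N (N - 2)) ^ (N - 1) := by
  rw [FC, dir_add, dir_FA_mid d x (by omega) (by omega), dir_GC, sum_single_a (by omega),
    sum_single_b (by omega), if_neg (by omega), if_pos (by omega), single_vv (by omega) (by omega),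
    single_vv (by omega) (by omega), single_vv (by omega) (by omega), if_neg (by omega),
    if_neg (by omega), if_neg (by omega), hN0, show N - 1 - 1 = N - 2 by omega]
  ring

theorem dFC_zero : dir x (Pi.single (vv N 0) 1) (FC N d) =
    - ∑ i ∈ Finset.Ico 1 (N - 1), ((N - 1 - i : ℕ) : A) *
          (x (vv N 1) * (x (vv N 0) ^ (N - 1 - i - 1) * x (vv N N) ^ i))
    - ∑ i ∈ Finset.Ico 1 N, algebraMap R A (d i) *
      ((N - i : ℕ) : A) * (x (vv N 0) ^ (N - i - 1) * x (vv N N) ^ i) := by
  rw [FC, dir_add, dir_FA_zero (by omega), dir_GC, sum_single_a (by omega),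
    sum_single_b (by omega), if_neg (by omega), if_neg (by omega), single_vv (by omega) (by omega),
    single_vv (by omega) (by omega), single_vv (by omega) (by omega), if_neg (by omega),
    if_pos rfl, if_neg (by omega), Finset.sum_neg_distrib]
  ring

theorem dFC_last : dir x (Pi.single (vv N N) 1) (FC N d) =
    - ∑ i ∈ Finset.Ico 1 (N - 1), (i : A) *
          (x (vv N 1) * (x (vv N 0) ^ (N - 1 - i) * x (vv N N) ^ (i - 1)))
    - ∑ i ∈ Finset.Ico 1 N, algebraMap R A (d i) *
      (i : A) * (x (vv N 0) ^ (N - i) * x (vv N N) ^ (i - 1)) := by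
  rw [FC, dir_add, dir_FA_last (by omega), dir_GC, sum_single_a (by omega),
    sum_single_b (by omega), if_neg (by omega), if_neg (by omega), single_vv (by omega) (by omega),
    single_vv (by omega) (by omega), single_vv (by omega) (by omega), if_neg (by omega),
    if_neg (by omega), if_pos rfl, Finset.sum_neg_distrib]
  ring

end partials

variable {K : Type*} [Field K] [Algebra R K]

theorem FC_rnc {N : ℕ} (hN : 3 ≤ N) (d : ℕ → R) : aeval (rnc K N) (FC N d) = 0 := by
  rw [FC, map_add, FA_rnc, add_zero, aeval_GC]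
  refine Finset.sum_eq_zero fun i hi => ?_
  rw [Finset.mem_Ico] at hi
  rw [rnc_vv (by omega), rnc_vv (by omega), rnc_vv (by omega), rnc_vv (by omega), rnc_vv le_rfl,
    Mon_pow (by omega), Mon_pow (by omega), Mon_pow le_rfl, Mon_mul (by omega) le_rfl]
  have e1 : (N - 1 - i) * N + i * N = (N - 1) * N := by
    rw [← Nat.add_mul, Nat.sub_add_cancel (by omega)]
  rw [e1, Nat.mul_zero, Nat.zero_add,
    Mon_mul (Nat.mul_le_mul_left _ (by omega)) (by omega),
    Mon_mul (by omega) (Nat.mul_le_mul_right _ (by omega))]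
  have e2 : (N - 1) * i + (i + 1) = 1 + i * N := by
    obtain ⟨k, rfl⟩ : ∃ k, N = k + 1 := ⟨N - 1, by omega⟩
    rw [Nat.add_sub_cancel]; ring
  rw [e2, Nat.add_comm N, sub_self]

theorem FC_veryFree {N : ℕ} (hN : 3 ≤ N) (hN0 : (N : K) = 0) (d : ℕ → R)
    (hd1 : algebraMap R K (d 1) ≠ 0) (hdN : algebraMap R K (d (N - 1)) ≠ 0) :
    IsVeryFree (FC N d) (N - 1) (rnc K N) := by
  have hN0' : (N : MvPolynomial (Fin 2) K) = 0 := by
    have : (C (N : K) : MvPolynomial (Fin 2) K) = N := map_natCast _ _
    rw [← this, hN0, C_0]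
  refine rnc_isVeryFree (by omega) (FC_hom (by omega) d) (FC_rnc hN d) fun V hV hG => ?_
  refine chainC hN hN0 V (Mon K (N * N - 2)) (fun i => algebraMap R K (d i)) hd1 hdN
    ?_ ?_ ?_ ?_ ?_ ?_
  · -- the top chain partial
    intro b hb
    have h := hV (N - 1) (by omega) b hb
    rwa [dFC_top hN hN0', rnc_vv (by omega), Mon_pow (by omega),
      Mon_row (by omega) (Nat.mul_le_mul_left _ (by omega)) hb] at h
  · intro i b hi1 hi2 hb
    have h := hV (i + 1) (by omega) b hb
    have hle : (N - 2) * (i + 1) + (i + 2) ≤ (N - 1) * N := by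
      obtain ⟨k, rfl⟩ : ∃ k, N = k + 3 := ⟨N - 3, by omega⟩
      simp only [show k + 3 - 1 = k + 2 by omega, show k + 3 - 2 = k + 1 by omega]
      have : (k + 1) * (i + 1) ≤ (k + 1) * (k + 3) := Nat.mul_le_mul_left _ (by omega)
      have e : (k + 2) * (k + 3) = (k + 1) * (k + 3) + k + 3 := by ring
      omega
    have hNN : (N - 2) * N + N = (N - 1) * N := by
      obtain ⟨k, rfl⟩ : ∃ k, N = k + 3 := ⟨N - 3, by omega⟩
      simp only [show k + 3 - 1 = k + 2 by omega, show k + 3 - 2 = k + 1 by omega]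
      ring
    rw [dFC_mid hN hN0' _ _ (by omega) (by omega), rnc_vv (by omega), rnc_vv (by omega),
      rnc_vv (by omega), Mon_pow (by omega), Mon_pow (by omega),
      Mon_mul (Nat.mul_le_mul_left _ (by omega)) (by omega), sub_mul, hNN,
      Mon_row (by omega) (Nat.mul_le_mul_left _ (by omega)) hb,
      Mon_row (by omega) hle hb] at h
    have e1 : (N - 2) * (i + 1) + (i + 1 + 1) + b = (N - 1) * i + b + N := by
      obtain ⟨k, rfl⟩ : ∃ k, N = k + 3 := ⟨N - 3, by omega⟩
      simp only [show k + 3 - 1 = k + 2 by omega, show k + 3 - 2 = k + 1 by omega]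
      ring
    rw [e1, Nat.add_sub_cancel] at h
    exact h
  · intro b hb
    have h := hV 1 (by omega) b hb
    have hNN : (N - 2) * N + N = (N - 1) * N := by
      obtain ⟨k, rfl⟩ : ∃ k, N = k + 3 := ⟨N - 3, by omega⟩
      simp only [show k + 3 - 1 = k + 2 by omega, show k + 3 - 2 = k + 1 by omega]
      ring
    have hle : N ≤ (N - 1) * N := Nat.le_mul_of_pos_left _ (by omega)
    rw [dFC_one hN hN0', rnc_vv (by omega), rnc_vv (by omega), Mon_pow (by omega),
      Mon_mul (Nat.mul_le_mul_left _ (by omega)) (by omega), hNN,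
      show (N - 2) * 1 + 2 = N by omega, sub_mul, neg_mul,
      Mon_row (by omega) hle hb, Finset.sum_mul] at h
    have h' := V.neg_mem h
    convert h' using 1
    rw [neg_sub, sub_neg_eq_add, add_comm]
    congr 1
    refine Finset.sum_congr rfl fun i hi => ?_
    rw [Finset.mem_Ico] at hi
    rw [rnc_vv (by omega), rnc_vv le_rfl, Mon_pow (by omega), Mon_pow le_rfl,
      Mon_mul (by omega) le_rfl]
    have e1 : (N - 1 - i) * N + i * N = (N - 1) * N := by
      rw [← Nat.add_mul, Nat.sub_add_cancel (by omega)]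
    rw [e1, Nat.mul_zero, Nat.zero_add, Mon_row (by omega) (Nat.mul_le_mul_right _ (by omega)) hb,
      Nat.mul_comm N i]
  · intro b hb
    have h := hV N le_rfl b hb
    rw [dFC_last hN hN0', sub_mul, neg_mul, Finset.sum_mul, Finset.sum_mul] at h
    have h' := V.neg_mem h
    convert h' using 1
    rw [neg_sub, sub_neg_eq_add, add_comm]
    congr 1
    · refine Finset.sum_congr rfl fun i hi => ?_
      rw [Finset.mem_Ico] at hi
      rw [rnc_vv (by omega), rnc_vv le_rfl, Mon_pow (by omega), Mon_pow le_rfl,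
        Mon_mul (by omega) le_rfl]
      have e1 : (N - i) * N + (i - 1) * N = (N - 1) * N := by
        rw [← Nat.add_mul]; congr 1; omega
      rw [e1, Nat.mul_zero, Nat.zero_add, Nat.mul_comm N (i - 1), smul_eq_C_mul, C_mul,
        ← Mon_row (by omega) (Nat.mul_le_mul_right _ (by omega)) hb,
        MvPolynomial.algebraMap_apply, map_natCast]
      ring
    · refine Finset.sum_congr rfl fun i hi => ?_
      rw [Finset.mem_Ico] at hi
      rw [rnc_vv (by omega), rnc_vv (by omega), rnc_vv le_rfl, Mon_pow (by omega), Mon_pow le_rfl,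
        Mon_mul (by omega) le_rfl]
      have e1 : (N - 1 - i) * N + (i - 1) * N + N = (N - 1) * N := by
        rw [← Nat.add_mul, ← Nat.succ_mul]; congr 1; omega
      have hle : (i - 1) * N + 1 ≤ (N - 1) * N := by
        have : (i - 1) * N ≤ (N - 2) * N := Nat.mul_le_mul_right _ (by omega)
        have : (N - 2) * N + N = (N - 1) * N := by
          rw [← Nat.succ_mul]; congr 1; omega
        omega
      rw [Nat.mul_zero, Nat.zero_add, Mon_mul (by omega)
        (by rw [← Nat.add_mul]; exact Nat.mul_le_mul_right _ (by omega)),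
        show N + ((N - 1 - i) * N + (i - 1) * N) = (N - 1) * N by omega, smul_eq_C_mul,
        map_natCast, mul_assoc, Nat.add_comm 1, Mon_row (by omega) hle hb, Nat.mul_comm N (i - 1)]
  · intro b hb
    have h := hV 0 (by omega) b hb
    rw [dFC_zero hN hN0', sub_mul, neg_mul, Finset.sum_mul, Finset.sum_mul] at h
    have h' := V.neg_mem h
    convert h' using 1
    rw [neg_sub, sub_neg_eq_add, add_comm]
    congr 1
    · refine Finset.sum_congr rfl fun i hi => ?_
      rw [Finset.mem_Ico] at hi
      rw [rnc_vv (by omega), rnc_vv le_rfl, Mon_pow (by omega), Mon_pow le_rfl,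
        Mon_mul (by omega) le_rfl]
      have e1 : (N - i - 1) * N + i * N = (N - 1) * N := by
        rw [← Nat.add_mul]; congr 1; omega
      rw [e1, Nat.mul_zero, Nat.zero_add, Nat.mul_comm N i, smul_eq_C_mul, C_mul,
        ← Mon_row (by omega) (Nat.mul_le_mul_right _ (by omega)) hb,
        MvPolynomial.algebraMap_apply, map_natCast]
      ring
    · refine Finset.sum_congr rfl fun i hi => ?_
      rw [Finset.mem_Ico] at hi
      rw [rnc_vv (by omega), rnc_vv (by omega), rnc_vv le_rfl, Mon_pow (by omega), Mon_pow le_rfl,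
        Mon_mul (by omega) le_rfl]
      have e1 : (N - 1 - i - 1) * N + i * N + N = (N - 1) * N := by
        rw [← Nat.add_mul, ← Nat.succ_mul]; congr 1; omega
      have hle : i * N + 1 ≤ (N - 1) * N := by
        have : i * N ≤ (N - 2) * N := Nat.mul_le_mul_right _ (by omega)
        have : (N - 2) * N + N = (N - 1) * N := by
          rw [← Nat.succ_mul]; congr 1; omega
        omega
      rw [Nat.mul_zero, Nat.zero_add, Mon_mul (by omega)
        (by rw [← Nat.add_mul]; exact Nat.mul_le_mul_right _ (by omega)),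
        show N + ((N - 1 - i - 1) * N + i * N) = (N - 1) * N by omega, smul_eq_C_mul,
        map_natCast, mul_assoc, Nat.add_comm 1, Mon_row (by omega) hle hb, Nat.mul_comm N i]
  · -- the Euler element
    have h := hG (-(∑ i ∈ Finset.Ico 1 (N - 1), (i : K) • Mon K (N * N - 2) (N * i) +
      ∑ i ∈ Finset.Ico 1 N, (algebraMap R K (d i) * (i : K)) • Mon K (N * N - 2) (N * i - 1))) ?_
    · rw [← neg_neg (∑ i ∈ Finset.Ico 1 (N - 1), (i : K) • Mon K (N * N - 2) (N * i) + _)]
      exact V.neg_mem h
    · have hX0 : ∀ r, r ≤ N * N - 2 → X 0 * Mon K (N * N - 2) r = Mon K (N * N - 1) r := by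
        intro r hr
        have h9 : 9 ≤ N * N := Nat.mul_le_mul hN hN
        simp only [Mon]
        rw [show N * N - 1 - r = (N * N - 2 - r) + 1 by omega, pow_succ]; ring
      have hX1 : ∀ r, r ≤ (N - 1) * N → X 1 ^ (N - 1) * Mon K ((N - 1) * N) r =
          Mon K (N * N - 1) (r + (N - 1)) := by
        intro r hr
        simp only [Mon]
        have : N * N = (N - 1) * N + N := by
          rw [← Nat.succ_mul]; congr 1; omega
        rw [show N * N - 1 - (r + (N - 1)) = (N - 1) * N - r by omega, pow_add]; ring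
      have hNN : N * N = (N - 1) * N + N := by
        rw [← Nat.succ_mul]; congr 1; omega
      have hNN' : (N - 1) * N = (N - 2) * N + N := by
        rw [← Nat.succ_mul]; congr 1; omega
      rw [dFC_last hN hN0', mul_neg, mul_sub, mul_add, mul_neg, Finset.mul_sum, Finset.mul_sum,
        Finset.mul_sum, Finset.mul_sum, neg_add, ← sub_eq_add_neg]
      congr 1
      · congr 1
        refine Finset.sum_congr rfl fun i hi => ?_
        rw [Finset.mem_Ico] at hi
        have hiN : N * i ≤ (N - 2) * N := by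
          rw [Nat.mul_comm]; exact Nat.mul_le_mul_right _ (by omega)
        have e1 : (N - 1 - i) * N + (i - 1) * N + N = (N - 1) * N := by
          rw [← Nat.add_mul, ← Nat.succ_mul]; congr 1; omega
        have e3 : (i - 1) * N + N = N * i := by
          rw [← Nat.succ_mul, Nat.mul_comm]; congr 1; omega
        rw [smul_eq_C_mul, map_natCast, mul_left_comm, hX0 _ (by omega),
          rnc_vv (by omega), rnc_vv (by omega), rnc_vv le_rfl, Mon_pow (by omega), Mon_pow le_rfl,
          Mon_mul (by omega) le_rfl, Nat.mul_zero, Nat.zero_add, Mon_mul (by omega)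
          (by rw [← Nat.add_mul]; exact Nat.mul_le_mul_right _ (by omega)),
          show N + ((N - 1 - i) * N + (i - 1) * N) = (N - 1) * N by omega,
          mul_left_comm, hX1 _ (by omega),
          show 1 + (i - 1) * N + (N - 1) = N * i by omega]
      · refine Finset.sum_congr rfl fun i hi => ?_
        rw [Finset.mem_Ico] at hi
        have hiN : N * i ≤ (N - 1) * N := by
          rw [Nat.mul_comm]; exact Nat.mul_le_mul_right _ (by omega)
        have hiN' : N * 1 ≤ N * i := Nat.mul_le_mul_left _ (by omega)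
        have e1 : (N - i) * N + (i - 1) * N = (N - 1) * N := by
          rw [← Nat.add_mul]; congr 1; omega
        have e3 : (i - 1) * N + N = N * i := by
          rw [← Nat.succ_mul, Nat.mul_comm]; congr 1; omega
        rw [smul_eq_C_mul, C_mul, map_natCast, mul_left_comm, hX0 _ (by omega),
          rnc_vv (by omega), rnc_vv le_rfl, Mon_pow (by omega), Mon_pow le_rfl,
          Mon_mul (by omega) le_rfl, Nat.mul_zero, Nat.zero_add, e1,
          mul_left_comm, hX1 _ (by omega),
          show (i - 1) * N + (N - 1) = N * i - 1 by omega, MvPolynomial.algebraMap_apply]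

end FC

end Pool.Agent.H29.Fano
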