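import Pool.Agent.H29.Fano.CaseB

/-!
The linear algebra of case C.
-/

set_option linter.unusedSectionVars false

namespace Pool.Agent.H29.Fano

theorem chainC {K E : Type*} [Field K] [AddCommGroup E] [Module K E] {N : ℕ} (hN : 3 ≤ N)
    (hN0 : (N : K) = 0) (V : Submodule K E) (M : ℕ → E) (d : ℕ → K)
    (hd1 : d 1 ≠ 0) (hdN : d (N - 1) ≠ 0)
    (h1 : ∀ b, b ≤ N - 2 → M ((N - 1) * (N - 2) + b) ∈ V)
    (h2 : ∀ i b, 1 ≤ i → i ≤ N - 3 → b ≤ N - 2 →
      M ((N - 1) * i + b) - M ((N - 1) * i + b + N) ∈ V)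
    (h3 : ∀ b, b ≤ N - 2 → M (N + b) + ∑ i ∈ Finset.Ico 1 (N - 1), M (N * i + b) ∈ V)
    (h4 : ∀ b, b ≤ N - 2 → ∑ i ∈ Finset.Ico 1 (N - 1), (i : K) • M (N * (i - 1) + 1 + b) +
      ∑ i ∈ Finset.Ico 1 N, (d i * (i : K)) • M (N * (i - 1) + b) ∈ V)
    (h5 : ∀ b, b ≤ N - 2 → ∑ i ∈ Finset.Ico 1 (N - 1), ((N - 1 - i : ℕ) : K) • M (N * i + 1 + b) +
      ∑ i ∈ Finset.Ico 1 N, (d i * ((N - i : ℕ) : K)) • M (N * i + b) ∈ V)
    (h6 : ∑ i ∈ Finset.Ico 1 (N - 1), (i : K) • M (N * i) +
      ∑ i ∈ Finset.Ico 1 N, (d i * (i : K)) • M (N * i - 1) ∈ V) :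
    ∀ r, r ≤ N * N - 2 → M r ∈ V := by
  obtain ⟨k, rfl⟩ : ∃ k, N = k + 3 := ⟨N - 3, by omega⟩
  simp only [show k + 3 - 1 = k + 2 by omega, show k + 3 - 2 = k + 1 by omega,
    show k + 3 - 3 = k by omega] at *
  -- arithmetic of products
  have q0 : (k + 2) * (k + 1) = (k + 3) * k + 2 := by ring
  have q1 : (k + 3) * (k + 1) = (k + 3) * k + k + 3 := by ring
  have q2 : (k + 3) * (k + 2) = (k + 3) * k + 2 * k + 6 := by ring
  have q3 : (k + 3) * (k + 3) = (k + 3) * k + 3 * k + 9 := by ring
  have q4 : (k + 2) * k + k = (k + 3) * k := by ring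
  -- periodicity
  have S1 : ∀ r, k + 2 ≤ r → r ≤ (k + 3) * k + 1 → M r - M (r + (k + 3)) ∈ V := by
    intro r hr1 hr2
    have e := Nat.div_add_mod r (k + 2)
    rw [← e]
    refine h2 _ _ ?_ ?_ ?_
    · exact (Nat.one_le_div_iff (by omega)).mpr hr1
    · have : r / (k + 2) < k + 1 := (Nat.div_lt_iff_lt_mul (by omega)).mpr (by
        rw [mul_comm]; omega)
      omega
    · have := Nat.mod_lt r (show 0 < k + 2 by omega)
      omega
  have S2 : ∀ r, (k + 3) * k + 2 ≤ r → r ≤ (k + 3) * (k + 1) → M r ∈ V := by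
    intro r hr1 hr2
    have := h1 (r - ((k + 3) * k + 2)) (by omega)
    rw [q0] at this
    rwa [show (k + 3) * k + 2 + (r - ((k + 3) * k + 2)) = r by omega] at this
  -- residues different from 1, by downward induction on the number of steps
  have S3 : ∀ n r, (k + 3) * (k + 1) - r ≤ n → k + 2 ≤ r → r ≤ (k + 3) * (k + 1) →
      r % (k + 3) ≠ 1 → M r ∈ V := by
    intro n
    induction n with
    | zero =>
      intro r hn _ hr _
      exact S2 r (by omega) hr
    | succ n ih =>
      intro r hn hr1 hr2 hmod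
      rcases Nat.lt_or_ge r ((k + 3) * k + 2) with h | h
      · have hs := S1 r hr1 (by omega)
        have hne : r + (k + 3) ≠ (k + 3) * (k + 1) + 1 := by
          intro h'
          have : r = (k + 3) * k + 1 := by omega
          apply hmod
          rw [this, Nat.mul_add_mod]
          exact Nat.mod_eq_of_lt (by omega)
        have := ih (r + (k + 3)) (by omega) (by omega) (by omega)
          (by rw [Nat.add_mod_right]; exact hmod)
        have h3 := V.add_mem hs this
        rwa [sub_add_cancel] at h3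
      · exact S2 r h hr2
  -- residue 1
  have S4 : ∀ q, q ≤ k → M ((k + 3) * (q + 1) + 1) - M (k + 3 + 1) ∈ V := by
    intro q
    induction q with
    | zero => intro _; simp
    | succ q ih =>
      intro hq
      have h0 := ih (by omega)
      have hle : (k + 3) * (q + 1) ≤ (k + 3) * k := Nat.mul_le_mul_left _ (by omega)
      have hs := S1 ((k + 3) * (q + 1) + 1) (by nlinarith) (by omega)
      rw [show (k + 3) * (q + 1) + 1 + (k + 3) = (k + 3) * (q + 1 + 1) + 1 by ring] at hs
      have := V.sub_mem h0 hs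
      rwa [sub_sub_sub_cancel_left] at this
  have S5 : M (k + 3 + 1) ∈ V := by
    have h := h3 1 (by omega)
    have hs : ∑ i ∈ Finset.Ico 1 (k + 2), (M ((k + 3) * i + 1) - M (k + 3 + 1)) ∈ V := by
      refine Submodule.sum_mem _ fun i hi => ?_
      rw [Finset.mem_Ico] at hi
      have := S4 (i - 1) (by omega)
      rwa [show i - 1 + 1 = i by omega] at this
    rw [Finset.sum_sub_distrib, Finset.sum_const, Nat.card_Ico, show k + 2 - 1 = k + 1 by omega]
      at hs
    have h' := V.sub_mem h hs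
    have e : M (k + 3 + 1) + ∑ i ∈ Finset.Ico 1 (k + 2), M ((k + 3) * i + 1) -
        (∑ i ∈ Finset.Ico 1 (k + 2), M ((k + 3) * i + 1) - (k + 1) • M (k + 3 + 1)) =
        (-1 : K) • M (k + 3 + 1) := by
      have : (k + 1) • M (k + 3 + 1) = ((k + 1 : ℕ) : K) • M (k + 3 + 1) :=
        (Nat.cast_smul_eq_nsmul K _ _).symm
      rw [this]
      have h2 : ((k + 1 : ℕ) : K) = -2 := by
        push_cast at hN0 ⊢
        linear_combination hN0
      rw [h2]
      module
    rw [e] at h'
    exact mem_of_smul_mem (by norm_num) h'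
  have S6 : ∀ r, k + 2 ≤ r → r ≤ (k + 3) * (k + 1) + 1 → M r ∈ V := by
    intro r hr1 hr2
    by_cases hmod : r % (k + 3) = 1
    · have e := Nat.div_add_mod r (k + 3)
      rw [hmod] at e
      have hq2 : r / (k + 3) < k + 2 := by
        rw [Nat.div_lt_iff_lt_mul (by omega), mul_comm]
        omega
      generalize r / (k + 3) = q at e hq2
      have hq1 : 1 ≤ q := by
        by_contra hcon
        have : q = 0 := by omega
        rw [this] at e
        omega
      have := V.add_mem (S4 (q - 1) (by omega)) S5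
      rw [sub_add_cancel, show q - 1 + 1 = q by omega, e] at this
      exact this
    · refine S3 _ r le_rfl hr1 ?_ hmod
      by_contra hcon
      apply hmod
      rw [show r = (k + 3) * (k + 1) + 1 by omega, Nat.mul_add_mod]
      exact Nat.mod_eq_of_lt (by omega)
  have S7 : ∀ r, k + 2 ≤ r → r ≤ (k + 3) * (k + 1) + (k + 1) → M r ∈ V := by
    intro r hr1 hr2
    rcases Nat.lt_or_ge r ((k + 3) * (k + 1) + 2) with h | h
    · exact S6 r hr1 (by omega)
    · obtain ⟨b, rfl⟩ : ∃ b, r = (k + 3) * (k + 1) + b := ⟨r - (k + 3) * (k + 1), by omega⟩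
      have hk : 1 ≤ k := by omega
      have hkk : k + 3 ≤ (k + 3) * k := by nlinarith
      have h' := h3 b (by omega)
      have hb : M (k + 3 + b) ∈ V := S6 _ (by omega) (by omega)
      have h'' := V.sub_mem h' hb
      rw [add_sub_cancel_left] at h''
      refine mem_of_sum_mem (g := fun i => M ((k + 3) * i + b)) (j := k + 1)
        (Finset.mem_Ico.mpr ⟨by omega, by omega⟩) h'' fun i hi hi1 => ?_
      rw [Finset.mem_Ico] at hi
      have b1 : (k + 3) * i ≤ (k + 3) * k := Nat.mul_le_mul_left _ (by omega)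
      have b2 : (k + 3) * 1 ≤ (k + 3) * i := Nat.mul_le_mul_left _ (by omega)
      exact S6 _ (by omega) (by omega)
  -- the lowest range, by downward induction
  have S8 : ∀ n b, k + 2 - b ≤ n → b ≤ k + 2 → M b ∈ V := by
    intro n
    induction n with
    | zero =>
      intro b hb1 hb2
      exact S7 b (by omega) (by omega)
    | succ n ih =>
      intro b hb1 hb2
      rcases Nat.lt_or_ge b (k + 2) with h | h
      · have h4' := h4 b (by omega)
        have hM := ih (b + 1) (by omega) (by omega)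
        have hs1 : ∑ i ∈ Finset.Ico 1 (k + 2), (i : K) • M ((k + 3) * (i - 1) + 1 + b) ∈ V := by
          refine Submodule.sum_mem _ fun i hi => V.smul_mem _ ?_
          rw [Finset.mem_Ico] at hi
          rcases Nat.lt_or_ge i 2 with h' | h'
          · rw [show i = 1 by omega]
            simpa [add_comm] using hM
          · have b1 : (k + 3) * (i - 1) ≤ (k + 3) * k := Nat.mul_le_mul_left _ (by omega)
            have b2 : (k + 3) * 1 ≤ (k + 3) * (i - 1) := Nat.mul_le_mul_left _ (by omega)
            exact S7 _ (by omega) (by omega)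
        have h4'' := V.sub_mem h4' hs1
        rw [add_sub_cancel_left] at h4''
        have := mem_of_sum_mem (j := 1) (Finset.mem_Ico.mpr ⟨le_rfl, by omega⟩) h4''
          fun i hi hi1 => by
            rw [Finset.mem_Ico] at hi
            have b1 : (k + 3) * (i - 1) ≤ (k + 3) * (k + 1) := Nat.mul_le_mul_left _ (by omega)
            have b2 : (k + 3) * 1 ≤ (k + 3) * (i - 1) := Nat.mul_le_mul_left _ (by omega)
            exact V.smul_mem _ (S7 _ (by omega) (by omega))
        have := mem_of_smul_mem (by simpa using hd1) this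
        simpa using this
      · exact S7 b (by omega) (by omega)
  have S9 : ∀ r, r ≤ (k + 3) * (k + 1) + (k + 1) → M r ∈ V := by
    intro r hr
    rcases Nat.lt_or_ge r (k + 2) with h | h
    · exact S8 _ r le_rfl (by omega)
    · exact S7 r h hr
  have S10 : M ((k + 3) * (k + 1) + (k + 2)) ∈ V := by
    have hs1 : ∑ i ∈ Finset.Ico 1 (k + 2), (i : K) • M ((k + 3) * i) ∈ V := by
      refine Submodule.sum_mem _ fun i hi => V.smul_mem _ ?_
      rw [Finset.mem_Ico] at hi
      have b1 : (k + 3) * i ≤ (k + 3) * (k + 1) := Nat.mul_le_mul_left _ (by omega)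
      exact S9 _ (by omega)
    have h6' := V.sub_mem h6 hs1
    rw [add_sub_cancel_left] at h6'
    have := mem_of_sum_mem (j := k + 2) (Finset.mem_Ico.mpr ⟨by omega, by omega⟩) h6'
      fun i hi hi1 => by
        rw [Finset.mem_Ico] at hi
        have b1 : (k + 3) * i ≤ (k + 3) * (k + 1) := Nat.mul_le_mul_left _ (by omega)
        exact V.smul_mem _ (S9 _ (by omega))
    have hk2 : ((k + 2 : ℕ) : K) = -1 := by
      push_cast at hN0 ⊢
      linear_combination hN0
    rw [hk2] at this
    have := mem_of_smul_mem (by simpa using hdN) this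
    rwa [show (k + 3) * (k + 2) - 1 = (k + 3) * (k + 1) + (k + 2) by omega] at this
  have S11 : ∀ r, r ≤ (k + 3) * (k + 1) + (k + 2) → M r ∈ V := by
    intro r hr
    rcases Nat.lt_or_ge r ((k + 3) * (k + 1) + (k + 2)) with h | h
    · exact S9 r (by omega)
    · rw [show r = (k + 3) * (k + 1) + (k + 2) by omega]; exact S10
  intro r hr
  rcases Nat.lt_or_ge r ((k + 3) * (k + 2)) with h | h
  · exact S11 r (by omega)
  · obtain ⟨b, rfl⟩ : ∃ b, r = (k + 3) * (k + 2) + b := ⟨r - (k + 3) * (k + 2), by omega⟩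
    have h5' := h5 b (by omega)
    have hs1 : ∑ i ∈ Finset.Ico 1 (k + 2), ((k + 2 - i : ℕ) : K) • M ((k + 3) * i + 1 + b) ∈ V := by
      refine Submodule.sum_mem _ fun i hi => V.smul_mem _ ?_
      rw [Finset.mem_Ico] at hi
      have b1 : (k + 3) * i ≤ (k + 3) * (k + 1) := Nat.mul_le_mul_left _ (by omega)
      exact S11 _ (by omega)
    have h5'' := V.sub_mem h5' hs1
    rw [add_sub_cancel_left] at h5''
    have := mem_of_sum_mem (j := k + 2) (Finset.mem_Ico.mpr ⟨by omega, by omega⟩) h5''
      fun i hi hi1 => by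
        rw [Finset.mem_Ico] at hi
        have b1 : (k + 3) * i ≤ (k + 3) * (k + 1) := Nat.mul_le_mul_left _ (by omega)
        exact V.smul_mem _ (S11 _ (by omega))
    have hk2 : ((k + 3 - (k + 2) : ℕ) : K) = 1 := by
      rw [show k + 3 - (k + 2) = 1 by omega, Nat.cast_one]
    rw [hk2] at this
    exact mem_of_smul_mem (by simpa using hdN) this

end Pool.Agent.H29.Fano
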