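import Pool.Agent.H29.Fano.Forms

/-!
The rational normal curve and the criterion for it to be very free on a hypersurface of
degree `N` in projective `N`-space.
-/

open MvPolynomial

set_option linter.unusedSectionVars false

namespace Pool.Agent.H29.Fano

/-- The index `i` in `Fin (N + 1)`. -/
def vv (N i : ℕ) : Fin (N + 1) := Fin.ofNat (N + 1) i

theorem vv_val {N i : ℕ} (h : i ≤ N) : (vv N i : ℕ) = i := by
  simp only [vv, Fin.ofNat]
  exact Nat.mod_eq_of_lt (by omega)

theorem vv_inj {N i j : ℕ} (hi : i ≤ N) (hj : j ≤ N) : vv N i = vv N j ↔ i = j := by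
  rw [Fin.ext_iff, vv_val hi, vv_val hj]

theorem vv_surj {N : ℕ} (j : Fin (N + 1)) : vv N j = j := by
  rw [Fin.ext_iff, vv_val (by omega)]

theorem single_vv {A : Type*} [CommRing A] {N i j : ℕ} (hi : i ≤ N) (hj : j ≤ N) :
    (Pi.single (vv N j) (1 : A) : Fin (N + 1) → A) (vv N i) = if i = j then 1 else 0 := by
  rw [Pi.single_apply]
  simp only [vv_inj hi hj]

variable {R K : Type*} [CommRing R] [Field K] [Algebra R K] {N : ℕ}

variable (K) in
/-- The rational normal curve of degree `N`. -/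
noncomputable def rnc (N : ℕ) : Fin (N + 1) → MvPolynomial (Fin 2) K := fun i => Mon K N i

theorem rnc_vv {i : ℕ} (h : i ≤ N) : rnc K N (vv N i) = Mon K N i := by
  simp only [rnc, vv_val h]

theorem rnc_hom (i : Fin (N + 1)) : (rnc K N i).IsHomogeneous N := Mon_hom (by omega)

theorem rnc_isRationalCurve {F : MvPolynomial (Fin (N + 1)) R} (hN : 1 ≤ N)
    (h : aeval (rnc K N) F = 0) : IsRationalCurve F (N - 1) (rnc K N) := by
  refine ⟨fun i => ?_, fun a ha => ?_, h⟩
  · rw [Nat.sub_add_cancel hN]; exact rnc_hom i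
  · by_cases ha0 : a 0 = 0
    · have ha1 : a 1 ≠ 0 := by
        intro h1
        exact ha (funext fun i => by fin_cases i <;> simp [ha0, h1])
      refine ⟨vv N N, ?_⟩
      rw [rnc_vv le_rfl, eval_Mon]
      simp [ha1]
    · refine ⟨vv N 0, ?_⟩
      rw [rnc_vv (Nat.zero_le _), eval_Mon]
      simp [ha0]

theorem mem_liftSub_of_row {F : MvPolynomial (Fin (N + 1)) R} (hN : 2 ≤ N) (a : Fin 2 → K)
    (j : Fin (N + 1)) {b : ℕ} (hb : b ≤ N - 2) :
    dir (rnc K N) (Pi.single j 1) F * Mon K (N - 2) b ∈ liftSub F (rnc K N) (N - 1) a := by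
  refine ⟨Pi.single j (lin a * Mon K (N - 2) b), fun i => ?_, ⟨0, fun i => ?_⟩, ?_⟩
  · rw [Pi.single_apply]
    split_ifs
    · have := (lin_hom a).mul (Mon_hom (K := K) hb)
      rwa [show 1 + (N - 2) = N - 1 by omega] at this
    · exact isHomogeneous_zero _ _ _
  · rw [Pi.single_apply]
    split_ifs
    · rw [map_mul, eval_lin]; simp
    · simp
  · rw [show (Pi.single j (lin a * Mon K (N - 2) b) : Fin (N + 1) → MvPolynomial (Fin 2) K)
      = fun i => (lin a * Mon K (N - 2) b) * (Pi.single j 1 : Fin (N + 1) → _) i from ?_,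
      dir_smul_right]
    · ring
    · funext i
      rw [Pi.single_apply, Pi.single_apply]
      split_ifs <;> simp

theorem mem_liftSub_of_euler {F : MvPolynomial (Fin (N + 1)) R} (hN : 2 ≤ N)
    (hF : F.IsHomogeneous N) (h0 : aeval (rnc K N) F = 0) (a : Fin 2 → K)
    {G : MvPolynomial (Fin 2) K}
    (hG : X 0 * G = X 1 ^ (N - 1) * dir (rnc K N) (Pi.single (vv N N) 1) F) :
    G ∈ liftSub F (rnc K N) (N - 1) a := by
  set g : Fin (N + 1) → MvPolynomial (Fin 2) K := fun i =>
    if (i : ℕ) < N then C (a 0) * Mon K (N - 1) i else C (a 1) * Mon K (N - 1) (N - 1) with hg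
  have hXg : (fun i => X 0 * g i) = (fun i => C (a 0) * rnc K N i) +
      (fun i => (X 1 ^ (N - 1) * lin a) * (Pi.single (vv N N) 1 : Fin (N + 1) → _) i) := by
    funext i
    simp only [hg, Pi.add_apply, rnc]
    rw [← vv_surj i, single_vv (by omega) le_rfl, vv_val (by omega)]
    by_cases h : (i : ℕ) < N
    · rw [if_pos h, if_neg (by omega)]
      simp only [Mon]
      rw [show N - (i : ℕ) = (N - 1 - i) + 1 by omega, pow_succ]
      ring
    · have hi : (i : ℕ) = N := by omega
      rw [if_neg h, if_pos hi, hi]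
      simp only [Mon, lin]
      rw [Nat.sub_self, Nat.sub_self, pow_zero]
      obtain ⟨m, rfl⟩ : ∃ m, N = m + 1 := ⟨N - 1, by omega⟩
      simp only [Nat.add_sub_cancel, pow_succ]
      ring
  refine ⟨g, fun i => ?_, ⟨1, fun i => ?_⟩, ?_⟩
  · simp only [hg]
    split_ifs with h
    · exact (Mon_hom (by omega)).C_mul _
    · exact (Mon_hom (by omega)).C_mul _
  · simp only [hg, rnc, one_mul]
    split_ifs with h
    · simp only [map_mul, eval_C, eval_Mon]
      rw [show N - (i : ℕ) = (N - 1 - i) + 1 by omega, pow_succ]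
      ring
    · have hi : (i : ℕ) = N := by omega
      simp only [map_mul, eval_C, eval_Mon, hi]
      obtain ⟨m, rfl⟩ : ∃ m, N = m + 1 := ⟨N - 1, by omega⟩
      simp [pow_succ]
      ring
  · have h1 : X 0 * dir (rnc K N) g F = X 0 * (lin a * G) := by
      rw [← dir_smul_right, hXg, dir_add_right, dir_smul_right, dir_smul_right, dir_self _ hF,
        h0]
      linear_combination (-lin a) * hG
    exact mul_left_cancel₀ (X_ne_zero 0) h1

/-- The criterion. -/
theorem rnc_isVeryFree {F : MvPolynomial (Fin (N + 1)) R} (hN : 2 ≤ N)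
    (hF : F.IsHomogeneous N) (h0 : aeval (rnc K N) F = 0)
    (H : ∀ V : Submodule K (MvPolynomial (Fin 2) K),
      (∀ j, j ≤ N → ∀ b, b ≤ N - 2 →
        dir (rnc K N) (Pi.single (vv N j) 1) F * Mon K (N - 2) b ∈ V) →
      (∀ G, X 0 * G = X 1 ^ (N - 1) * dir (rnc K N) (Pi.single (vv N N) 1) F → G ∈ V) →
      ∀ r, r ≤ N * N - 2 → Mon K (N * N - 2) r ∈ V) :
    IsVeryFree F (N - 1) (rnc K N) := by
  have h4 : 4 ≤ N * N := by nlinarith
  refine isVeryFree_of_lift (d := N) (D := N * N - 2) hF (fun i => ?_) ?_ fun a _ => ?_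
  · rw [Nat.sub_add_cancel (by omega)]; exact rnc_hom i
  · obtain ⟨m, rfl⟩ : ∃ m, N = m + 1 := ⟨N - 1, by omega⟩
    simp only [Nat.add_sub_cancel]
    have : (m + 1) * (m + 1) = (m + 1) * m + (m + 1) := by ring
    omega
  · exact H _ (fun j _ b hb => mem_liftSub_of_row hN a _ hb)
      (fun G hG => mem_liftSub_of_euler hN hF h0 a hG)

end Pool.Agent.H29.Fano
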