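import Pool.Agent.H29.Fano.Special

/-!
Adding variables.
-/

open MvPolynomial

set_option linter.unusedSectionVars false

namespace Pool.Agent.H29.Fano

section

variable {R A : Type*} [CommRing R] [CommRing A] [Algebra R A] {n : ℕ}

theorem dir_rename (x w : Fin (n + 1 + 1) → A) (F : MvPolynomial (Fin (n + 1)) R) :
    dir x w (rename Fin.castSucc F) =
      dir (fun i => x (Fin.castSucc i)) (fun i => w (Fin.castSucc i)) F := by
  induction F using MvPolynomial.induction_on with
  | C a => rw [rename_C, dir_C, dir_C]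
  | add p q hp hq => rw [map_add, dir_add, dir_add, hp, hq]
  | mul_X p i hp =>
    rw [map_mul, dir_mul, dir_mul, hp, rename_X, dir_X, dir_X, aeval_X, aeval_X, aeval_rename]
    rfl

theorem dir_rename_cast (x : Fin (n + 1 + 1) → A) (F : MvPolynomial (Fin (n + 1)) R)
    (i : Fin (n + 1)) :
    dir x (Pi.single (Fin.castSucc i) 1) (rename Fin.castSucc F) =
      dir (fun i => x (Fin.castSucc i)) (Pi.single i 1) F := by
  rw [dir_rename]
  congr 1
  funext j
  rw [Pi.single_apply, Pi.single_apply]
  simp only [Fin.castSucc_inj]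

theorem dir_rename_last (x : Fin (n + 1 + 1) → A) (F : MvPolynomial (Fin (n + 1)) R) :
    dir x (Pi.single (Fin.last (n + 1)) 1) (rename Fin.castSucc F) = 0 := by
  rw [dir_rename]
  have : (fun i : Fin (n + 1) => (Pi.single (Fin.last (n + 1)) (1 : A) : Fin (n + 1 + 1) → A)
      (Fin.castSucc i)) = 0 := by
    funext j
    rw [Pi.single_apply, if_neg (Fin.castSucc_lt_last j).ne]; rfl
  rw [this, dir_zero_right]

end

section

variable {R K : Type*} [CommRing R] [Field K] [Algebra R K] {n : ℕ}

/-- The curve with a new coordinate zero. -/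
noncomputable def ext0 (f : Fin (n + 1) → MvPolynomial (Fin 2) K) :
    Fin (n + 1 + 1) → MvPolynomial (Fin 2) K := Fin.snoc f 0

theorem ext0_cast (f : Fin (n + 1) → MvPolynomial (Fin 2) K) (i : Fin (n + 1)) :
    ext0 f (Fin.castSucc i) = f i := by simp [ext0]

theorem ext0_last (f : Fin (n + 1) → MvPolynomial (Fin 2) K) :
    ext0 f (Fin.last (n + 1)) = 0 := by simp [ext0]

theorem ext_curve {F : MvPolynomial (Fin (n + 1)) R} {H : MvPolynomial (Fin (n + 1 + 1)) R}
    {e : ℕ} {f : Fin (n + 1) → MvPolynomial (Fin 2) K} (hf : IsRationalCurve F e f)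
    (hH : aeval (ext0 f) H = 0) :
    IsRationalCurve (rename Fin.castSucc F + H) e (ext0 f) := by
  refine ⟨fun i => ?_, fun a ha => ?_, ?_⟩
  · refine Fin.lastCases ?_ (fun j => ?_) i
    · rw [ext0_last]; exact isHomogeneous_zero _ _ _
    · rw [ext0_cast]; exact hf.1 j
  · obtain ⟨i, hi⟩ := hf.2.1 a ha
    exact ⟨Fin.castSucc i, by rw [ext0_cast]; exact hi⟩
  · rw [map_add, hH, add_zero, aeval_rename]
    have : (ext0 f ∘ Fin.castSucc) = f := funext fun i => ext0_cast f i
    rw [this]; exact hf.2.2

theorem ext_veryFree {F : MvPolynomial (Fin (n + 1)) R} {H : MvPolynomial (Fin (n + 1 + 1)) R}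
    {e : ℕ} {f : Fin (n + 1) → MvPolynomial (Fin 2) K} (hf : IsVeryFree F e f)
    (hH1 : ∀ w, dir (ext0 f) w H = 0)
    (hH2 : ∀ (a : Fin 2 → K) w, dir (fun j => eval a (ext0 f j)) w H = 0) :
    IsVeryFree (rename Fin.castSucc F + H) e (ext0 f) := by
  intro a ha w hw
  have hw' : dir (fun j => eval a (ext0 f j)) w (rename Fin.castSucc F + H) = 0 := hw
  rw [dir_add, hH2, add_zero, dir_rename] at hw'
  have hy : (fun i => eval a (ext0 f (Fin.castSucc i))) = fun i => eval a (f i) := by
    funext i; rw [ext0_cast]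
  rw [hy] at hw'
  obtain ⟨v, hv, hv0, c, hc⟩ := hf a ha _ hw'
  obtain ⟨l, hl, hl1⟩ := exists_lin_one ha
  refine ⟨Fin.snoc v (C (w (Fin.last (n + 1))) * l ^ e), fun i => ?_, ?_, c, fun i => ?_⟩
  · refine Fin.lastCases ?_ (fun j => ?_) i
    · rw [Fin.snoc_last]
      have := (hl.pow e).C_mul (w (Fin.last (n + 1)))
      simpa using this
    · rw [Fin.snoc_castSucc]; exact hv j
  · have : dir (ext0 f) (Fin.snoc v (C (w (Fin.last (n + 1))) * l ^ e))
        (rename Fin.castSucc F + H) = 0 := by
      rw [dir_add, hH1, add_zero, dir_rename]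
      have h1 : (fun i => ext0 f (Fin.castSucc i)) = f := funext fun i => ext0_cast f i
      have h2 : (fun i => (Fin.snoc v (C (w (Fin.last (n + 1))) * l ^ e) :
          Fin (n + 1 + 1) → MvPolynomial (Fin 2) K) (Fin.castSucc i)) = v :=
        funext fun i => by rw [Fin.snoc_castSucc]
      rw [h1, h2]; exact hv0
    exact this
  · refine Fin.lastCases ?_ (fun j => ?_) i
    · rw [Fin.snoc_last, ext0_last]; simp [hl1]
    · rw [Fin.snoc_castSucc, ext0_cast]; exact hc j

theorem cast_eq_zero (x : Fin (n + 1 + 1) → K) (h : ∀ i, x (Fin.castSucc i) = 0)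
    (h' : x (Fin.last (n + 1)) = 0) : x = 0 := by
  funext i
  refine Fin.lastCases ?_ (fun j => ?_) i
  · exact h'
  · exact h j

/-- Adding a Fermat term. -/
theorem step_fermat {F : MvPolynomial (Fin (n + 1)) R} {d : ℕ} (hd : 2 ≤ d) (hd0 : (d : K) ≠ 0)
    (hF : F.IsHomogeneous d) (hs : IsSmooth K F) (hv : IsSRC K F) :
    ∃ F' : MvPolynomial (Fin (n + 1 + 1)) R, F'.IsHomogeneous d ∧ IsSmooth K F' ∧
      IsSRC K F' := by
  refine ⟨rename Fin.castSucc F + X (Fin.last (n + 1)) ^ d,
    (hF.rename_isHomogeneous).add (isHomogeneous_X_pow _ _), ?_, ?_⟩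
  · intro x hx h0
    by_contra hcon
    push Not at hcon
    have hl := hcon (Fin.last (n + 1))
    rw [← dir_single, dir_add, dir_rename_last, zero_add, dir_pow, dir_X, Pi.single_eq_same,
      mul_one, aeval_X] at hl
    have hxl : x (Fin.last (n + 1)) = 0 :=
      pow_eq_zero_iff (by omega) |>.mp ((mul_eq_zero.mp hl).resolve_left hd0)
    have h0' : aeval (fun i => x (Fin.castSucc i)) F = 0 := by
      rw [map_add, map_pow, aeval_X, hxl, zero_pow (by omega), add_zero, aeval_rename] at h0
      exact h0
    have hx' : (fun i => x (Fin.castSucc i)) ≠ 0 := by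
      intro h
      exact hx (cast_eq_zero x (fun i => congrFun h i) hxl)
    obtain ⟨i, hi⟩ := hs _ hx' h0'
    apply hi
    have := hcon (Fin.castSucc i)
    rw [← dir_single, dir_add, dir_rename_cast, dir_pow, aeval_X, hxl, zero_pow (by omega),
      mul_zero, zero_mul, add_zero, dir_single] at this
    exact this
  · obtain ⟨e, f, hf, hfv⟩ := hv
    refine ⟨e, ext0 f, ext_curve hf ?_, ext_veryFree hfv ?_ ?_⟩
    · rw [map_pow, aeval_X, ext0_last, zero_pow (by omega)]
    · intro w
      rw [dir_pow, aeval_X, ext0_last, zero_pow (by omega), mul_zero, zero_mul]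
    · intro a w
      rw [dir_pow, aeval_X, ext0_last, map_zero, zero_pow (by omega), mul_zero, zero_mul]

/-- Adding a mixed term, when the degree is zero in `K`. -/
theorem step_mixed {F : MvPolynomial (Fin (n + 1)) R} {d : ℕ} (hd : 3 ≤ d) (hd0 : (d : K) = 0)
    (hF : F.IsHomogeneous d) (hs : IsSmooth K F) (hj : ∃ j, SmoothSection K F j)
    (hv : IsSRC K F) :
    ∃ F' : MvPolynomial (Fin (n + 1 + 1)) R, F'.IsHomogeneous d ∧ IsSmooth K F' ∧
      (∃ j, SmoothSection K F' j) ∧ IsSRC K F' := by
  obtain ⟨j, hj⟩ := hj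
  have hH : ∀ {A : Type _} [CommRing A] [Algebra R A] (x : Fin (n + 1 + 1) → A)
      (w : Fin (n + 1 + 1) → A), x (Fin.last (n + 1)) = 0 →
      dir x w (X (Fin.last (n + 1)) ^ (d - 1) * X (Fin.castSucc j) :
        MvPolynomial (Fin (n + 1 + 1)) R) = 0 := by
    intro A _ _ x w hx
    rw [dir_mul, dir_pow, map_pow, aeval_X, hx, zero_pow (by omega), zero_pow (by omega)]
    ring
  refine ⟨rename Fin.castSucc F + X (Fin.last (n + 1)) ^ (d - 1) * X (Fin.castSucc j),
    (hF.rename_isHomogeneous).add ?_, ?_, ⟨Fin.last (n + 1), ?_⟩, ?_⟩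
  · have := (isHomogeneous_X_pow (R := R) (Fin.last (n + 1)) (d - 1)).mul
      (isHomogeneous_X R (Fin.castSucc j))
    rwa [Nat.sub_add_cancel (by omega)] at this
  · intro x hx h0
    by_contra hcon
    push Not at hcon
    have hl := hcon (Fin.last (n + 1))
    have hd1 : ((d - 1 : ℕ) : K) = -1 := by
      rw [Nat.cast_sub (by omega), hd0]; simp
    rw [← dir_single, dir_add, dir_rename_last, zero_add, dir_mul, dir_pow, dir_X, dir_X,
      Pi.single_eq_same, aeval_X, aeval_X, map_pow, aeval_X, hd1, Pi.single_apply,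
      if_neg (Fin.castSucc_lt_last j).ne] at hl
    have hl' : x (Fin.last (n + 1)) ^ (d - 1 - 1) * x (Fin.castSucc j) = 0 := by
      linear_combination -hl
    by_cases hxl : x (Fin.last (n + 1)) = 0
    · have h0' : aeval (fun i => x (Fin.castSucc i)) F = 0 := by
        rw [map_add, map_mul, map_pow, aeval_X, hxl, zero_pow (by omega), zero_mul, add_zero,
          aeval_rename] at h0
        exact h0
      have hx' : (fun i => x (Fin.castSucc i)) ≠ 0 := by
        intro h
        exact hx (cast_eq_zero x (fun i => congrFun h i) hxl)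
      obtain ⟨i, hi⟩ := hs _ hx' h0'
      apply hi
      have := hcon (Fin.castSucc i)
      rw [← dir_single, dir_add, dir_rename_cast, hH x _ hxl, add_zero, dir_single] at this
      exact this
    · have hxj : x (Fin.castSucc j) = 0 :=
        (mul_eq_zero.mp hl').resolve_left (pow_ne_zero _ hxl)
      have h0' : aeval (fun i => x (Fin.castSucc i)) F = 0 := by
        rw [map_add, map_mul, aeval_X, hxj, mul_zero, add_zero, aeval_rename] at h0
        exact h0
      have hpart : ∀ i, dir x (Pi.single (Fin.castSucc i) 1)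
          (X (Fin.last (n + 1)) ^ (d - 1) * X (Fin.castSucc j) :
            MvPolynomial (Fin (n + 1 + 1)) R) =
          x (Fin.last (n + 1)) ^ (d - 1) * (if j = i then 1 else 0) := by
        intro i
        rw [dir_mul, dir_pow, dir_X, dir_X, map_pow, aeval_X, aeval_X, hxj, Pi.single_apply,
          Pi.single_apply, mul_zero, zero_add]
        simp only [Fin.castSucc_inj]
      by_cases hx' : (fun i => x (Fin.castSucc i)) = 0
      · have := hcon (Fin.castSucc j)
        rw [← dir_single, dir_add, dir_rename_cast, hpart, if_pos rfl, mul_one, hx'] at this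
        have h1 : dir (0 : Fin (n + 1) → K) (Pi.single j 1) F = 0 := by
          rw [dir_single]
          have hp := hF.pderiv (i := j)
          -- evaluate at zero: the constant coefficient of a form of positive degree
          rw [aeval_def, eval₂_zero_apply]
          have : constantCoeff (pderiv j F) = 0 := by
            rw [constantCoeff_eq]
            by_contra hne
            have := hp hne
            simp at this
            omega
          rw [this, map_zero]
        rw [h1, zero_add] at this
        exact hxl (pow_eq_zero_iff (by omega) |>.mp this)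
      · obtain ⟨i, hij, hi⟩ := hj _ hx' hxj h0'
        apply hi
        have := hcon (Fin.castSucc i)
        rw [← dir_single, dir_add, dir_rename_cast, hpart, if_neg (Ne.symm hij), mul_zero,
          add_zero, dir_single] at this
        exact this
  · intro x hx hxl h0
    have h0' : aeval (fun i => x (Fin.castSucc i)) F = 0 := by
      rw [map_add, map_mul, map_pow, aeval_X, hxl, zero_pow (by omega), zero_mul, add_zero,
        aeval_rename] at h0
      exact h0
    have hx' : (fun i => x (Fin.castSucc i)) ≠ 0 := by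
      intro h
      exact hx (cast_eq_zero x (fun i => congrFun h i) hxl)
    obtain ⟨i, hi⟩ := hs _ hx' h0'
    refine ⟨Fin.castSucc i, (Fin.castSucc_lt_last i).ne, ?_⟩
    rw [← dir_single, dir_add, dir_rename_cast, hH x _ hxl, add_zero, dir_single]
    exact hi
  · obtain ⟨e, f, hf, hfv⟩ := hv
    refine ⟨e, ext0 f, ext_curve hf ?_, ext_veryFree hfv ?_ ?_⟩
    · rw [map_mul, map_pow, aeval_X, ext0_last, zero_pow (by omega), zero_mul]
    · intro w
      rw [dir_mul, dir_pow, map_pow, aeval_X, ext0_last, zero_pow (by omega),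
        zero_pow (by omega)]
      ring
    · intro a w
      exact hH _ w (by simp only [ext0_last, map_zero])

end

end Pool.Agent.H29.Fano
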