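import Pool.Agent.H29.Fano.SmoothC

/-!
Choice of the coefficients in case C.
-/

open MvPolynomial

set_option linter.unusedSectionVars false

namespace Pool.Agent.H29.Fano

section

variable {K : Type*} [Field K]

theorem sum_telescope (a b : K) (n m : ℕ) (hm : m ≤ n) :
    (b - a) * ∑ i ∈ Finset.Ico 1 (m + 1), a ^ (n - i) * b ^ i =
      a ^ (n - m) * b ^ (m + 1) - a ^ n * b := by
  induction m with
  | zero => simp
  | succ m ih =>
    rw [Finset.sum_Ico_succ_top (by omega), mul_add, ih (by omega),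
      show n - m = n - (m + 1) + 1 by omega, pow_succ a]
    ring

theorem sum_B {N : ℕ} (hN : 3 ≤ N) (a b : K)
    (h : ∑ i ∈ Finset.Ico 1 (N - 1), a ^ (N - 1 - i) * b ^ i = 0) (ha : a ≠ 0) (hb : b ≠ 0) :
    b ^ (N - 2) = a ^ (N - 2) := by
  have := sum_telescope a b (N - 1) (N - 2) (by omega)
  rw [show N - 2 + 1 = N - 1 by omega, h, mul_zero, show N - 1 - (N - 2) = 1 by omega,
    show N - 1 = N - 2 + 1 by omega] at this
  have h2 : (a * b) * (b ^ (N - 2) - a ^ (N - 2)) = 0 := by
    rw [pow_succ, pow_succ] at this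
    linear_combination -this
  have := (mul_eq_zero.mp h2).resolve_left (mul_ne_zero ha hb)
  exact sub_eq_zero.mp this

theorem sum_three {N : ℕ} (hN : 3 ≤ N) (g : ℕ → K) (u v w : K) :
    ∑ i ∈ Finset.Ico 1 N, ((if i = 1 then u else 0) + (if i = N - 2 then v else 0) +
      (if i = N - 1 then w else 0)) * g i = u * g 1 + v * g (N - 2) + w * g (N - 1) := by
  have : ∀ i ∈ Finset.Ico 1 N, ((if i = 1 then u else 0) + (if i = N - 2 then v else 0) +
      (if i = N - 1 then w else 0)) * g i =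
      (if i = 1 then u * g 1 else 0) + (if i = N - 2 then v * g (N - 2) else 0) +
      (if i = N - 1 then w * g (N - 1) else 0) := by
    intro i _
    rw [add_mul, add_mul]
    congr 1
    · congr 1
      · split_ifs with h
        · rw [h]
        · rw [zero_mul]
      · split_ifs with h
        · rw [← h]
        · rw [zero_mul]
    · split_ifs with h
      · rw [← h]
      · rw [zero_mul]
  rw [Finset.sum_congr rfl this, Finset.sum_add_distrib, Finset.sum_add_distrib,
    Finset.sum_ite_eq', Finset.sum_ite_eq', Finset.sum_ite_eq',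
    if_pos (Finset.mem_Ico.mpr ⟨by omega, by omega⟩),
    if_pos (Finset.mem_Ico.mpr ⟨by omega, by omega⟩),
    if_pos (Finset.mem_Ico.mpr ⟨by omega, by omega⟩)]

end

/-- The coefficients in odd characteristic. -/
def dodd (p N : ℕ) : ℕ → ZMod p := fun i =>
  (if i = 1 then 1 else 0) + (if i = N - 2 then 1 else 0) + (if i = N - 1 then -1 else 0)

section

variable {p : ℕ} [Fact p.Prime] {K : Type*} [Field K] [Algebra (ZMod p) K]

theorem dodd_map (N i : ℕ) : algebraMap (ZMod p) K (dodd p N i) =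
    (if i = 1 then 1 else 0) + (if i = N - 2 then 1 else 0) + (if i = N - 1 then -1 else 0) := by
  unfold dodd
  rw [map_add, map_add]
  congr 1
  · congr 1
    · split_ifs <;> simp
    · split_ifs <;> simp
  · split_ifs <;> simp

theorem dodd_hB {N : ℕ} (hN : 3 ≤ N) (hN0 : (N : K) = 0) (h2 : (2 : K) ≠ 0) (a b : K)
    (hab : ¬ (a = 0 ∧ b = 0))
    (h : ∑ i ∈ Finset.Ico 1 (N - 1), a ^ (N - 1 - i) * b ^ i = 0)
    (h' : ∑ i ∈ Finset.Ico 1 N, algebraMap (ZMod p) K (dodd p N i) * (i : K) *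
        (a ^ (N - 1 - i) * b ^ (i - 1)) = 0) : False := by
  have e : a ^ (N - 2) - 2 * (a * b ^ (N - 3)) + b ^ (N - 2) = 0 := by
    rw [← h']
    have : ∀ i ∈ Finset.Ico 1 N, algebraMap (ZMod p) K (dodd p N i) * (i : K) *
        (a ^ (N - 1 - i) * b ^ (i - 1)) = ((if i = 1 then 1 else 0) + (if i = N - 2 then 1 else 0) +
      (if i = N - 1 then -1 else 0)) * ((i : K) * (a ^ (N - 1 - i) * b ^ (i - 1))) := by
      intro i _
      rw [dodd_map, mul_assoc]
    rw [Finset.sum_congr rfl this, sum_three hN]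
    rw [show N - 1 - 1 = N - 2 by omega, show N - 1 - (N - 2) = 1 by omega,
      show N - 2 - 1 = N - 3 by omega, Nat.sub_self, Nat.sub_self, Nat.cast_sub (by omega),
      Nat.cast_sub (by omega), hN0]
    push_cast
    ring
  by_cases ha : a = 0
  · have hb : b ≠ 0 := fun hb => hab ⟨ha, hb⟩
    rw [ha, zero_pow (by omega), zero_mul, mul_zero, zero_sub, neg_zero, zero_add] at e
    exact pow_ne_zero _ hb e
  by_cases hb : b = 0
  · rw [hb, zero_pow (show N - 2 ≠ 0 by omega), add_zero] at e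
    rcases Nat.lt_or_ge N 4 with h3 | h3
    · have : N = 3 := by omega
      subst this
      norm_num at e
      have : -a = 0 := by linear_combination e
      exact ha (neg_eq_zero.mp this)
    · rw [zero_pow (by omega), mul_zero, mul_zero, sub_zero] at e
      exact pow_ne_zero _ ha e
  have hpow := sum_B hN a b h ha hb
  have e2 : 2 * a ^ (N - 2) * (b - a) = 0 := by
    have h3 : b ^ (N - 2) = b ^ (N - 3) * b := by
      rw [← pow_succ]; congr 1; omega
    have : b * (a ^ (N - 2) - 2 * (a * b ^ (N - 3)) + b ^ (N - 2)) = 0 := by rw [e, mul_zero]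
    linear_combination this + 2 * a * hpow - b * hpow - 2 * a * h3
  have hba : b = a := by
    have := (mul_eq_zero.mp e2).resolve_left (mul_ne_zero h2 (pow_ne_zero _ ha))
    exact sub_eq_zero.mp this
  have e3 : ∑ i ∈ Finset.Ico 1 (N - 1), a ^ (N - 1 - i) * b ^ i =
      ((N - 2 : ℕ) : K) * a ^ (N - 1) := by
    rw [hba]
    have : ∀ i ∈ Finset.Ico 1 (N - 1), a ^ (N - 1 - i) * a ^ i = a ^ (N - 1) := by
      intro i hi
      rw [Finset.mem_Ico] at hi
      rw [← pow_add, Nat.sub_add_cancel (by omega)]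
    rw [Finset.sum_congr rfl this, Finset.sum_const, Nat.card_Ico, nsmul_eq_mul,
      show N - 1 - 1 = N - 2 by omega]
  rw [e3, Nat.cast_sub (by omega), hN0] at h
  have := (mul_eq_zero.mp h).resolve_right (pow_ne_zero _ ha)
  apply h2
  push_cast at this
  linear_combination -this

theorem FC_section_three (hN0 : ((3 : ℕ) : K) = 0) (d : ℕ → ZMod p)
    (hd1 : algebraMap (ZMod p) K (d 1) ≠ 0) (hd2 : algebraMap (ZMod p) K (d 2) ≠ 0) :
    SmoothSection K (FC 3 d) (vv 3 2) := by
  intro x hx hxj h0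
  by_contra hcon
  push Not at hcon
  have hp : ∀ j, j ≤ 3 → j ≠ 2 → dir x (Pi.single (vv 3 j) 1) (FC 3 d) = 0 :=
    fun j hj hj' => by
      rw [dir_single]
      exact hcon _ (fun h => hj' ((vv_inj hj (by omega)).mp h))
  have p1 := hp 1 (by omega) (by omega)
  rw [dFC_one le_rfl hN0, hxj, mul_zero, neg_zero, zero_sub, neg_eq_zero] at p1
  have p1' : x (vv 3 0) * x (vv 3 3) = 0 := by
    rw [show (3 - 1 : ℕ) = 1 + 1 by rfl, Finset.sum_Ico_succ_top (by omega)] at p1
    simpa using p1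
  have p0 := hp 0 (by omega) (by omega)
  rw [dFC_zero le_rfl hN0] at p0
  have p3 := hp 3 (by omega) (by omega)
  rw [dFC_last le_rfl hN0] at p3
  rw [FC, map_add, aeval_GC, aeval_FA] at h0
  rw [show (3 - 1 : ℕ) = 1 + 1 by rfl, Finset.sum_Ico_succ_top (by omega)] at h0 p0 p3
  rw [show Finset.Ico 1 3 = {1, 2} by rfl, Finset.sum_pair (by omega)] at h0 p0 p3
  simp only [Finset.Ico_self, Finset.sum_empty, zero_add] at h0 p0 p3
  norm_num at h0 p0 p3
  rw [hxj] at h0
  have hx1 : x (vv 3 1) = 0 := by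
    have : algebraMap (ZMod p) K (d 1) * x (vv 3 1) ^ 3 = 0 := by
      linear_combination h0 + (x (vv 3 1) + algebraMap (ZMod p) K (d 1) * x (vv 3 0) +
        algebraMap (ZMod p) K (d 2) * x (vv 3 3)) * p1'
    exact pow_eq_zero_iff (by omega) |>.mp ((mul_eq_zero.mp this).resolve_left hd1)
  have hx0 : x (vv 3 0) = 0 := by
    have : algebraMap (ZMod p) K (d 1) * x (vv 3 0) ^ 2 = 0 := by
      rw [hx1] at p3
      linear_combination -p3 - 2 * algebraMap (ZMod p) K (d 2) * p1'
    exact pow_eq_zero_iff (by omega) |>.mp ((mul_eq_zero.mp this).resolve_left hd1)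
  have hx3 : x (vv 3 3) = 0 := by
    have : algebraMap (ZMod p) K (d 2) * x (vv 3 3) ^ 2 = 0 := by
      rw [hx1] at p0
      linear_combination -p0 - 2 * algebraMap (ZMod p) K (d 1) * p1'
    exact pow_eq_zero_iff (by omega) |>.mp ((mul_eq_zero.mp this).resolve_left hd2)
  apply hx
  apply eq_zero_of_all
  intro i hi
  interval_cases i
  · exact hx0
  · exact hx1
  · exact hxj
  · exact hx3

/-- Case C in odd characteristic. -/
theorem caseC_odd {N : ℕ} (hN : 3 ≤ N) (hp : p ≠ 2) (hpN : p ∣ N) :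
    ∃ F : MvPolynomial (Fin (N + 1)) (ZMod p), F.IsHomogeneous N ∧ IsSmooth K F ∧
      (∃ j, SmoothSection K F j) ∧
      IsRationalCurve F (N - 1) (rnc K N) ∧ IsVeryFree F (N - 1) (rnc K N) := by
  have : CharP K p := charP_of_injective_algebraMap (algebraMap (ZMod p) K).injective p
  have hpr : p.Prime := Fact.out
  have hN0 : (N : K) = 0 := (CharP.cast_eq_zero_iff K p N).mpr hpN
  have h2 : (2 : K) ≠ 0 := by
    intro h
    have : ((2 : ℕ) : K) = 0 := by exact_mod_cast h
    have := (CharP.cast_eq_zero_iff K p 2).mp this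
    exact hp ((Nat.prime_dvd_prime_iff_eq hpr Nat.prime_two).mp this)
  have hd1 : algebraMap (ZMod p) K (dodd p N 1) ≠ 0 := by
    rw [dodd_map, if_pos rfl]
    rcases Nat.lt_or_ge N 4 with h | h
    · rw [if_pos (by omega), if_neg (by omega), add_zero]
      norm_num; exact h2
    · rw [if_neg (by omega), if_neg (by omega)]; simp
  have hdN : algebraMap (ZMod p) K (dodd p N (N - 1)) ≠ 0 := by
    rw [dodd_map, if_neg (by omega), if_neg (by omega), if_pos rfl]; simp
  refine ⟨FC N (dodd p N), FC_hom (by omega) _, FC_smooth hN hN0 _ hdN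
    (fun a b h1 h2' h3 => dodd_hB hN hN0 h2 a b h1 h2' h3), ⟨vv N (N - 1), ?_⟩,
    rnc_isRationalCurve (by omega) (FC_rnc hN _), FC_veryFree hN hN0 _ hd1 hdN⟩
  rcases Nat.lt_or_ge N 4 with h | h
  · have : N = 3 := by omega
    subst this
    exact FC_section_three hN0 _ hd1 hdN
  · refine FC_section h hN0 _ ?_ (fun a b h1 h2' h3 => dodd_hB hN hN0 h2 a b h1 h2' h3)
    rw [dodd_map, if_neg (by omega), if_pos rfl, if_neg (by omega)]; simp

end

/-- The coefficients in characteristic two. -/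
def dtwo (N : ℕ) : ℕ → ZMod 2 := fun i =>
  ((if i = 1 then 1 else 0) + (if i = N - 2 then 1 else 0) + (if i = N - 1 then 1 else 0)) +
    (if i = 3 then 1 else 0)

section

variable {K : Type*} [Field K] [Algebra (ZMod 2) K]

theorem dtwo_map (N i : ℕ) : algebraMap (ZMod 2) K (dtwo N i) =
    ((if i = 1 then 1 else 0) + (if i = N - 2 then 1 else 0) + (if i = N - 1 then 1 else 0)) +
    (if i = 3 then 1 else 0) := by
  unfold dtwo
  rw [map_add, map_add, map_add]
  congr 1
  · congr 1
    · congr 1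
      · split_ifs <;> simp
      · split_ifs <;> simp
    · split_ifs <;> simp
  · split_ifs <;> simp

theorem dtwo_hB {N : ℕ} (hN : 6 ≤ N) (hN0 : (N : K) = 0) (h2 : (2 : K) = 0) (a b : K)
    (hab : ¬ (a = 0 ∧ b = 0))
    (h : ∑ i ∈ Finset.Ico 1 (N - 1), a ^ (N - 1 - i) * b ^ i = 0)
    (h' : ∑ i ∈ Finset.Ico 1 N, algebraMap (ZMod 2) K (dtwo N i) * (i : K) *
        (a ^ (N - 1 - i) * b ^ (i - 1)) = 0) : False := by
  have e : a ^ (N - 2) + a ^ (N - 4) * b ^ 2 + b ^ (N - 2) = 0 := by
    rw [← h']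
    have : ∀ i ∈ Finset.Ico 1 N, algebraMap (ZMod 2) K (dtwo N i) * (i : K) *
        (a ^ (N - 1 - i) * b ^ (i - 1)) = ((if i = 1 then 1 else 0) + (if i = N - 2 then 1 else 0) +
      (if i = N - 1 then 1 else 0)) * ((i : K) * (a ^ (N - 1 - i) * b ^ (i - 1))) +
      (if i = 3 then (3 : K) * (a ^ (N - 4) * b ^ 2) else 0) := by
      intro i _
      rw [dtwo_map, mul_assoc, add_mul]
      congr 1
      split_ifs with h3
      · rw [h3, one_mul, show N - 1 - 3 = N - 4 by omega]; norm_num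
      · rw [zero_mul]
    rw [Finset.sum_congr rfl this, Finset.sum_add_distrib, sum_three (by omega),
      Finset.sum_ite_eq', if_pos (Finset.mem_Ico.mpr ⟨by omega, by omega⟩)]
    rw [show N - 1 - 1 = N - 2 by omega, show N - 1 - (N - 2) = 1 by omega,
      show N - 2 - 1 = N - 3 by omega, Nat.sub_self, Nat.sub_self, Nat.cast_sub (by omega),
      Nat.cast_sub (by omega), hN0]
    push_cast
    linear_combination (a * b ^ (N - 3) + b ^ (N - 2) - a ^ (N - 4) * b ^ 2) * h2
  by_cases ha : a = 0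
  · have hb : b ≠ 0 := fun hb => hab ⟨ha, hb⟩
    rw [ha, zero_pow (by omega), zero_pow (by omega), zero_mul, zero_add, zero_add] at e
    exact pow_ne_zero _ hb e
  by_cases hb : b = 0
  · rw [hb, zero_pow (show N - 2 ≠ 0 by omega), zero_pow (show 2 ≠ 0 by omega), mul_zero,
      add_zero, add_zero] at e
    exact pow_ne_zero _ ha e
  have hpow := sum_B (by omega) a b h ha hb
  have : a ^ (N - 4) * b ^ 2 = 0 := by
    linear_combination e - hpow - a ^ (N - 2) * h2
  exact mul_ne_zero (pow_ne_zero _ ha) (pow_ne_zero _ hb) this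

/-- Case C in characteristic two, degree at least six. -/
theorem caseC_two {N : ℕ} (hN : 6 ≤ N) (hpN : 2 ∣ N) :
    ∃ F : MvPolynomial (Fin (N + 1)) (ZMod 2), F.IsHomogeneous N ∧ IsSmooth K F ∧
      (∃ j, SmoothSection K F j) ∧
      IsRationalCurve F (N - 1) (rnc K N) ∧ IsVeryFree F (N - 1) (rnc K N) := by
  have : CharP K 2 := charP_of_injective_algebraMap (algebraMap (ZMod 2) K).injective 2
  have hN0 : (N : K) = 0 := (CharP.cast_eq_zero_iff K 2 N).mpr hpN
  have h2 : (2 : K) = 0 := by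
    have := (CharP.cast_eq_zero_iff K 2 2).mpr dvd_rfl
    exact_mod_cast this
  have hd1 : algebraMap (ZMod 2) K (dtwo N 1) ≠ 0 := by
    rw [dtwo_map, if_pos rfl, if_neg (by omega), if_neg (by omega), if_neg (by omega)]; simp
  have hdN : algebraMap (ZMod 2) K (dtwo N (N - 1)) ≠ 0 := by
    rw [dtwo_map, if_neg (by omega), if_neg (by omega), if_pos rfl, if_neg (by omega)]; simp
  refine ⟨FC N (dtwo N), FC_hom (by omega) _, FC_smooth (by omega) hN0 _ hdN
    (fun a b h1 h2' h3 => dtwo_hB hN hN0 h2 a b h1 h2' h3), ⟨vv N (N - 1), ?_⟩,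
    rnc_isRationalCurve (by omega) (FC_rnc (by omega) _), FC_veryFree (by omega) hN0 _ hd1 hdN⟩
  refine FC_section (by omega) hN0 _ ?_ (fun a b h1 h2' h3 => dtwo_hB hN hN0 h2 a b h1 h2' h3)
  rw [dtwo_map, if_neg (by omega), if_pos rfl, if_neg (by omega), if_neg (by omega)]; simp

end

end Pool.Agent.H29.Fano
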