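import Pool.Agent.H29.Fano.Basic

/-!
Binary forms: monomials, factorization of a form vanishing at a point, and the criterion
for a rational curve to be very free.
-/

open MvPolynomial

set_option linter.unusedSectionVars false

namespace Pool.Agent.H29.Fano

section mon

variable (K : Type*) [Field K]

/-- The monomial `s ^ (D - r) * t ^ r`. -/
noncomputable def Mon (D r : ℕ) : MvPolynomial (Fin 2) K := X 0 ^ (D - r) * X 1 ^ r

variable {K}

theorem Mon_hom {D r : ℕ} (h : r ≤ D) : (Mon K D r).IsHomogeneous D := by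
  have h1 : (X 0 ^ (D - r) * X 1 ^ r : MvPolynomial (Fin 2) K).IsHomogeneous (D - r + r) :=
    (isHomogeneous_X_pow 0 _).mul (isHomogeneous_X_pow 1 _)
  rwa [Nat.sub_add_cancel h] at h1

theorem Mon_mul {D r D' r' : ℕ} (h : r ≤ D) (h' : r' ≤ D') :
    Mon K D r * Mon K D' r' = Mon K (D + D') (r + r') := by
  simp only [Mon]
  rw [show D + D' - (r + r') = (D - r) + (D' - r') by omega, pow_add, pow_add]
  ring

theorem Mon_zero_zero : Mon K 0 0 = 1 := by simp [Mon]

theorem Mon_pow {D r : ℕ} (h : r ≤ D) (k : ℕ) : Mon K D r ^ k = Mon K (k * D) (k * r) := by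
  induction k with
  | zero => simp [Mon]
  | succ k ih =>
    rw [pow_succ, ih, Mon_mul (Nat.mul_le_mul_left k h) h]
    congr 1 <;> ring

theorem eval_Mon (a : Fin 2 → K) (D r : ℕ) : eval a (Mon K D r) = a 0 ^ (D - r) * a 1 ^ r := by
  simp [Mon]

theorem mem_of_forall_Mon {D : ℕ} (V : Submodule K (MvPolynomial (Fin 2) K))
    (hV : ∀ r, r ≤ D → Mon K D r ∈ V) {G : MvPolynomial (Fin 2) K} (hG : G.IsHomogeneous D) :
    G ∈ V := by
  rw [G.as_sum]
  refine Submodule.sum_mem _ fun m hm => ?_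
  have h1 := hG (mem_support_iff.mp hm)
  have h2 : m 0 + m 1 = D := by
    rw [← h1, Finsupp.weight_apply, Finsupp.sum_fintype _ _ (by simp)]
    simp
  have h3 : (monomial m (coeff m G) : MvPolynomial (Fin 2) K) = coeff m G • Mon K D (m 1) := by
    rw [Mon, show D - m 1 = m 0 by omega, monomial_eq, Finsupp.prod_fintype _ _ (by simp)]
    simp [smul_eq_C_mul]
  rw [h3]
  exact Submodule.smul_mem _ _ (hV _ (by omega))

/-- The linear form vanishing at `a`. -/
noncomputable def lin (a : Fin 2 → K) : MvPolynomial (Fin 2) K := C (a 1) * X 0 - C (a 0) * X 1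

theorem eval_lin (a : Fin 2 → K) : eval a (lin a) = 0 := by
  simp [lin]; ring

theorem lin_hom (a : Fin 2 → K) : (lin a).IsHomogeneous 1 :=
  ((isHomogeneous_X K 0).C_mul _).sub ((isHomogeneous_X K 1).C_mul _)

theorem exists_factor {D : ℕ} {a : Fin 2 → K} (ha : a ≠ 0) {H : MvPolynomial (Fin 2) K}
    (hH : H.IsHomogeneous (D + 1)) (h0 : eval a H = 0) :
    ∃ G : MvPolynomial (Fin 2) K, G.IsHomogeneous D ∧ H = lin a * G := by
  by_cases ha0 : a 0 = 0
  · have ha1 : a 1 ≠ 0 := by
      intro h1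
      exact ha (funext fun i => by fin_cases i <;> simp [ha0, h1])
    -- the submodule
    let V : Submodule K (MvPolynomial (Fin 2) K) :=
      { carrier := {H | ∃ (c : K) (G : MvPolynomial (Fin 2) K), G.IsHomogeneous D ∧
          H = C c * X 1 ^ (D + 1) + lin a * G}
        add_mem' := by
          rintro x y ⟨c, G, hG, rfl⟩ ⟨c', G', hG', rfl⟩
          exact ⟨c + c', G + G', hG.add hG', by rw [C_add]; ring⟩
        zero_mem' := ⟨0, 0, isHomogeneous_zero _ _ _, by simp⟩
        smul_mem' := by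
          rintro r x ⟨c, G, hG, rfl⟩
          exact ⟨r * c, C r * G, hG.C_mul _, by rw [smul_eq_C_mul, C_mul]; ring⟩ }
    have hV : H ∈ V := by
      refine mem_of_forall_Mon V (fun r hr => ?_) hH
      rcases Nat.lt_or_ge r (D + 1) with h | h
      · refine ⟨0, C (a 1)⁻¹ * Mon K D r, (Mon_hom (by omega)).C_mul _, ?_⟩
        simp only [lin, ha0, Mon, C_0, zero_mul, sub_zero, zero_add]
        rw [show D + 1 - r = (D - r) + 1 by omega, pow_succ]
        have : (C (a 1) * C (a 1)⁻¹ : MvPolynomial (Fin 2) K) = 1 := by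
          rw [← C_mul, mul_inv_cancel₀ ha1, C_1]
        linear_combination (-(X 0 ^ (D - r) * X 0 * X 1 ^ r)) * this
      · have : r = D + 1 := by omega
        subst this
        exact ⟨1, 0, isHomogeneous_zero _ _ _, by simp [Mon]⟩
    obtain ⟨c, G, hG, rfl⟩ := hV
    refine ⟨G, hG, ?_⟩
    simp only [map_add, map_mul, eval_C, map_pow, eval_X, eval_lin, zero_mul, add_zero] at h0
    have : c = 0 := by
      rcases mul_eq_zero.mp h0 with h | h
      · exact h
      · exact absurd h (pow_ne_zero _ ha1)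
    simp [this]
  · let V : Submodule K (MvPolynomial (Fin 2) K) :=
      { carrier := {H | ∃ (c : K) (G : MvPolynomial (Fin 2) K), G.IsHomogeneous D ∧
          H = C c * X 0 ^ (D + 1) + lin a * G}
        add_mem' := by
          rintro x y ⟨c, G, hG, rfl⟩ ⟨c', G', hG', rfl⟩
          exact ⟨c + c', G + G', hG.add hG', by rw [C_add]; ring⟩
        zero_mem' := ⟨0, 0, isHomogeneous_zero _ _ _, by simp⟩
        smul_mem' := by
          rintro r x ⟨c, G, hG, rfl⟩
          exact ⟨r * c, C r * G, hG.C_mul _, by rw [smul_eq_C_mul, C_mul]; ring⟩ }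
    have hV : H ∈ V := by
      refine mem_of_forall_Mon V (fun r hr => ?_) hH
      induction r with
      | zero => exact ⟨1, 0, isHomogeneous_zero _ _ _, by simp [Mon]⟩
      | succ r ih =>
        obtain ⟨c, G, hG, h⟩ := ih (by omega)
        refine ⟨a 1 * (a 0)⁻¹ * c, C (a 1 * (a 0)⁻¹) * G - C (a 0)⁻¹ * Mon K D r,
          (hG.C_mul _).sub ((Mon_hom (by omega)).C_mul _), ?_⟩
        have e1 : (C (a 0) * C (a 0)⁻¹ : MvPolynomial (Fin 2) K) = 1 := by
          rw [← C_mul, mul_inv_cancel₀ ha0, C_1]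
        have e2 : Mon K (D + 1) r = X 0 * Mon K D r := by
          simp only [Mon]
          rw [show D + 1 - r = (D - r) + 1 by omega, pow_succ]; ring
        have e3 : Mon K (D + 1) (r + 1) = X 1 * Mon K D r := by
          simp only [Mon]
          rw [show D + 1 - (r + 1) = (D - r) by omega, pow_succ]; ring
        rw [e2] at h
        rw [e3]
        simp only [C_mul]
        have e4 : lin a = C (a 1) * X 0 - C (a 0) * X 1 := rfl
        rw [e4] at h ⊢
        linear_combination (-(X 1 * Mon K D r)) * e1 + C (a 1) * C (a 0)⁻¹ * h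
    obtain ⟨c, G, hG, rfl⟩ := hV
    refine ⟨G, hG, ?_⟩
    simp only [map_add, map_mul, eval_C, map_pow, eval_X, eval_lin, zero_mul, add_zero] at h0
    have : c = 0 := by
      rcases mul_eq_zero.mp h0 with h | h
      · exact h
      · exact absurd h (pow_ne_zero _ ha0)
    simp [this]

/-- A linear form with value `1` at a given non-zero point. -/
theorem exists_lin_one {a : Fin 2 → K} (ha : a ≠ 0) :
    ∃ l : MvPolynomial (Fin 2) K, l.IsHomogeneous 1 ∧ eval a l = 1 := by
  by_cases ha0 : a 0 = 0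
  · have ha1 : a 1 ≠ 0 := by
      intro h1
      exact ha (funext fun i => by fin_cases i <;> simp [ha0, h1])
    exact ⟨C (a 1)⁻¹ * X 1, (isHomogeneous_X K 1).C_mul _, by simp [ha1]⟩
  · exact ⟨C (a 0)⁻¹ * X 0, (isHomogeneous_X K 0).C_mul _, by simp [ha0]⟩

end mon

section lift

variable {R K : Type*} [CommRing R] [Field K] [Algebra R K] {n : ℕ}

theorem dir_hom {F : MvPolynomial (Fin (n + 1)) R} {d e k : ℕ} (hF : F.IsHomogeneous d)
    {f g : Fin (n + 1) → MvPolynomial (Fin 2) K}
    (hf : ∀ i, (f i).IsHomogeneous e) (hg : ∀ i, (g i).IsHomogeneous k) :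
    (dir f g F).IsHomogeneous (e * (d - 1) + k) :=
  IsHomogeneous.sum _ _ _ fun i _ => ((hF.pderiv).aeval f hf).mul (hg i)

/-- The forms `G` such that `lin a * G` is the derivative of `F` along `f` in a direction whose
value at `a` is proportional to `f a`. -/
noncomputable def liftSub (F : MvPolynomial (Fin (n + 1)) R)
    (f : Fin (n + 1) → MvPolynomial (Fin 2) K) (e : ℕ) (a : Fin 2 → K) :
    Submodule K (MvPolynomial (Fin 2) K) where
  carrier := {G | ∃ g : Fin (n + 1) → MvPolynomial (Fin 2) K, (∀ i, (g i).IsHomogeneous e) ∧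
    (∃ c : K, ∀ i, eval a (g i) = c * eval a (f i)) ∧ dir f g F = lin a * G}
  add_mem' := by
    rintro x y ⟨g, hg, ⟨c, hc⟩, h⟩ ⟨g', hg', ⟨c', hc'⟩, h'⟩
    refine ⟨g + g', fun i => (hg i).add (hg' i), ⟨c + c', fun i => ?_⟩, ?_⟩
    · simp [hc i, hc' i, add_mul]
    · rw [dir_add_right, h, h', mul_add]
  zero_mem' := ⟨0, fun i => isHomogeneous_zero _ _ _, ⟨0, fun i => by simp⟩, by
    rw [dir_zero_right, mul_zero]⟩
  smul_mem' := by
    rintro r x ⟨g, hg, ⟨c, hc⟩, h⟩
    refine ⟨fun i => C r * g i, fun i => (hg i).C_mul _, ⟨r * c, fun i => ?_⟩, ?_⟩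
    · simp [hc i, mul_assoc]
    · rw [dir_smul_right, h, smul_eq_C_mul]; ring

theorem isVeryFree_of_lift {F : MvPolynomial (Fin (n + 1)) R} {d e D : ℕ}
    (hF : F.IsHomogeneous d) {f : Fin (n + 1) → MvPolynomial (Fin 2) K}
    (hf : ∀ i, (f i).IsHomogeneous (e + 1)) (hD : (e + 1) * (d - 1) + e = D + 1)
    (h : ∀ a : Fin 2 → K, a ≠ 0 → ∀ r, r ≤ D → Mon K D r ∈ liftSub F f e a) :
    IsVeryFree F e f := by
  intro a ha w hw
  obtain ⟨l, hl, hl1⟩ := exists_lin_one ha
  set v0 : Fin (n + 1) → MvPolynomial (Fin 2) K := fun i => C (w i) * l ^ e with hv0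
  have hv0h : ∀ i, (v0 i).IsHomogeneous e := fun i => by
    have := (hl.pow e).C_mul (w i)
    simpa using this
  have hdir : (dir f v0 F).IsHomogeneous (D + 1) := by
    rw [← hD]; exact dir_hom hF hf hv0h
  have hev : eval a (dir f v0 F) = 0 := by
    simp only [dir, map_sum, map_mul, eval_aeval, hv0, eval_C, map_pow, hl1, one_pow, mul_one]
    exact hw
  obtain ⟨G, hG, hGe⟩ := exists_factor ha hdir hev
  obtain ⟨g, hg, ⟨c, hc⟩, hgG⟩ := mem_of_forall_Mon (liftSub F f e a) (h a ha) hG
  refine ⟨v0 - g, fun i => (hv0h i).sub (hg i), ?_, c, fun i => ?_⟩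
  · have := dir_sub_right f v0 g F
    rw [hGe, hgG, sub_self] at this
    exact this
  · simp [hv0, hl1, hc i]

end lift

end Pool.Agent.H29.Fano
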