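import Pool.Agent.H29.Fano.Extend

/-!
Degrees one and two.
-/

open MvPolynomial

set_option linter.unusedSectionVars false

namespace Pool.Agent.H29.Fano

variable {R K : Type*} [CommRing R] [Field K] [Algebra R K]

/-- Hyperplanes. -/
theorem degree_one {n : ℕ} (hn : 2 ≤ n) :
    ∃ F : MvPolynomial (Fin (n + 1)) R, F.IsHomogeneous 1 ∧ IsSmooth K F ∧ IsSRC K F := by
  refine ⟨X (vv n 0), isHomogeneous_X _ _, ?_, 0,
    fun i => if (i : ℕ) = 1 then X 0 else if (i : ℕ) = 2 then X 1 else 0, ⟨?_, ?_, ?_⟩, ?_⟩
  · intro x _ _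
    exact ⟨vv n 0, by rw [pderiv_X_self]; simp⟩
  · intro i
    simp only
    split_ifs
    · exact isHomogeneous_X _ _
    · exact isHomogeneous_X _ _
    · exact isHomogeneous_zero _ _ _
  · intro a ha
    by_cases ha0 : a 0 = 0
    · refine ⟨vv n 2, ?_⟩
      dsimp only
      rw [vv_val (by omega)]
      simp only [OfNat.ofNat_ne_one, if_false, if_true, eval_X]
      intro h1
      exact ha (funext fun i => by fin_cases i <;> simp [ha0, h1])
    · refine ⟨vv n 1, ?_⟩
      dsimp only
      rw [vv_val (by omega)]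
      simpa using ha0
  · rw [aeval_X, vv_val (by omega)]; simp
  · intro a _ w hw
    have hw' : dir (fun j : Fin (n + 1) => eval a (if (j : ℕ) = 1 then X 0 else
      if (j : ℕ) = 2 then X 1 else 0 : MvPolynomial (Fin 2) K)) w (X (vv n 0) :
        MvPolynomial (Fin (n + 1)) R) = 0 := hw
    rw [dir_X] at hw'
    refine ⟨fun i => C (w i), fun i => isHomogeneous_C _ _, ?_, 0, fun i => by simp⟩
    have : dir (fun j : Fin (n + 1) => (if (j : ℕ) = 1 then X 0 else
      if (j : ℕ) = 2 then X 1 else 0 : MvPolynomial (Fin 2) K)) (fun i => C (w i))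
        (X (vv n 0) : MvPolynomial (Fin (n + 1)) R) = 0 := by
      rw [dir_X, hw', C_0]
    exact this

/-- The conic. -/
theorem conic : ∃ F : MvPolynomial (Fin (2 + 1)) R, F.IsHomogeneous 2 ∧ IsSmooth K F ∧
    IsSRC K F := by
  set F : MvPolynomial (Fin (2 + 1)) R := X (vv 2 0) * X (vv 2 2) - X (vv 2 1) ^ 2 with hFdef
  have hF : F.IsHomogeneous 2 :=
    ((isHomogeneous_X _ _).mul (isHomogeneous_X _ _)).sub (isHomogeneous_X_pow _ _)
  have d0 : ∀ {A : Type _} [CommRing A] [Algebra R A] (x : Fin (2 + 1) → A),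
      dir x (Pi.single (vv 2 0) 1) F = x (vv 2 2) := by
    intro A _ _ x
    simp only [hFdef, dir_sub, dir_mul, dir_pow, dir_X, aeval_X]
    rw [single_vv (by omega) (by omega), single_vv (by omega) (by omega),
      single_vv (by omega) (by omega)]
    norm_num
  have d2 : ∀ {A : Type _} [CommRing A] [Algebra R A] (x : Fin (2 + 1) → A),
      dir x (Pi.single (vv 2 2) 1) F = x (vv 2 0) := by
    intro A _ _ x
    simp only [hFdef, dir_sub, dir_mul, dir_pow, dir_X, aeval_X]
    rw [single_vv (by omega) (by omega), single_vv (by omega) (by omega),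
      single_vv (by omega) (by omega)]
    norm_num
  have hrnc : aeval (rnc K 2) F = 0 := by
    simp only [hFdef, map_sub, map_mul, map_pow, aeval_X]
    rw [rnc_vv (by omega), rnc_vv (by omega), rnc_vv (by omega)]
    simp only [Mon]
    norm_num
    ring
  refine ⟨F, hF, ?_, 2 - 1, rnc K 2, rnc_isRationalCurve (by omega) hrnc, ?_⟩
  · intro x hx h0
    by_contra hcon
    push Not at hcon
    have hp : ∀ j, dir x (Pi.single (vv 2 j) 1) F = 0 := fun j => by
      rw [dir_single]; exact hcon _
    have p0 := hp 0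
    have p2 := hp 2
    rw [d0] at p0
    rw [d2] at p2
    simp only [hFdef, map_sub, map_mul, map_pow, aeval_X, p0, p2] at h0
    have p1 : x (vv 2 1) = 0 := by
      have : x (vv 2 1) ^ 2 = 0 := by linear_combination -h0
      exact pow_eq_zero_iff (by omega) |>.mp this
    apply hx
    apply eq_zero_of_all
    intro i hi
    interval_cases i <;> assumption
  · refine rnc_isVeryFree (by omega) hF hrnc fun V hV hG => ?_
    have h0 : Mon K 2 0 ∈ V := by
      have h := hV 2 (by omega) 0 (by omega)
      rw [d2, rnc_vv (by omega), show 2 - 2 = 0 by rfl, Mon_zero_zero, mul_one] at h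
      exact h
    have h2 : Mon K 2 2 ∈ V := by
      have h := hV 0 (by omega) 0 (by omega)
      rw [d0, rnc_vv (by omega), show 2 - 2 = 0 by rfl, Mon_zero_zero, mul_one] at h
      exact h
    have h1 : Mon K 2 1 ∈ V := by
      apply hG
      rw [d2, rnc_vv (by omega)]
      simp only [Mon]
      norm_num
      ring
    intro r hr
    have hr' : r ≤ 2 := hr
    rw [show 2 * 2 - 2 = 2 by rfl]
    interval_cases r
    exacts [h0, h1, h2]

/-- The quadric surface. -/
theorem quadricSurface : ∃ F : MvPolynomial (Fin (3 + 1)) R, F.IsHomogeneous 2 ∧ IsSmooth K F ∧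
    IsSRC K F := by
  set F : MvPolynomial (Fin (3 + 1)) R := X 0 * X 3 - X 1 * X 2 with hFdef
  have hF : F.IsHomogeneous 2 :=
    ((isHomogeneous_X _ _).mul (isHomogeneous_X _ _)).sub
      ((isHomogeneous_X _ _).mul (isHomogeneous_X _ _))
  have hd : ∀ {A : Type _} [CommRing A] [Algebra R A] (x w : Fin (3 + 1) → A),
      dir x w F = w 0 * x 3 + x 0 * w 3 - (w 1 * x 2 + x 1 * w 2) := by
    intro A _ _ x w
    simp only [hFdef, dir_sub, dir_mul, dir_X, aeval_X]
  set f : Fin (3 + 1) → MvPolynomial (Fin 2) K := ![X 0 ^ 2, X 0 * X 1, X 0 * X 1, X 1 ^ 2]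
    with hf
  have hfh : ∀ i, (f i).IsHomogeneous (1 + 1) := by
    intro i
    fin_cases i
    · exact isHomogeneous_X_pow _ _
    · exact (isHomogeneous_X _ _).mul (isHomogeneous_X _ _)
    · exact (isHomogeneous_X _ _).mul (isHomogeneous_X _ _)
    · exact isHomogeneous_X_pow _ _
  refine ⟨F, hF, ?_, 1, f, ⟨hfh, ?_, ?_⟩, ?_⟩
  · intro x hx h0
    by_contra hcon
    push Not at hcon
    have hp : ∀ j, dir x (Pi.single j 1) F = 0 := fun j => by
      rw [dir_single]; exact hcon _
    have p0 := hp 0
    have p1 := hp 1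
    have p2 := hp 2
    have p3 := hp 3
    rw [hd] at p0 p1 p2 p3
    simp at p0 p1 p2 p3
    apply hx
    funext i
    fin_cases i
    · exact p3
    · exact p2
    · exact p1
    · exact p0
  · intro a ha
    by_cases ha0 : a 0 = 0
    · refine ⟨3, ?_⟩
      have : a 1 ≠ 0 := by
        intro h1
        exact ha (funext fun i => by fin_cases i <;> simp [ha0, h1])
      simpa [hf] using this
    · refine ⟨0, ?_⟩
      simpa [hf] using ha0
  · simp [hFdef, hf]; ring
  · refine isVeryFree_of_lift (d := 2) (D := 2) hF hfh (by norm_num) fun a _ r hr => ?_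
    have row : ∀ (j : Fin (3 + 1)) (c : K) (G : MvPolynomial (Fin 2) K),
        dir f (fun i => (lin a * C c) * (Pi.single j 1 : Fin (3 + 1) → MvPolynomial (Fin 2) K) i) F
          = lin a * G → G ∈ liftSub F f 1 a := by
      intro j c G h
      refine ⟨_, fun i => ?_, ⟨0, fun i => ?_⟩, h⟩
      · rw [Pi.single_apply]
        have h1 : (lin a * C c).IsHomogeneous 1 := by
          have := (lin_hom a).mul (isHomogeneous_C (Fin 2) c)
          simpa using this
        split_ifs
        · rw [mul_one]; exact h1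
        · rw [mul_zero]; exact isHomogeneous_zero _ _ _
      · rw [map_mul, map_mul, eval_lin]; simp
    interval_cases r
    · apply row 3 1
      rw [hd]
      simp [hf, Mon]
      ring
    · apply row 1 (-1)
      rw [hd]
      simp [hf, Mon]
    · apply row 0 1
      rw [hd]
      simp [hf, Mon]

/-- Adding a hyperbolic plane. -/
theorem step_quadric {n : ℕ} {F : MvPolynomial (Fin (n + 1)) R}
    (hF : F.IsHomogeneous 2) (hs : IsSmooth K F) (hv : IsSRC K F) :
    ∃ F' : MvPolynomial (Fin (n + 2 + 1)) R, F'.IsHomogeneous 2 ∧ IsSmooth K F' ∧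
      IsSRC K F' := by
  refine ⟨rename Fin.castSucc (rename Fin.castSucc F + 0) +
    X (Fin.castSucc (Fin.last (n + 1))) * X (Fin.last (n + 2)), ?_, ?_, ?_⟩
  · rw [add_zero]
    exact ((hF.rename_isHomogeneous).rename_isHomogeneous).add
      ((isHomogeneous_X _ _).mul (isHomogeneous_X _ _))
  · intro x hx h0
    by_contra hcon
    push Not at hcon
    have hl := hcon (Fin.last (n + 2))
    have hl' := hcon (Fin.castSucc (Fin.last (n + 1)))
    rw [← dir_single, dir_add, dir_rename_last, zero_add, dir_mul, dir_X, dir_X,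
      aeval_X, aeval_X, Pi.single_apply, Pi.single_apply, if_pos rfl,
      if_neg (Fin.castSucc_lt_last _).ne] at hl
    rw [← dir_single, dir_add, dir_rename_cast, add_zero, dir_rename_last, dir_mul, dir_X, dir_X,
      aeval_X, aeval_X, Pi.single_apply, Pi.single_apply, if_pos rfl,
      if_neg (Fin.castSucc_lt_last _).ne'] at hl'
    have e1 : x (Fin.castSucc (Fin.last (n + 1))) = 0 := by linear_combination hl
    have e2 : x (Fin.last (n + 2)) = 0 := by linear_combination hl'
    have h0' : aeval (fun i => x (Fin.castSucc (Fin.castSucc i))) F = 0 := by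
      rw [map_add, map_mul, aeval_X, aeval_X, e1, zero_mul, add_zero, aeval_rename, map_add,
        map_zero, add_zero, aeval_rename] at h0
      exact h0
    have hx' : (fun i => x (Fin.castSucc (Fin.castSucc i))) ≠ 0 := by
      intro h
      refine hx (cast_eq_zero x (fun i => ?_) e2)
      refine Fin.lastCases ?_ (fun j => ?_) i
      · exact e1
      · exact congrFun h j
    obtain ⟨i, hi⟩ := hs _ hx' h0'
    apply hi
    have := hcon (Fin.castSucc (Fin.castSucc i))
    rw [← dir_single, dir_add, dir_rename_cast, add_zero, dir_rename_cast, dir_mul, aeval_X,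
      aeval_X, e1, e2, mul_zero, zero_mul, add_zero, add_zero, dir_single] at this
    exact this
  · obtain ⟨e, f, hf, hfv⟩ := hv
    have c1 := ext_curve (H := 0) hf (map_zero _)
    have c2 := ext_veryFree (H := 0) hfv (fun w => dir_zero _ _) (fun a w => dir_zero _ _)
    refine ⟨e, ext0 (ext0 f), ext_curve c1 ?_, ext_veryFree c2 ?_ ?_⟩
    · rw [map_mul, aeval_X, aeval_X, ext0_last, mul_zero]
    · intro w
      rw [dir_mul, aeval_X, aeval_X, ext0_last, ext0_cast, ext0_last]
      ring
    · intro a w
      rw [dir_mul, aeval_X, aeval_X, ext0_last, ext0_cast, ext0_last, map_zero]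
      ring

theorem degree_two {n : ℕ} (hn : 2 ≤ n) :
    ∃ F : MvPolynomial (Fin (n + 1)) R, F.IsHomogeneous 2 ∧ IsSmooth K F ∧ IsSRC K F := by
  induction n using Nat.strong_induction_on with
  | _ n ih =>
    rcases Nat.lt_or_ge n 4 with h | h
    · interval_cases n
      · exact conic
      · exact quadricSurface
    · obtain ⟨F, hF, hs, hv⟩ := ih (n - 2) (by omega) (by omega)
      have := step_quadric hF hs hv
      rwa [show n - 2 + 2 = n by omega] at this

end Pool.Agent.H29.Fano
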