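import Pool.Agent.H29.Fano.CaseC

/-!
Smoothness in case C.
-/

open MvPolynomial

set_option linter.unusedSectionVars false

namespace Pool.Agent.H29.Fano

section

variable {R : Type*} [CommRing R] {K : Type*} [Field K] [Algebra R K]

/-- The relation between the two end derivatives. -/
theorem FC_ends {N : ℕ} (hN : 3 ≤ N) (hN0 : (N : K) = 0) (d : ℕ → R) (x : Fin (N + 1) → K)
    (h1 : x (vv N 1) = 0) (hz : dir x (Pi.single (vv N 0) 1) (FC N d) = 0)
    (hl : dir x (Pi.single (vv N N) 1) (FC N d) = 0)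
    (hne : ¬ (x (vv N 0) = 0 ∧ x (vv N N) = 0)) :
    ∑ i ∈ Finset.Ico 1 N, algebraMap R K (d i) * (i : K) *
      (x (vv N 0) ^ (N - 1 - i) * x (vv N N) ^ (i - 1)) = 0 := by
  rw [dFC_zero hN hN0, h1] at hz
  rw [dFC_last hN hN0, h1] at hl
  simp only [zero_mul, mul_zero, Finset.sum_const_zero, neg_zero, zero_sub, neg_eq_zero] at hz hl
  set S := ∑ i ∈ Finset.Ico 1 N, algebraMap R K (d i) * (i : K) *
      (x (vv N 0) ^ (N - 1 - i) * x (vv N N) ^ (i - 1)) with hS
  have e1 : x (vv N N) * S = 0 := by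
    rw [← neg_eq_zero, ← hz, hS, Finset.mul_sum, ← Finset.sum_neg_distrib]
    refine Finset.sum_congr rfl fun i hi => ?_
    rw [Finset.mem_Ico] at hi
    have : ((N - i : ℕ) : K) = - (i : K) := by
      rw [Nat.cast_sub (by omega), hN0, zero_sub]
    rw [this, show N - i - 1 = N - 1 - i by omega]
    obtain ⟨m, rfl⟩ : ∃ m, i = m + 1 := ⟨i - 1, by omega⟩
    rw [Nat.add_sub_cancel, pow_succ]
    ring
  have e2 : x (vv N 0) * S = 0 := by
    rw [← hl, hS, Finset.mul_sum]
    refine Finset.sum_congr rfl fun i hi => ?_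
    rw [Finset.mem_Ico] at hi
    rw [show N - i = (N - 1 - i) + 1 by omega, pow_succ]
    ring
  by_contra hcon
  exact hne ⟨(mul_eq_zero.mp e2).resolve_right hcon, (mul_eq_zero.mp e1).resolve_right hcon⟩

/-- The cascade. -/
theorem FC_cascade {N : ℕ} (hN : 3 ≤ N) (hN0 : (N : K) = 0) (d : ℕ → R) (x : Fin (N + 1) → K)
    {m : ℕ} (hm : m < N - 1) (hm0 : x (vv N m) = 0)
    (h : ∀ j, 2 ≤ j → j ≤ m → dir x (Pi.single (vv N j) 1) (FC N d) = 0) :
    ∀ j, 1 ≤ j → j ≤ m → x (vv N j) = 0 := by
  have key : ∀ n j, m - j ≤ n → 1 ≤ j → j ≤ m → x (vv N j) = 0 := by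
    intro n
    induction n with
    | zero =>
      intro j h1 _ h3
      rw [show j = m by omega]; exact hm0
    | succ n ih =>
      intro j h1 h2 h3
      rcases Nat.lt_or_ge j m with h' | h'
      · have hj := h (j + 1) (by omega) (by omega)
        have h0 := ih (j + 1) (by omega) (by omega) (by omega)
        rw [dFC_mid hN hN0 _ _ (by omega) (by omega), h0, zero_pow (by omega), zero_mul,
          sub_zero, Nat.add_sub_cancel] at hj
        exact pow_eq_zero_iff (by omega) |>.mp hj
      · rw [show j = m by omega]; exact hm0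
  intro j h1 h2
  exact key _ j le_rfl h1 h2

theorem eq_zero_of_all {N : ℕ} (x : Fin (N + 1) → K) (h : ∀ i, i ≤ N → x (vv N i) = 0) :
    x = 0 := by
  funext i
  rw [← vv_surj i, h _ (by omega)]; rfl

theorem FC_smooth {N : ℕ} (hN : 3 ≤ N) (hN0 : (N : K) = 0) (d : ℕ → R)
    (hdN : algebraMap R K (d (N - 1)) ≠ 0)
    (hB : ∀ a b : K, ¬ (a = 0 ∧ b = 0) →
      ∑ i ∈ Finset.Ico 1 (N - 1), a ^ (N - 1 - i) * b ^ i = 0 →
      ∑ i ∈ Finset.Ico 1 N, algebraMap R K (d i) * (i : K) *
        (a ^ (N - 1 - i) * b ^ (i - 1)) = 0 → False) :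
    IsSmooth K (FC N d) := by
  intro x hx h0
  by_contra hcon
  push Not at hcon
  have hp : ∀ j, dir x (Pi.single (vv N j) 1) (FC N d) = 0 := fun j => by
    rw [dir_single]; exact hcon _
  have hN2 : x (vv N (N - 2)) = 0 := by
    have := hp (N - 1)
    rw [dFC_top hN hN0] at this
    exact pow_eq_zero_iff (by omega) |>.mp this
  have hc := FC_cascade hN hN0 d x (show N - 2 < N - 1 by omega) hN2 (fun j _ _ => hp j)
  have h1 : x (vv N 1) = 0 := hc 1 le_rfl (by omega)
  have hends : x (vv N 0) = 0 ∧ x (vv N N) = 0 := by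
    by_contra hne
    refine hB _ _ hne ?_ (FC_ends hN hN0 d x h1 (hp 0) (hp N) hne)
    have := hp 1
    rw [dFC_one hN hN0, h1, zero_pow (by omega), zero_mul, neg_zero, zero_sub,
      neg_eq_zero] at this
    exact this
  -- the last coordinate
  have hlast : x (vv N (N - 1)) = 0 := by
    rw [FC, map_add, aeval_GC, aeval_FA, Finset.sum_eq_zero, zero_add,
      Finset.sum_eq_single (N - 1)] at h0
    · rw [hends.2, zero_pow (by omega), mul_zero, sub_zero] at h0
      exact pow_eq_zero_iff (by omega) |>.mp ((mul_eq_zero.mp h0).resolve_left hdN)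
    · intro i hi hi1
      rw [Finset.mem_Ico] at hi
      rw [hends.2, hc i (by omega) (by omega), zero_pow (by omega), zero_pow (by omega)]
      ring
    · intro h
      exact absurd (Finset.mem_Ico.mpr ⟨by omega, by omega⟩) h
    · intro i hi
      rw [Finset.mem_Ico] at hi
      rw [h1, hc i (by omega) (by omega), zero_pow (by omega)]
      ring
  apply hx
  apply eq_zero_of_all
  intro i hi
  rcases Nat.eq_zero_or_pos i with h | h
  · rw [h]; exact hends.1
  · rcases Nat.lt_or_ge i (N - 1) with h' | h'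
    · exact hc i h (by omega)
    · rcases Nat.lt_or_ge i N with h'' | h''
      · rw [show i = N - 1 by omega]; exact hlast
      · rw [show i = N by omega]; exact hends.2

theorem FC_section {N : ℕ} (hN : 4 ≤ N) (hN0 : (N : K) = 0) (d : ℕ → R)
    (hdN : algebraMap R K (d (N - 2)) ≠ 0)
    (hB : ∀ a b : K, ¬ (a = 0 ∧ b = 0) →
      ∑ i ∈ Finset.Ico 1 (N - 1), a ^ (N - 1 - i) * b ^ i = 0 →
      ∑ i ∈ Finset.Ico 1 N, algebraMap R K (d i) * (i : K) *
        (a ^ (N - 1 - i) * b ^ (i - 1)) = 0 → False) :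
    SmoothSection K (FC N d) (vv N (N - 1)) := by
  intro x hx hxj h0
  by_contra hcon
  push Not at hcon
  have hp : ∀ j, j ≤ N → j ≠ N - 1 → dir x (Pi.single (vv N j) 1) (FC N d) = 0 :=
    fun j hj hj' => by
      rw [dir_single]
      exact hcon _ (fun h => hj' ((vv_inj hj (by omega)).mp h))
  have hN3 : x (vv N (N - 3)) = 0 := by
    have := hp (N - 2) (by omega) (by omega)
    rw [dFC_mid (by omega) hN0 _ _ (by omega) (by omega), show N - 2 + 1 = N - 1 by omega, hxj,
      mul_zero, sub_zero, show N - 2 - 1 = N - 3 by omega] at this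
    exact pow_eq_zero_iff (by omega) |>.mp this
  have hc := FC_cascade (by omega) hN0 d x (show N - 3 < N - 1 by omega) hN3
    (fun j _ _ => hp j (by omega) (by omega))
  have h1 : x (vv N 1) = 0 := hc 1 le_rfl (by omega)
  have hends : x (vv N 0) = 0 ∧ x (vv N N) = 0 := by
    by_contra hne
    refine hB _ _ hne ?_ (FC_ends (by omega) hN0 d x h1 (hp 0 (by omega) (by omega))
      (hp N (by omega) (by omega)) hne)
    have := hp 1 (by omega) (by omega)
    rw [dFC_one (by omega) hN0, h1, zero_pow (by omega), zero_mul, neg_zero, zero_sub,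
      neg_eq_zero] at this
    exact this
  have hlast : x (vv N (N - 2)) = 0 := by
    rw [FC, map_add, aeval_GC, aeval_FA, Finset.sum_eq_zero, zero_add,
      Finset.sum_eq_single (N - 2)] at h0
    · rw [hends.2, zero_pow (by omega), mul_zero, sub_zero] at h0
      exact pow_eq_zero_iff (by omega) |>.mp ((mul_eq_zero.mp h0).resolve_left hdN)
    · intro i hi hi1
      rw [Finset.mem_Ico] at hi
      rcases Nat.lt_or_ge i (N - 2) with h' | h'
      · rw [hends.2, hc i (by omega) (by omega), zero_pow (by omega), zero_pow (by omega)]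
        ring
      · rw [hends.2, show i = N - 1 by omega, hxj, zero_pow (by omega), zero_pow (by omega)]
        ring
    · intro h
      exact absurd (Finset.mem_Ico.mpr ⟨by omega, by omega⟩) h
    · intro i hi
      rw [Finset.mem_Ico] at hi
      rcases Nat.lt_or_ge i (N - 2) with h' | h'
      · rw [h1, hc i (by omega) (by omega), zero_pow (by omega)]
        ring
      · rw [h1, show i + 1 = N - 1 by omega, hxj]
        ring
  apply hx
  apply eq_zero_of_all
  intro i hi
  rcases Nat.eq_zero_or_pos i with h | h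
  · rw [h]; exact hends.1
  · rcases Nat.lt_or_ge i (N - 2) with h' | h'
    · exact hc i h (by omega)
    · rcases Nat.lt_or_ge i (N - 1) with h'' | h''
      · rw [show i = N - 2 by omega]; exact hlast
      · rcases Nat.lt_or_ge i N with h3 | h3
        · rw [show i = N - 1 by omega]; exact hxj
        · rw [show i = N by omega]; exact hends.2

end

end Pool.Agent.H29.Fano
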