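import Pool.Agent.H29.Fano.FinC

/-!
Characteristic two, degree four.
-/

open MvPolynomial

set_option linter.unusedSectionVars false

namespace Pool.Agent.H29.Fano

section

variable (R : Type*) [CommRing R]

/-- A quartic threefold in characteristic two. -/
noncomputable def FS : MvPolynomial (Fin (4 + 1)) R :=
  X (vv 4 1) ^ 3 * X (vv 4 2) + X (vv 4 2) ^ 3 * X (vv 4 3)
  + X (vv 4 1) * (X (vv 4 0) ^ 2 * X (vv 4 4)) + X (vv 4 1) * (X (vv 4 0) * X (vv 4 4) ^ 2)
  + X (vv 4 1) ^ 4 + X (vv 4 0) ^ 3 * X (vv 4 4) + X (vv 4 3) ^ 4 + X (vv 4 0) * X (vv 4 4) ^ 3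
  + X (vv 4 0) ^ 2 * (X (vv 4 2) * X (vv 4 4)) + X (vv 4 0) ^ 2 * X (vv 4 3) ^ 2

variable {R}

theorem FS_hom : (FS R).IsHomogeneous 4 := by
  have hX : ∀ (i j : ℕ), (X (vv 4 i) ^ j : MvPolynomial (Fin (4 + 1)) R).IsHomogeneous j :=
    fun i j => isHomogeneous_X_pow _ _
  have hX1 : ∀ (i : ℕ), (X (vv 4 i) : MvPolynomial (Fin (4 + 1)) R).IsHomogeneous 1 :=
    fun i => isHomogeneous_X _ _
  refine (((((((((?_ : IsHomogeneous _ _).add ?_).add ?_).add ?_).add ?_).add ?_).add ?_).add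
    ?_).add ?_).add ?_
  · exact (hX 1 3).mul (hX1 2)
  · exact (hX 2 3).mul (hX1 3)
  · exact (hX1 1).mul ((hX 0 2).mul (hX1 4))
  · exact (hX1 1).mul ((hX1 0).mul (hX 4 2))
  · exact hX 1 4
  · exact (hX 0 3).mul (hX1 4)
  · exact hX 3 4
  · exact (hX1 0).mul (hX 4 3)
  · exact (hX 0 2).mul ((hX1 2).mul (hX1 4))
  · exact (hX 0 2).mul (hX 3 2)

theorem aeval_FS {A : Type*} [CommRing A] [Algebra R A] (x : Fin (4 + 1) → A) :
    aeval x (FS R) =
  x (vv 4 1) ^ 3 * x (vv 4 2) + x (vv 4 2) ^ 3 * x (vv 4 3)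
  + x (vv 4 1) * (x (vv 4 0) ^ 2 * x (vv 4 4)) + x (vv 4 1) * (x (vv 4 0) * x (vv 4 4) ^ 2)
  + x (vv 4 1) ^ 4 + x (vv 4 0) ^ 3 * x (vv 4 4) + x (vv 4 3) ^ 4 + x (vv 4 0) * x (vv 4 4) ^ 3
  + x (vv 4 0) ^ 2 * (x (vv 4 2) * x (vv 4 4)) + x (vv 4 0) ^ 2 * x (vv 4 3) ^ 2 := by
  simp [FS]

section partials

variable {A : Type*} [CommRing A] [Algebra R A] (h2 : (2 : A) = 0) (x : Fin (4 + 1) → A)

include h2

theorem dFS0 : dir x (Pi.single (vv 4 0) 1) (FS R) =
    x (vv 4 1) * x (vv 4 4) ^ 2 + x (vv 4 0) ^ 2 * x (vv 4 4) + x (vv 4 4) ^ 3 := by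
  simp only [FS, dir_add, dir_mul, dir_pow, dir_X, map_mul, map_pow, aeval_X]
  rw [single_vv (by omega) (by omega), single_vv (by omega) (by omega),
    single_vv (by omega) (by omega), single_vv (by omega) (by omega),
    single_vv (by omega) (by omega)]
  norm_num
  linear_combination (x (vv 4 1) * x (vv 4 0) * x (vv 4 4) + x (vv 4 0) ^ 2 * x (vv 4 4)
    + x (vv 4 0) * x (vv 4 2) * x (vv 4 4) + x (vv 4 0) * x (vv 4 3) ^ 2) * h2

theorem dFS1 : dir x (Pi.single (vv 4 1) 1) (FS R) =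
    x (vv 4 1) ^ 2 * x (vv 4 2) + x (vv 4 0) ^ 2 * x (vv 4 4) + x (vv 4 0) * x (vv 4 4) ^ 2 := by
  simp only [FS, dir_add, dir_mul, dir_pow, dir_X, map_mul, map_pow, aeval_X]
  rw [single_vv (by omega) (by omega), single_vv (by omega) (by omega),
    single_vv (by omega) (by omega), single_vv (by omega) (by omega),
    single_vv (by omega) (by omega)]
  norm_num
  linear_combination (x (vv 4 1) ^ 2 * x (vv 4 2) + 2 * x (vv 4 1) ^ 3) * h2

theorem dFS2 : dir x (Pi.single (vv 4 2) 1) (FS R) =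
    x (vv 4 1) ^ 3 + x (vv 4 2) ^ 2 * x (vv 4 3) + x (vv 4 0) ^ 2 * x (vv 4 4) := by
  simp only [FS, dir_add, dir_mul, dir_pow, dir_X, map_mul, map_pow, aeval_X]
  rw [single_vv (by omega) (by omega), single_vv (by omega) (by omega),
    single_vv (by omega) (by omega), single_vv (by omega) (by omega),
    single_vv (by omega) (by omega)]
  norm_num
  linear_combination (x (vv 4 2) ^ 2 * x (vv 4 3)) * h2

theorem dFS3 : dir x (Pi.single (vv 4 3) 1) (FS R) = x (vv 4 2) ^ 3 := by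
  simp only [FS, dir_add, dir_mul, dir_pow, dir_X, map_mul, map_pow, aeval_X]
  rw [single_vv (by omega) (by omega), single_vv (by omega) (by omega),
    single_vv (by omega) (by omega), single_vv (by omega) (by omega),
    single_vv (by omega) (by omega)]
  norm_num
  linear_combination (2 * x (vv 4 3) ^ 3 + x (vv 4 0) ^ 2 * x (vv 4 3)) * h2

theorem dFS4 : dir x (Pi.single (vv 4 4) 1) (FS R) =
    x (vv 4 1) * x (vv 4 0) ^ 2 + x (vv 4 0) ^ 3 + x (vv 4 0) * x (vv 4 4) ^ 2
      + x (vv 4 0) ^ 2 * x (vv 4 2) := by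
  simp only [FS, dir_add, dir_mul, dir_pow, dir_X, map_mul, map_pow, aeval_X]
  rw [single_vv (by omega) (by omega), single_vv (by omega) (by omega),
    single_vv (by omega) (by omega), single_vv (by omega) (by omega),
    single_vv (by omega) (by omega)]
  norm_num
  linear_combination (x (vv 4 1) * x (vv 4 0) * x (vv 4 4) + x (vv 4 0) * x (vv 4 4) ^ 2) * h2

end partials

variable {K : Type*} [Field K] [Algebra R K]

theorem FS_smooth (h2 : (2 : K) = 0) : IsSmooth K (FS R) := by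
  intro x hx h0
  by_contra hcon
  push Not at hcon
  have hp : ∀ j, dir x (Pi.single (vv 4 j) 1) (FS R) = 0 := fun j => by
    rw [dir_single]; exact hcon _
  have p0 := hp 0
  have p1 := hp 1
  have p2 := hp 2
  have p3 := hp 3
  have p4 := hp 4
  rw [dFS0 h2] at p0
  rw [dFS1 h2] at p1
  rw [dFS2 h2] at p2
  rw [dFS3 h2] at p3
  rw [dFS4 h2] at p4
  rw [aeval_FS] at h0
  have e2 : x (vv 4 2) = 0 := pow_eq_zero_iff (by omega) |>.mp p3
  rw [e2] at p1 p2 p4 h0
  -- first coordinate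
  have e0 : x (vv 4 0) = 0 := by
    by_contra hne
    have q1 : x (vv 4 4) * (x (vv 4 0) + x (vv 4 4)) = 0 := by
      have : x (vv 4 0) * (x (vv 4 4) * (x (vv 4 0) + x (vv 4 4))) = 0 := by
        linear_combination p1
      exact (mul_eq_zero.mp this).resolve_left hne
    have q4 : x (vv 4 0) * x (vv 4 1) + x (vv 4 0) ^ 2 + x (vv 4 4) ^ 2 = 0 := by
      have : x (vv 4 0) * (x (vv 4 0) * x (vv 4 1) + x (vv 4 0) ^ 2 + x (vv 4 4) ^ 2) = 0 := by
        linear_combination p4
      exact (mul_eq_zero.mp this).resolve_left hne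
    rcases mul_eq_zero.mp q1 with h | h
    · rw [h] at p2 q4
      have e1 : x (vv 4 1) = 0 := by
        have : x (vv 4 1) ^ 3 = 0 := by linear_combination p2
        exact pow_eq_zero_iff (by omega) |>.mp this
      rw [e1] at q4
      have : x (vv 4 0) ^ 2 = 0 := by linear_combination q4
      exact hne (pow_eq_zero_iff (by omega) |>.mp this)
    · have h4 : x (vv 4 4) = - x (vv 4 0) := by linear_combination h
      rw [h4] at q4 p2
      have e1 : x (vv 4 1) = 0 := by
        have : x (vv 4 0) * x (vv 4 1) = 0 := by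
          linear_combination q4 - x (vv 4 0) ^ 2 * h2
        exact (mul_eq_zero.mp this).resolve_left hne
      rw [e1] at p2
      have : x (vv 4 0) ^ 3 = 0 := by linear_combination -p2
      exact hne (pow_eq_zero_iff (by omega) |>.mp this)
  rw [e0] at p0 p2 h0
  have e1 : x (vv 4 1) = 0 := by
    have : x (vv 4 1) ^ 3 = 0 := by linear_combination p2
    exact pow_eq_zero_iff (by omega) |>.mp this
  rw [e1] at p0 h0
  have e4 : x (vv 4 4) = 0 := by
    have : x (vv 4 4) ^ 3 = 0 := by linear_combination p0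
    exact pow_eq_zero_iff (by omega) |>.mp this
  rw [e4] at h0
  have e3 : x (vv 4 3) = 0 := by
    have : x (vv 4 3) ^ 4 = 0 := by linear_combination h0
    exact pow_eq_zero_iff (by omega) |>.mp this
  apply hx
  apply eq_zero_of_all
  intro i hi
  interval_cases i <;> assumption

theorem FS_section (h2 : (2 : K) = 0) : SmoothSection K (FS R) (vv 4 1) := by
  intro x hx hxj h0
  by_contra hcon
  push Not at hcon
  have hp : ∀ j, j ≤ 4 → j ≠ 1 → dir x (Pi.single (vv 4 j) 1) (FS R) = 0 :=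
    fun j hj hj' => by
      rw [dir_single]
      exact hcon _ (fun h => hj' ((vv_inj hj (by omega)).mp h))
  have p0 := hp 0 (by omega) (by omega)
  have p2 := hp 2 (by omega) (by omega)
  have p3 := hp 3 (by omega) (by omega)
  have p4 := hp 4 (by omega) (by omega)
  rw [dFS0 h2] at p0
  rw [dFS2 h2] at p2
  rw [dFS3 h2] at p3
  rw [dFS4 h2] at p4
  rw [aeval_FS] at h0
  have e2 : x (vv 4 2) = 0 := pow_eq_zero_iff (by omega) |>.mp p3
  rw [e2, hxj] at p2 p4 h0
  rw [hxj] at p0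
  have q : x (vv 4 0) ^ 2 * x (vv 4 4) = 0 := by linear_combination p2
  have e4 : x (vv 4 4) = 0 := by
    have : x (vv 4 4) ^ 3 = 0 := by linear_combination p0 - q
    exact pow_eq_zero_iff (by omega) |>.mp this
  rw [e4] at p4 h0
  have e0 : x (vv 4 0) = 0 := by
    have : x (vv 4 0) ^ 3 = 0 := by linear_combination p4
    exact pow_eq_zero_iff (by omega) |>.mp this
  rw [e0] at h0
  have e3 : x (vv 4 3) = 0 := by
    have : x (vv 4 3) ^ 4 = 0 := by linear_combination h0
    exact pow_eq_zero_iff (by omega) |>.mp this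
  apply hx
  apply eq_zero_of_all
  intro i hi
  interval_cases i <;> assumption

theorem two_eq_zero (h2 : (2 : K) = 0) : (2 : MvPolynomial (Fin 2) K) = 0 := by
  have : (C (2 : K) : MvPolynomial (Fin 2) K) = 2 := map_ofNat _ 2
  rw [← this, h2, C_0]

theorem FS_rnc (h2 : (2 : K) = 0) : aeval (rnc K 4) (FS R) = 0 := by
  have h2' := two_eq_zero h2
  rw [aeval_FS, rnc_vv (by omega), rnc_vv (by omega), rnc_vv (by omega), rnc_vv (by omega),
    rnc_vv (by omega)]
  simp only [Mon]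
  norm_num
  linear_combination (X 0 ^ 11 * X 1 ^ 5 + X 0 ^ 7 * X 1 ^ 9 + X 0 ^ 12 * X 1 ^ 4 +
    X 0 ^ 4 * X 1 ^ 12 + X 0 ^ 10 * X 1 ^ 6) * h2'

attribute [local irreducible] Mon

theorem FS_veryFree (h2 : (2 : K) = 0) : IsVeryFree (FS R) (4 - 1) (rnc K 4) := by
  have h2' := two_eq_zero h2
  refine rnc_isVeryFree (by omega) FS_hom (FS_rnc h2) fun V hV hG => ?_
  have m : ∀ a b, a ≤ 12 → b ≤ 2 → Mon K 12 a * Mon K 2 b = Mon K 14 (a + b) :=
    fun a b ha hb => Mon_mul ha hb
  have r3 : ∀ b, b ≤ 2 → Mon K 14 (6 + b) ∈ V := by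
    intro b hb
    have h := hV 3 (by omega) b hb
    rw [dFS3 h2', rnc_vv (by omega), Mon_pow (by omega)] at h
    rwa [← m 6 b (by omega) hb]
  have r1 : ∀ b, b ≤ 2 → Mon K 14 (8 + b) ∈ V := by
    intro b hb
    have h := hV 1 (by omega) b hb
    rw [dFS1 h2', rnc_vv (by omega), rnc_vv (by omega), rnc_vv (by omega), rnc_vv (by omega)] at h
    rw [← m 8 b (by omega) hb]
    convert h using 2
    simp only [Mon]
    norm_num
    linear_combination (- (X 0 ^ 8 * X 1 ^ 4)) * h2'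
  have r2 : ∀ b, b ≤ 2 → Mon K 14 (3 + b) + Mon K 14 (7 + b) + Mon K 14 (4 + b) ∈ V := by
    intro b hb
    have h := hV 2 (by omega) b hb
    rw [dFS2 h2', rnc_vv (by omega), rnc_vv (by omega), rnc_vv (by omega), rnc_vv (by omega),
      rnc_vv (by omega)] at h
    rw [← m 3 b (by omega) hb, ← m 7 b (by omega) hb, ← m 4 b (by omega) hb, ← add_mul, ← add_mul]
    convert h using 2
    simp only [Mon]
    norm_num
    ring
  have r4 : ∀ b, b ≤ 2 → Mon K 14 (1 + b) + Mon K 14 (0 + b) + Mon K 14 (8 + b)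
      + Mon K 14 (2 + b) ∈ V := by
    intro b hb
    have h := hV 4 (by omega) b hb
    rw [dFS4 h2', rnc_vv (by omega), rnc_vv (by omega), rnc_vv (by omega), rnc_vv (by omega)] at h
    rw [← m 1 b (by omega) hb, ← m 0 b (by omega) hb, ← m 8 b (by omega) hb,
      ← m 2 b (by omega) hb, ← add_mul, ← add_mul, ← add_mul]
    convert h using 2
    simp only [Mon]
    norm_num
    ring
  have r0 : ∀ b, b ≤ 2 → Mon K 14 (9 + b) + Mon K 14 (4 + b) + Mon K 14 (12 + b) ∈ V := by
    intro b hb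
    have h := hV 0 (by omega) b hb
    rw [dFS0 h2', rnc_vv (by omega), rnc_vv (by omega), rnc_vv (by omega)] at h
    rw [← m 9 b (by omega) hb, ← m 4 b (by omega) hb, ← m 12 b (by omega) hb, ← add_mul,
      ← add_mul]
    convert h using 2
    simp only [Mon]
    norm_num
    ring
  have rG : Mon K 14 4 + Mon K 14 3 + Mon K 14 11 + Mon K 14 5 ∈ V := by
    apply hG
    rw [dFS4 h2', rnc_vv (by omega), rnc_vv (by omega), rnc_vv (by omega), rnc_vv (by omega)]
    simp only [Mon]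
    norm_num
    ring
  have sub3 : ∀ {a b c : MvPolynomial (Fin 2) K}, a + b + c ∈ V → b ∈ V → c ∈ V → a ∈ V := by
    intro a b c h hb hc
    have := V.sub_mem (V.sub_mem h hc) hb
    rwa [add_sub_cancel_right, add_sub_cancel_right] at this
  have h6 := r3 0 (by omega)
  have h7 := r3 1 (by omega)
  have h8 := r3 2 (by omega)
  have h9 := r1 1 (by omega)
  have h10 := r1 2 (by omega)
  norm_num at h6 h7 h8 h9 h10
  have h5 : Mon K 14 5 ∈ V := sub3 (r2 2 (by omega)) h9 h6
  have h4 : Mon K 14 4 ∈ V := sub3 (r2 1 (by omega)) h8 h5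
  have h3 : Mon K 14 3 ∈ V := sub3 (r2 0 (by omega)) h7 h4
  have h2m : Mon K 14 2 ∈ V := by
    have h := r4 2 (by omega)
    norm_num at h
    have h' := V.sub_mem (V.sub_mem (V.sub_mem h h4) h10) h3
    convert h' using 1
    ring
  have h1m : Mon K 14 1 ∈ V := by
    have h := r4 1 (by omega)
    norm_num at h
    have h' := V.sub_mem (V.sub_mem (V.sub_mem h h3) h9) h2m
    convert h' using 1
    ring
  have h0m : Mon K 14 0 ∈ V := by
    have h := r4 0 (by omega)
    norm_num at h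
    have h' := V.sub_mem (V.sub_mem (V.sub_mem h h2m) h8) h1m
    convert h' using 1
    ring
  have h11 : Mon K 14 11 ∈ V := by
    have h' := V.sub_mem (V.sub_mem (V.sub_mem rG h4) h3) h5
    convert h' using 1
    ring
  have h12 : Mon K 14 12 ∈ V := by
    have h := r0 0 (by omega)
    norm_num at h
    have h' := V.sub_mem (V.sub_mem h h9) h4
    convert h' using 1
    ring
  have h13 : Mon K 14 13 ∈ V := by
    have h := r0 1 (by omega)
    norm_num at h
    have h' := V.sub_mem (V.sub_mem h h10) h5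
    convert h' using 1
    ring
  have h14 : Mon K 14 14 ∈ V := by
    have h := r0 2 (by omega)
    norm_num at h
    have h' := V.sub_mem (V.sub_mem h h11) h6
    convert h' using 1
    ring
  intro r hr
  have hr' : r ≤ 14 := hr
  rw [show 4 * 4 - 2 = 14 by rfl]
  rcases Nat.lt_or_ge r 8 with h | h
  · interval_cases r
    exacts [h0m, h1m, h2m, h3, h4, h5, h6, h7]
  · interval_cases r
    exacts [h8, h9, h10, h11, h12, h13, h14]

end

/-- Characteristic two, degree four. -/
theorem caseS {K : Type*} [Field K] [Algebra (ZMod 2) K] :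
    ∃ F : MvPolynomial (Fin (4 + 1)) (ZMod 2), F.IsHomogeneous 4 ∧ IsSmooth K F ∧
      (∃ j, SmoothSection K F j) ∧
      IsRationalCurve F (4 - 1) (rnc K 4) ∧ IsVeryFree F (4 - 1) (rnc K 4) := by
  have : CharP K 2 := charP_of_injective_algebraMap (algebraMap (ZMod 2) K).injective 2
  have h2 : (2 : K) = 0 := by
    have := (CharP.cast_eq_zero_iff K 2 2).mpr dvd_rfl
    exact_mod_cast this
  exact ⟨FS (ZMod 2), FS_hom, FS_smooth h2, ⟨_, FS_section h2⟩,
    rnc_isRationalCurve (by omega) (FS_rnc h2), FS_veryFree h2⟩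

end Pool.Agent.H29.Fano
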